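import Pool.Agent.Y118.UL.Wreg

/-!
# The windows theorem for connected families of G-functions
-/

set_option autoImplicit false
set_option maxHeartbeats 400000

open PowerSeries Filter Pool.Agent.Y113 Pool.Agent.Y120.GF Pool.Agent.Y120.GH

namespace Pool.Agent.Y118.UL

variable {r : ℕ}

/-- the ideal generated by the specialised functional relations of degree `≤ d` -/
noncomputable def rI (d : ℕ) {k : ℕ} {σ : Type} (h : Fin r → ℚ⟦X⟧) (t : Fin k → ℕ) (e : Fin k × Fin r → σ) :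
    Ideal (MvPolynomial σ ℂ) :=
  Ideal.span {Q | ∃ (j : Fin k) (R : MvPolynomial (Fin r) (Polynomial ℚ)), R.totalDegree ≤ d ∧
    MvPolynomial.aeval h R = 0 ∧ Q = MvPolynomial.rename (fun i => e (j, i)) (MvPolynomial.map (spec (t j)) R)}

lemma relI_to {d k : ℕ} {σ : Type} {h : Fin r → ℚ⟦X⟧} {t : Fin k → ℕ} {e : Fin k × Fin r → σ}
    (Φ : MvPolynomial (Σ _ : Fin k, Option (Fin r)) ℂ →ₐ[ℂ] MvPolynomial σ ℂ)
    (hΦ : ∀ j i, Φ (MvPolynomial.X ⟨j, some i⟩) = MvPolynomial.X (e (j, i)))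
    {P : MvPolynomial (Σ _ : Fin k, Option (Fin r)) ℂ} (hP : P ∈ relI d (fun _ => h) t) : Φ P ∈ rI d h t e := by
  have h1 : relI d (fun _ => h) t ≤ (rI d h t e).comap Φ := by
    refine Ideal.span_le.2 ?_
    rintro Q ⟨j, R, h1, h2, rfl⟩
    refine Ideal.subset_span ⟨j, R, h1, h2, ?_⟩
    have h3 : Φ.comp (MvPolynomial.rename (fun i : Fin r => (⟨j, some i⟩ : Σ _ : Fin k, Option (Fin r)))) =
        MvPolynomial.rename (fun i => e (j, i)) := by
      refine MvPolynomial.algHom_ext fun i => ?_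
      rw [AlgHom.comp_apply, MvPolynomial.rename_X, MvPolynomial.rename_X, hΦ]
    exact DFunLike.congr_fun h3 _
  exact h1 hP

/-- substitution of the constants -/
noncomputable def pc {υ σ : Type} (w : υ → ℂ) {K : Type} [CommRing K] [Algebra K ℂ] (P : MvPolynomial (υ ⊕ σ) K) :
    MvPolynomial σ ℂ :=
  MvPolynomial.aeval (Sum.elim (fun v => MvPolynomial.C (w v)) MvPolynomial.X) P

/-- the windows theorem for connected families -/
theorem winR {h : Fin r → ℚ⟦X⟧} {T : Polynomial ℤ} {A : Fin r → Fin r → Polynomial ℤ} (hT : T ≠ 0)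
    (hode : ∀ i, ps T * d⁄dX ℚ (h i) = ∑ j, ps (A i j) * h j)
    (hsize : ∃ C : ℝ, ∀ i m, |((coeff m (h i) : ℚ) : ℝ)| ≤ C ^ (m + 1))
    (hden : ∃ C : ℝ, ∀ m, ∃ d : ℕ, 0 < d ∧ (d : ℝ) ≤ C ^ (m + 1) ∧ ∀ i, ∀ j ≤ m, ∃ a : ℤ, (d : ℚ) * coeff j (h i) = a)
    (hgal : ∃ C : ℝ, ∀ m, ∃ d : ℕ, 0 < d ∧ (d : ℝ) ≤ C ^ (m + 1) ∧ ∀ s ≤ m, ∀ i j, ∃ H : Polynomial ℤ,
      (d : Polynomial ℤ) * itm T A s i j = (s.factorial : Polynomial ℤ) * H)
    (hqu : QU0 T A) (conn : Conn h) :
    ∃ G0 : ℕ, ∀ G : ℕ, G0 ≤ G → ∀ (p : ℕ) (Ω : Fin p → ℂ) (q k D d : ℕ), ∃ E : ℕ, ∀ H t : ℕ, (H + 2) ^ E ≤ t →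
      ∀ w : Fin q → ℂ,
      (∃ S : Finset ℕ, (S.card : Cardinal) ≤ Algebra.trdeg ℚ (IntermediateField.adjoin ℚ (Set.range Ω)) + q ∧
        ∀ u : Fin k → ℕ, Function.Injective u → (∀ j, 1 ≤ u j ∧ u j ≤ H ∧ u j ∉ S) →
        ∀ K : IntermediateField ℚ ℂ, FiniteDimensional ℚ K → Module.finrank ℚ K ≤ D →
        ∀ P : MvPolynomial ((Fin p ⊕ Fin q) ⊕ Fin k × Fin r) K, P.totalDegree ≤ d →
        MvPolynomial.aeval (Sum.elim (Sum.elim Ω w) fun a : Fin k × Fin r =>
          ((ev ((t - G * u a.1 : ℕ) : ℝ) (h a.2) : ℝ) : ℂ)) P = 0 →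
        pc (Sum.elim Ω w) P ∈ rI d h (fun j => t - G * u j) id) ∧
      (∃ S : Finset ℕ, (S.card : Cardinal) ≤ Algebra.trdeg ℚ (IntermediateField.adjoin ℚ (Set.range Ω)) + q + 1 ∧
        ∀ u : Fin k → ℕ, Function.Injective u → (∀ j, 1 ≤ u j ∧ u j ≤ H ∧ u j ∉ S) →
        ∀ K : IntermediateField ℚ ℂ, FiniteDimensional ℚ K → Module.finrank ℚ K ≤ D →
        ∀ P : MvPolynomial ((Fin p ⊕ Fin q) ⊕ Fin k × Option (Fin r)) K, P.totalDegree ≤ d →
        MvPolynomial.aeval (Sum.elim (Sum.elim Ω w) (gl (fun a : Fin k × Fin r =>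
          ((ev ((t - G * u a.1 : ℕ) : ℝ) (h a.2) : ℝ) : ℂ)) fun j => ((Real.log (t - G * u j : ℕ) : ℝ) : ℂ))) P = 0 →
        pc (Sum.elim Ω w) P ∈ rI d h (fun j => t - G * u j) fun a => (a.1, some a.2)) := by
  classical
  obtain ⟨R, hfam⟩ := fam hT hode hsize hden hgal hqu
  obtain ⟨I, hI, hI2⟩ := exists_free h
  refine ⟨R + 1, fun G hG p Ω q k D d => ?_⟩
  have hnr := norel hsize hI hfam (show 1 ≤ G by omega) (show R ≤ G by omega)
  obtain ⟨T0, hT0, hT1⟩ := exists_T Ω
  obtain ⟨C', hC'⟩ := hsize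
  have hC : 0 ≤ |C'| := abs_nonneg _
  have hh : ∀ j m, |((coeff m (h j) : ℚ) : ℝ)| ≤ |C'| ^ (m + 1) := fun j m => (hC' j m).trans (by
    rw [← abs_pow]
    exact le_abs_self _)
  obtain ⟨B, -, hLI, a, M, ha, hM⟩ := max_li' (fun b : Fin d → Option (Fin r) => yw h b) ∅ (by simp)
  have key1 := abs_vv (υ₀ := Fin p) (υ₁ := Fin q) conn hI hI2 hC hh hnr Ω T0 hT1 none k D d hLI ha hM
  have key2 := abs_vv (υ₀ := Fin p) (υ₁ := Option (Fin q)) conn hI hI2 hC hh hnr Ω T0 hT1 (some none) k D d hLI ha hM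
  obtain ⟨E1, hE1⟩ := key1
  obtain ⟨E2, hE2⟩ := key2
  refine ⟨E1 + E2 + (G + 1), fun H t ht w => ⟨?_, ?_⟩⟩
  · obtain ⟨S, hS, hmain⟩ := hE1 H t ((Nat.pow_le_pow_right (by omega) (by omega)).trans ht) w
    refine ⟨S, ?_, ?_⟩
    · have h1 : (S.card : Cardinal) ≤ ((T0.card + q : ℕ) : Cardinal) := by
        rw [Fintype.card_fin] at hS
        exact_mod_cast hS
      refine h1.trans ?_
      rw [Nat.cast_add]
      exact add_le_add hT0 le_rfl
    · intro u hu huS K hK1 hK2 P hP hP0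
      set P' := MvPolynomial.rename (Sum.map id fun a : Fin k × Fin r => (a.1, some a.2)) P with hP'
      have hpoly : MvPolynomial.aeval (Sum.elim (Sum.elim Ω w) (pnt h G t u ((none : Option (Fin q)).elim 0 w))) P' = 0 := by
        rw [hP', MvPolynomial.aeval_rename, ← hP0]
        congr 2
        funext a
        rcases a with a | a <;> rfl
      obtain ⟨h1, h2⟩ := hmain u hu huS K hK1 hK2 P' ((MvPolynomial.totalDegree_rename_le _ _).trans hP) hpoly
      have h3 := univ_mem (B := fun _ => B) (a := fun _ => a) (M := fun _ => M) (fun i b => hM b) h1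
        (sbc (Sum.elim Ω w) P') (sbc_deg _ _ ((MvPolynomial.totalDegree_rename_le _ _).trans hP)) h2
      have h4 := relI_to (e := id) (MvPolynomial.aeval fun v : Σ _ : Fin k, Option (Fin r) =>
        v.2.elim 0 fun i => MvPolynomial.X (v.1, i)) (fun j i => by simp) h3
      have h5 : (MvPolynomial.aeval fun v : Σ _ : Fin k, Option (Fin r) =>
        v.2.elim (0 : MvPolynomial (Fin k × Fin r) ℂ) fun i => MvPolynomial.X (v.1, i)) (sbc (Sum.elim Ω w) P') =
          pc (Sum.elim Ω w) P := by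
        rw [hP', ← sbc_map, MvPolynomial.map_rename]
        unfold sbc pc
        rw [← MvPolynomial.aeval_map_algebraMap ℂ _ P, MvPolynomial.aeval_rename, ← AlgHom.comp_apply]
        congr 1
        refine MvPolynomial.algHom_ext fun i => ?_
        rcases i with i | ⟨j, i⟩
        · simp
        · simp
      rw [h5] at h4
      exact h4
  · obtain ⟨S, hS, hmain⟩ := hE2 H t ((Nat.pow_le_pow_right (by omega) (by omega)).trans ht)
      (fun o => o.elim ((Real.log t : ℝ) : ℂ) w)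
    refine ⟨S, ?_, ?_⟩
    · have h1 : (S.card : Cardinal) ≤ ((T0.card + (q + 1) : ℕ) : Cardinal) := by
        rw [Fintype.card_option, Fintype.card_fin] at hS
        exact_mod_cast hS
      refine h1.trans ?_
      rw [Nat.cast_add, Nat.cast_add, Nat.cast_one, ← add_assoc]
      exact add_le_add (add_le_add hT0 le_rfl) le_rfl
    · intro u hu huS K hK1 hK2 P hP hP0
      have hlog : ∀ j, ((Real.log t : ℝ) : ℂ) + vl G h t (u j) none = ((Real.log (t - G * u j : ℕ) : ℝ) : ℂ) := by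
        intro j
        have h1 : (H + 2) ^ (G + 1) ≤ t := (Nat.pow_le_pow_right (by omega) (by omega)).trans ht
        have h2 : G + 1 ≤ 2 ^ G := Nat.lt_two_pow_self
        have h3 : 2 ^ G ≤ (H + 2) ^ G := Nat.pow_le_pow_left (by omega) _
        have h4 : (G + 1) * (H + 2) ≤ t := by
          refine le_trans ?_ h1
          rw [pow_succ]
          exact Nat.mul_le_mul_right _ (h2.trans h3)
        have h5 : G * u j ≤ G * H := Nat.mul_le_mul_left _ (huS j).2.1
        have h6 : G * u j < t := by nlinarith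
        have h7 : (0 : ℝ) < t := by
          have : 0 < t := by omega
          exact_mod_cast this
        have h8 : ((G * u j : ℕ) : ℝ) < t := by exact_mod_cast h6
        show ((Real.log t : ℝ) : ℂ) + ((Real.log (1 - ((G * u j : ℕ) : ℝ) / t) : ℝ) : ℂ) = _
        rw [← Complex.ofReal_add, ← Real.log_mul h7.ne' (by
          rw [sub_ne_zero]
          intro h9
          rw [eq_comm, div_eq_one_iff_eq h7.ne'] at h9
          linarith)]
        congr 2
        rw [Nat.cast_sub h6.le]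
        field_simp
      let ι : (Fin p ⊕ Fin q) → Fin p ⊕ Option (Fin q) := Sum.map id some
      set P' := MvPolynomial.rename (Sum.map ι (id : Fin k × Option (Fin r) → Fin k × Option (Fin r))) P with hP'
      have hpoly : MvPolynomial.aeval (Sum.elim (Sum.elim Ω fun o : Option (Fin q) => o.elim ((Real.log t : ℝ) : ℂ) w)
          (pnt h G t u ((some none : Option (Option (Fin q))).elim 0 fun o => o.elim ((Real.log t : ℝ) : ℂ) w))) P' = 0 := by
        rw [hP', MvPolynomial.aeval_rename, ← hP0]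
        congr 2
        funext a
        rcases a with (a | a) | ⟨j, _ | i⟩
        · rfl
        · rfl
        · exact hlog j
        · rfl
      obtain ⟨h1, h2⟩ := hmain u hu huS K hK1 hK2 P' ((MvPolynomial.totalDegree_rename_le _ _).trans hP) hpoly
      have h3 := univ_mem (B := fun _ => B) (a := fun _ => a) (M := fun _ => M) (fun i b => hM b) h1
        (sbc (Sum.elim Ω fun o : Option (Fin q) => o.elim ((Real.log t : ℝ) : ℂ) w) P')
        (sbc_deg _ _ ((MvPolynomial.totalDegree_rename_le _ _).trans hP)) h2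
      have h4 := relI_to (e := fun a : Fin k × Fin r => (a.1, some a.2)) (MvPolynomial.aeval
        fun v : Σ _ : Fin k, Option (Fin r) => MvPolynomial.X (v.1, v.2)) (fun j i => by simp) h3
      have h5 : (MvPolynomial.aeval fun v : Σ _ : Fin k, Option (Fin r) =>
        (MvPolynomial.X (v.1, v.2) : MvPolynomial (Fin k × Option (Fin r)) ℂ))
          (sbc (Sum.elim Ω fun o : Option (Fin q) => o.elim ((Real.log t : ℝ) : ℂ) w) P') =
          pc (Sum.elim Ω w) P := by
        rw [hP', ← sbc_map, MvPolynomial.map_rename]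
        unfold sbc pc
        rw [← MvPolynomial.aeval_map_algebraMap ℂ _ P, MvPolynomial.aeval_rename, ← AlgHom.comp_apply]
        congr 1
        refine MvPolynomial.algHom_ext fun i => ?_
        rcases i with (i | i) | ⟨j, i⟩
        · simp [ι]
        · simp [ι]
        · simp
      rw [h5] at h4
      exact h4

end Pool.Agent.Y118.UL
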