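import Pool.Agent.Y118.UL.Irr

/-!
# The abstract windows theorem
-/

set_option autoImplicit false
set_option maxHeartbeats 400000

open Filter AlgebraicIndependent

namespace Pool.Agent.Y118.UL

/-- small rational parameters -/
def Small (xx : ℕ → ℕ → ℚ) : Prop := ∀ c : Polynomial ℚ, c ≠ 0 → ∃ E : ℕ, ∀ H t : ℕ, (H + 2) ^ E ≤ t →
  ∀ g, 1 ≤ g → g ≤ H → c.eval (xx t g) ≠ 0

/-- constants -/
noncomputable def cst : ℂ →+* U ℂ := (mk ℂ).comp (Pi.constRingHom ℕ ℂ)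

lemma cst_eq (c : ℂ) : cst c = mk ℂ (fun _ => c) := rfl

/-- algebraic relations between constants -/
lemma alg_cst {s : Set ℂ} {c : ℂ} (h : IsAlgebraic (Algebra.adjoin ℚ s) c) :
    IsAlgebraic (Algebra.adjoin (U ℚ) (cst '' s)) (cst c) := by
  have hsub : ∀ x ∈ Algebra.adjoin ℚ s, cst x ∈ Algebra.adjoin (U ℚ) (cst '' s) := by
    intro x hx
    refine Algebra.adjoin_induction (p := fun x _ => cst x ∈ Algebra.adjoin (U ℚ) (cst '' s)) ?_ ?_ ?_ ?_ hx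
    · intro y hy
      exact Algebra.subset_adjoin ⟨y, hy, rfl⟩
    · intro r
      have h1 : cst (algebraMap ℚ ℂ r) = algebraMap (U ℚ) (U ℂ) (mk ℚ fun _ => r) := rfl
      rw [h1]
      exact Subalgebra.algebraMap_mem _ _
    · intro x y _ _ hx hy
      rw [map_add]
      exact Subalgebra.add_mem _ hx hy
    · intro x y _ _ hx hy
      rw [map_mul]
      exact Subalgebra.mul_mem _ hx hy
  let φ : Algebra.adjoin ℚ s →+* Algebra.adjoin (U ℚ) (cst '' s) :=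
    (cst.comp (Algebra.adjoin ℚ s).val.toRingHom).codRestrict (Algebra.adjoin (U ℚ) (cst '' s)) fun x => hsub x.1 x.2
  have hφ : Function.Injective φ := by
    rw [injective_iff_map_eq_zero]
    intro x hx
    have h1 : cst (x : ℂ) = 0 := congrArg Subtype.val hx
    have h2 := (map_eq_zero cst).1 h1
    exact Subtype.ext h2
  obtain ⟨p, hp0, hp⟩ := h
  refine ⟨p.map φ, (Polynomial.map_ne_zero_iff hφ).2 hp0, ?_⟩
  rw [Polynomial.aeval_def, Polynomial.eval₂_map]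
  have h1 : (algebraMap (Algebra.adjoin (U ℚ) (cst '' s)) (U ℂ)).comp φ =
      cst.comp (algebraMap (Algebra.adjoin ℚ s) ℂ) := rfl
  rw [h1, ← Polynomial.hom_eval₂]
  rw [Polynomial.aeval_def] at hp
  rw [hp, map_zero]

/-- the rank of the constants -/
lemma rk_const {υ₀ υ₁ : Type} [Fintype υ₁] (w₀ : υ₀ → ℂ) (T : Finset υ₀)
    (hT : ∀ j, IsAlgebraic (Algebra.adjoin ℚ (w₀ '' (T : Set υ₀))) (w₀ j)) (w₁ : ℕ → υ₁ → ℂ) :
    MM.eRk (Set.range (fun j : υ₀ ⊕ υ₁ => mk ℂ fun n => (Sum.elim w₀ (w₁ n) j : ℂ))) ≤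
      ((T.card + Fintype.card υ₁ : ℕ) : ℕ∞) := by
  classical
  set X : Set (U ℂ) := cst '' (w₀ '' (T : Set υ₀)) ∪ Set.range (fun j : υ₁ => mk ℂ fun n => w₁ n j) with hX
  have hE : MM.E = Set.univ := matroid_e _ _
  have hsub : Set.range (fun j : υ₀ ⊕ υ₁ => mk ℂ fun n => (Sum.elim w₀ (w₁ n) j : ℂ)) ⊆ MM.closure X := by
    rintro _ ⟨j | j, rfl⟩
    · refine MM.closure_subset_closure (X := cst '' (w₀ '' (T : Set υ₀))) Set.subset_union_left ?_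
      rw [mem_cl]
      exact alg_cst (hT j)
    · exact MM.subset_closure X (by rw [hE]; exact Set.subset_univ _) (Or.inr ⟨j, rfl⟩)
  refine (MM.eRk_mono hsub).trans ?_
  rw [MM.eRk_closure_eq]
  refine (MM.eRk_le_encard X).trans ((Set.encard_union_le _ _).trans ?_)
  have h1 : (cst '' (w₀ '' (T : Set υ₀))).encard ≤ (T.card : ℕ∞) := by
    refine (Set.encard_image_le _ _).trans ((Set.encard_image_le _ _).trans ?_)
    rw [Set.encard_coe_eq_coe_finsetCard]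
  have h2 : (Set.range (fun j : υ₁ => mk ℂ fun n => w₁ n j)).encard ≤ (Fintype.card υ₁ : ℕ∞) := by
    rw [← Set.image_univ]
    refine (Set.encard_image_le _ _).trans ?_
    rw [Set.encard_univ, ENat.card_eq_coe_fintype_card]
  exact (add_le_add h1 h2).trans (by push_cast; exact le_rfl)

theorem absWin {σ ε υ₀ υ₁ : Type} [Fintype σ] [Fintype ε] [Fintype υ₀] [Fintype υ₁] (val : ℕ → ℕ → σ → ℂ) (e : ε → σ)
    (xx : ℕ → ℕ → ℚ) (R : σ → Polynomial (MvPolynomial ε (Polynomial ℚ))) (hR : ∀ s, R s ≠ 0)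
    (hval : NoRel (fun t g i => val t g (e i))) (hxx : Small xx) (w₀ : υ₀ → ℂ) (T : Finset υ₀)
    (hT : ∀ j, IsAlgebraic (Algebra.adjoin ℚ (w₀ '' (T : Set υ₀))) (w₀ j)) (k D d : ℕ) :
    ∃ E : ℕ, ∀ H t : ℕ, (H + 2) ^ E ≤ t → ∀ w₁ : υ₁ → ℂ, ∃ S : Finset ℕ, S.card ≤ T.card + Fintype.card υ₁ ∧
      ∀ g : Fin k → ℕ, Function.Injective g → (∀ i, 1 ≤ g i ∧ g i ≤ H ∧ g i ∉ S) →
      ∀ Y : Set (Fin k × σ → ℂ), Irr Y → (fun a : Fin k × σ => val t (g a.1) a.2) ∈ Y →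
      (∀ y ∈ Y, ∀ j s, Polynomial.eval₂ (sp e (xx t (g j)) fun s => y (j, s)) (y (j, s)) (R s) = 0) →
      ∀ K : IntermediateField ℚ ℂ, FiniteDimensional ℚ K → Module.finrank ℚ K ≤ D →
      ∀ P : MvPolynomial ((υ₀ ⊕ υ₁) ⊕ Fin k × σ) K, P.totalDegree ≤ d →
      MvPolynomial.aeval (Sum.elim (Sum.elim w₀ w₁) fun a : Fin k × σ => val t (g a.1) a.2) P = 0 →
      ∀ y ∈ Y, MvPolynomial.aeval (Sum.elim (Sum.elim w₀ w₁) y) P = 0 := by
  classical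
  by_contra hcon
  push Not at hcon
  choose H t hHt w₁ hbad using hcon
  refine core hval hHt k (Set.range (fun j : υ₀ ⊕ υ₁ => mk ℂ fun n => (Sum.elim w₀ (w₁ n) j : ℂ)))
    (T.card + Fintype.card υ₁) (rk_const w₀ T hT w₁)
    (fun n g => ∃ Y : Set (Fin k × σ → ℂ), Irr Y ∧ (fun a : Fin k × σ => val (t n) (g a.1) a.2) ∈ Y ∧
      (∀ y ∈ Y, ∀ j s, Polynomial.eval₂ (sp e (xx (t n) (g j)) fun s => y (j, s)) (y (j, s)) (R s) = 0) ∧
      ∃ K : IntermediateField ℚ ℂ, FiniteDimensional ℚ K ∧ Module.finrank ℚ K ≤ D ∧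
      ∃ P : MvPolynomial ((υ₀ ⊕ υ₁) ⊕ Fin k × σ) K, P.totalDegree ≤ d ∧
      MvPolynomial.aeval (Sum.elim (Sum.elim w₀ (w₁ n)) fun a : Fin k × σ => val (t n) (g a.1) a.2) P = 0 ∧
      ∃ y ∈ Y, MvPolynomial.aeval (Sum.elim (Sum.elim w₀ (w₁ n)) y) P ≠ 0) ?_ ?_
  · intro n S hS
    obtain ⟨g, h1, h2, Y, h3, h4, h5, K, h6, h7, P, h8, h9, y, h10, h11⟩ := hbad n S hS
    exact ⟨g, h1, h2, Y, h3, h4, h5, K, h6, h7, P, h8, h9, y, h10, h11⟩
  · intro g hg1 hg2 hB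
    choose Y h3 h4 h5 K h6 h7 P h8 h9 y h10 h11 using hB
    refine dep_irr val e xx R hR g t ?_ (fun n => Sum.elim w₀ (w₁ n)) Y h3 h4 h5 K h6 h7 P h8 h9 y h10 h11
    intro c hc j
    obtain ⟨E, hE⟩ := hxx c hc
    filter_upwards [ev_ge E] with n hn
    exact hE (H n) (t n) ((Nat.pow_le_pow_right (by omega) hn).trans (hHt n)) _ (hg2 n j).1 (hg2 n j).2

end Pool.Agent.Y118.UL
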