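import Pool.Agent.Y118.UL.Ger

/-!
# The core of the windows theorem: the greedy choice in the ultrapower
-/

set_option autoImplicit false
set_option maxHeartbeats 400000

open Filter

namespace Pool.Agent.Y118.UL

/-- no relations of bounded degree over `ℚ` between the values for several shifts -/
def NoRel {ε : Type} (val : ℕ → ℕ → ε → ℂ) : Prop := ∀ N δ : ℕ, ∃ E : ℕ, ∀ H t : ℕ, (H + 2) ^ E ≤ t →
  ∀ g : Fin N → ℕ, Function.Injective g → (∀ i, 1 ≤ g i ∧ g i ≤ H) →
  ∀ P : MvPolynomial (Fin N × ε) ℚ, P.totalDegree ≤ δ →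
  MvPolynomial.aeval (fun p => val t (g p.1) p.2) P = 0 → P = 0

lemma aeval_mk {ι : Type} (P : MvPolynomial ι (ℕ → ℚ)) (y : ι → ℕ → ℂ) :
    MvPolynomial.aeval (fun i => mk ℂ (y i)) (MvPolynomial.map (mk ℚ) P) =
      mk ℂ (fun n => MvPolynomial.aeval (fun i => y i n) (MvPolynomial.map (Pi.evalRingHom (fun _ => ℚ) n) P)) := by
  induction P using MvPolynomial.induction_on with
  | C a =>
    rw [MvPolynomial.map_C, MvPolynomial.aeval_C, algebraMap_eq, qc_mk]
    congr 1
    funext n
    rw [MvPolynomial.map_C, MvPolynomial.aeval_C]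
    rfl
  | add p q hp hq =>
    rw [map_add, map_add, hp, hq, ← map_add]
    congr 1
    funext n
    rw [Pi.add_apply, map_add, map_add]
  | mul_X p i hp =>
    rw [map_mul, map_mul, hp, MvPolynomial.map_X, MvPolynomial.aeval_X, ← map_mul]
    congr 1
    funext n
    rw [Pi.mul_apply, map_mul, map_mul, MvPolynomial.map_X, MvPolynomial.aeval_X]

/-- germs of shifts -/
abbrev NG : Type := Germ (hyperfilter ℕ : Filter ℕ) ℕ

/-- a representative -/
noncomputable def rp (g : NG) : ℕ → ℕ := Quotient.out g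

lemma rp_spec (g : NG) : ((rp g : ℕ → ℕ) : NG) = g := Quotient.out_eq g

lemma rp_coe (f : ℕ → ℕ) : ∀ᶠ n in (hyperfilter ℕ : Filter ℕ), rp (f : NG) n = f n := Germ.coe_eq.1 (rp_spec _)

lemma tdm {ι R S : Type} [CommSemiring R] [CommSemiring S] (f : R →+* S) (P : MvPolynomial ι R) :
    (MvPolynomial.map f P).totalDegree ≤ P.totalDegree := by
  unfold MvPolynomial.totalDegree
  exact Finset.sup_mono (MvPolynomial.support_map_subset _ _)

section
variable {ε : Type} (val : ℕ → ℕ → ε → ℂ) (t : ℕ → ℕ)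

/-- the germ of the values -/
noncomputable def zz (b : NG × ε) : U ℂ := mk ℂ (fun n => val (t n) (rp b.1 n) b.2)

lemma zz_coe (f : ℕ → ℕ) (i : ε) : zz val t ((f : NG), i) = mk ℂ (fun n => val (t n) (f n) i) := by
  unfold zz
  rw [mk_eq]
  filter_upwards [rp_coe f] with n hn
  rw [hn]

/-- admissible shifts -/
def Adm (H : ℕ → ℕ) (g : NG) : Prop := ∀ᶠ n in (hyperfilter ℕ : Filter ℕ), 1 ≤ rp g n ∧ rp g n ≤ H n

variable {val t} {H : ℕ → ℕ}

theorem aind (hval : NoRel val) (hHt : ∀ n, (H n + 2) ^ n ≤ t n) (Φ : Finset NG) (hΦ : ∀ g ∈ Φ, Adm H g) :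
    AlgebraicIndependent (U ℚ) (fun p : Φ × ε => zz val t ((p.1 : NG), p.2)) := by
  classical
  rw [algebraicIndependent_iff]
  intro P hP
  obtain ⟨Q, rfl⟩ := rep P
  have h1 : (fun p : Φ × ε => zz val t ((p.1 : NG), p.2)) =
      fun p : Φ × ε => mk ℂ (fun n => val (t n) (rp (p.1 : NG) n) p.2) := rfl
  rw [h1, aeval_mk, mk_eq_zero] at hP
  set N := Φ.card with hN
  set en : Fin N ≃ Φ := Φ.equivFin.symm with hen
  obtain ⟨E, hE⟩ := hval N Q.totalDegree
  have hinj : ∀ᶠ n in (hyperfilter ℕ : Filter ℕ), ∀ p : Φ × Φ, p.1 ≠ p.2 → rp (p.1 : NG) n ≠ rp (p.2 : NG) n := by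
    rw [eventually_all]
    rintro ⟨g, g'⟩
    by_cases hgg : g = g'
    · exact Eventually.of_forall fun n h => absurd hgg h
    · have h2 : ¬ ∀ᶠ n in (hyperfilter ℕ : Filter ℕ), rp (g : NG) n = rp (g' : NG) n := by
        intro h3
        apply hgg
        apply Subtype.ext
        rw [← rp_spec (g : NG), ← rp_spec (g' : NG)]
        exact Germ.coe_eq.2 h3
      rw [← Ultrafilter.eventually_not] at h2
      filter_upwards [h2] with n hn _
      exact hn
  have hadm : ∀ᶠ n in (hyperfilter ℕ : Filter ℕ), ∀ g : Φ, 1 ≤ rp (g : NG) n ∧ rp (g : NG) n ≤ H n := by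
    rw [eventually_all]
    intro g
    exact hΦ g g.2
  have hQ : ∀ᶠ n in (hyperfilter ℕ : Filter ℕ), MvPolynomial.map (Pi.evalRingHom (fun _ => ℚ) n) Q = 0 := by
    filter_upwards [hP, hinj, hadm, ev_ge E] with n h2 h3 h4 h5
    have h6 : (H n + 2) ^ E ≤ t n := (Nat.pow_le_pow_right (by omega) h5).trans (hHt n)
    have h7 := hE (H n) (t n) h6 (fun i => rp (en i : NG) n) (by
      intro i j hij
      by_contra hne
      exact h3 (en i, en j) (fun h => hne (en.injective h)) hij) (fun i => h4 (en i))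
      (MvPolynomial.rename (Equiv.prodCongr en.symm (Equiv.refl ε)) (MvPolynomial.map (Pi.evalRingHom (fun _ => ℚ) n) Q))
      (by
        refine (MvPolynomial.totalDegree_rename_le _ _).trans ?_
        exact tdm _ _) (by
        rw [MvPolynomial.aeval_rename]
        refine Eq.trans ?_ h2
        congr 2
        funext p
        simp)
    exact MvPolynomial.rename_injective _ (Equiv.prodCongr en.symm (Equiv.refl ε)).injective (h7.trans (map_zero _).symm)
  ext m
  rw [MvPolynomial.coeff_map, MvPolynomial.coeff_zero, mk_eq_zero]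
  filter_upwards [hQ] with n hn
  have := congrArg (MvPolynomial.coeff m) hn
  rw [MvPolynomial.coeff_map, MvPolynomial.coeff_zero] at this
  exact this

end

section
variable {ε : Type} [Fintype ε] {val : ℕ → ℕ → ε → ℂ} {t H : ℕ → ℕ}

open AlgebraicIndependent Set

/-- **The greedy choice.** -/
theorem core (hval : NoRel val) (hHt : ∀ n, (H n + 2) ^ n ≤ t n) (k : ℕ) (W : Set (U ℂ)) (τ : ℕ)
    (hW : (matroid (U ℚ) (U ℂ)).eRk W ≤ τ) (Bad : ℕ → (Fin k → ℕ) → Prop)
    (hbad : ∀ n, ∀ S : Finset ℕ, S.card ≤ τ → ∃ g : Fin k → ℕ, Function.Injective g ∧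
      (∀ i, 1 ≤ g i ∧ g i ≤ H n ∧ g i ∉ S) ∧ Bad n g)
    (hdep : ∀ g : ℕ → Fin k → ℕ, (∀ n, Function.Injective (g n)) → (∀ n i, 1 ≤ g n i ∧ g n i ≤ H n) →
      (∀ n, Bad n (g n)) → ∃ a : Fin k × ε, mk ℂ (fun n => val (t n) (g n a.1) a.2) ∈
        (matroid (U ℚ) (U ℂ)).closure (W ∪ ((fun b : Fin k × ε => mk ℂ (fun n => val (t n) (g n b.1) b.2)) '' {a}ᶜ))) :
    False := by
  classical
  set M := matroid (U ℚ) (U ℂ) with hM
  have hE : M.E = Set.univ := matroid_e _ _
  have hsub : ∀ X : Set (U ℂ), X ⊆ M.closure X := fun X => M.subset_closure X (by rw [hE]; exact Set.subset_univ _)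
  set z : NG × ε → U ℂ := zz val t with hz
  have claim : ∀ q ≤ τ + 1, ∃ S B : Finset (NG × ε), S.card = q ∧ S ⊆ B ∧ (∀ b ∈ B, Adm H b.1) ∧
      ∀ Θ : Finset (NG × ε), B ⊆ Θ → ∀ b ∈ Θ, z b ∈ M.closure (W ∪ z '' ((Θ \ S : Finset (NG × ε)) : Set (NG × ε))) := by
    intro q
    induction q with
    | zero =>
      intro _
      refine ⟨∅, ∅, rfl, subset_rfl, by simp, fun Θ _ b hb => hsub _ (Or.inr ⟨b, ?_, rfl⟩)⟩
      simpa using hb
    | succ q ih =>
      intro hq
      obtain ⟨S, B, hS, hSB, hBa, hcl⟩ := ih (by omega)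
      -- the next tuple
      have hn : ∀ n, ∃ g : Fin k → ℕ, Function.Injective g ∧
          (∀ i, 1 ≤ g i ∧ g i ≤ H n ∧ g i ∉ S.image fun b => rp b.1 n) ∧ Bad n g := fun n =>
        hbad n _ (Finset.card_image_le.trans (by omega))
      choose g hg1 hg2 hg3 using hn
      obtain ⟨a, ha⟩ := hdep g hg1 (fun n i => ⟨(hg2 n i).1, (hg2 n i).2.1⟩) hg3
      set f : Fin k × ε → NG × ε := fun b => (((fun n => g n b.1 : ℕ → ℕ) : NG), b.2) with hf
      have hzf : ∀ b, z (f b) = mk ℂ (fun n => val (t n) (g n b.1) b.2) := fun b => zz_coe val t _ _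
      have hfinj : Function.Injective f := by
        rintro ⟨i, x⟩ ⟨i', x'⟩ h
        simp only [hf, Prod.mk.injEq] at h
        obtain ⟨h1, h2⟩ := h
        have h3 : ∀ᶠ n in (hyperfilter ℕ : Filter ℕ), g n i = g n i' := Germ.coe_eq.1 h1
        obtain ⟨n, h4⟩ := h3.exists
        rw [hg1 n h4, h2]
      have hfS : ∀ b, f b ∉ S := by
        intro b hb
        have h1 : ∀ᶠ n in (hyperfilter ℕ : Filter ℕ), rp (f b).1 n = g n b.1 := rp_coe _
        obtain ⟨n, h2⟩ := h1.exists
        refine (hg2 n b.1).2.2 ?_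
        rw [← h2]
        exact Finset.mem_image_of_mem _ hb
      refine ⟨insert (f a) S, (Finset.univ.image f) ∪ B, ?_, ?_, ?_, ?_⟩
      · rw [Finset.card_insert_of_notMem (hfS a), hS]
      · refine Finset.insert_subset (Finset.mem_union_left _ (Finset.mem_image_of_mem _ (Finset.mem_univ _))) ?_
        exact hSB.trans Finset.subset_union_right
      · intro b hb
        rcases Finset.mem_union.1 hb with hb | hb
        · obtain ⟨b', -, rfl⟩ := Finset.mem_image.1 hb
          unfold Adm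
          have h1 : ∀ᶠ n in (hyperfilter ℕ : Filter ℕ), rp (f b').1 n = g n b'.1 := rp_coe _
          filter_upwards [h1] with n h2
          rw [h2]
          exact ⟨(hg2 n b'.1).1, (hg2 n b'.1).2.1⟩
        · exact hBa b hb
      · intro Θ hΘ b hb
        have h1 := hcl Θ (Finset.subset_union_right.trans hΘ) b hb
        refine M.closure_subset_closure_of_subset_closure (X := W ∪ z '' ((Θ \ S : Finset (NG × ε)) : Set (NG × ε))) ?_ h1
        rintro x (hx | ⟨b', hb', rfl⟩)
        · exact hsub _ (Or.inl hx)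
        · rw [Finset.mem_coe, Finset.mem_sdiff] at hb'
          by_cases hba : b' = f a
          · rw [hba, hzf]
            refine M.closure_subset_closure ?_ ha
            rintro y (hy | ⟨c, hc, rfl⟩)
            · exact Or.inl hy
            · refine Or.inr ⟨f c, ?_, hzf c⟩
              rw [Finset.mem_coe, Finset.mem_sdiff, Finset.mem_insert]
              refine ⟨hΘ (Finset.mem_union_left _ (Finset.mem_image_of_mem _ (Finset.mem_univ _))), ?_⟩
              rintro (h2 | h2)
              · exact hc (hfinj h2)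
              · exact hfS c h2
          · refine hsub _ (Or.inr ⟨b', ?_, rfl⟩)
            rw [Finset.mem_coe, Finset.mem_sdiff, Finset.mem_insert]
            exact ⟨hb'.1, fun h2 => h2.elim hba hb'.2⟩
  obtain ⟨S, B, hS, hSB, hBa, hcl⟩ := claim (τ + 1) le_rfl
  have hcl := hcl B subset_rfl
  have hind := aind hval hHt (B.image Prod.fst) (fun g hg => by
    obtain ⟨b, hb, rfl⟩ := Finset.mem_image.1 hg
    exact hBa b hb)
  have hind2 : AlgebraicIndependent (U ℚ) (fun b : B => z b) := by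
    let φ : B → ↥(B.image Prod.fst) × ε := fun b => (⟨b.1.1, Finset.mem_image_of_mem _ b.2⟩, b.1.2)
    have hφ : Function.Injective φ := by
      intro b b' h
      simp only [φ, Prod.mk.injEq, Subtype.mk.injEq] at h
      exact Subtype.ext (Prod.ext h.1 h.2)
    exact hind.comp φ hφ
  have hinj : Set.InjOn z (B : Set (NG × ε)) := by
    intro b hb b' hb' h
    have := hind2.injective (a₁ := ⟨b, hb⟩) (a₂ := ⟨b', hb'⟩) h
    exact congrArg Subtype.val this
  have hIndep : M.Indep (z '' (B : Set (NG × ε))) := by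
    rw [hM, matroid_indep_iff]
    have h1 : (z '' (B : Set (NG × ε))) = Set.range (fun b : B => z b) := by
      ext x
      simp
    rw [h1]
    exact hind2.to_subtype_range
  have hsub2 : z '' (B : Set (NG × ε)) ⊆ M.closure (W ∪ z '' ((B \ S : Finset (NG × ε)) : Set (NG × ε))) := by
    rintro _ ⟨b, hb, rfl⟩
    exact hcl b hb
  have h1 := hIndep.encard_le_eRk_of_subset hsub2
  rw [M.eRk_closure_eq, hinj.encard_image, Set.encard_coe_eq_coe_finsetCard] at h1
  have h2 := h1.trans ((M.eRk_union_le_eRk_add_encard _ _).trans (add_le_add hW (Set.encard_image_le _ _)))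
  rw [Set.encard_coe_eq_coe_finsetCard] at h2
  have h3 : B.card ≤ τ + (B \ S).card := by exact_mod_cast h2
  have h4 := Finset.card_sdiff_add_card_eq_card hSB
  omega

end

end Pool.Agent.Y118.UL
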