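import Pool.Agent.Y118.UL.Liv

/-!
# One family: linear independence of the values of all words and of powers of the logarithm
-/

set_option autoImplicit false
set_option maxHeartbeats 400000

open PowerSeries Pool.Agent.Y113 Pool.Agent.Y120.GF Pool.Agent.Y120.GH

namespace Pool.Agent.Y118.UL

theorem fam {r : ℕ} {h : Fin r → ℚ⟦X⟧} {T : Polynomial ℤ} {A : Fin r → Fin r → Polynomial ℤ} (hT : T ≠ 0)
    (hode : ∀ i, ps T * d⁄dX ℚ (h i) = ∑ j, ps (A i j) * h j)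
    (hsize : ∃ C : ℝ, ∀ i m, |((coeff m (h i) : ℚ) : ℝ)| ≤ C ^ (m + 1))
    (hden : ∃ C : ℝ, ∀ m, ∃ d : ℕ, 0 < d ∧ (d : ℝ) ≤ C ^ (m + 1) ∧ ∀ i, ∀ j ≤ m, ∃ a : ℤ, (d : ℚ) * coeff j (h i) = a)
    (hgal : ∃ C : ℝ, ∀ m, ∃ d : ℕ, 0 < d ∧ (d : ℝ) ≤ C ^ (m + 1) ∧ ∀ s ≤ m, ∀ i j, ∃ H : Polynomial ℤ,
      (d : Polynomial ℤ) * itm T A s i j = (s.factorial : Polynomial ℤ) * H)
    (hqu : QU0 T A) :
    ∃ R : ℕ, ∀ (δ : ℕ) (B₀ : Finset (Fin δ → Option (Fin r))), (fun _ => none) ∈ B₀ →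
      (∀ g : (Fin δ → Option (Fin r)) → Polynomial ℚ, ∑ i ∈ B₀, (g i : ℚ⟦X⟧) * yw h i = 0 → ∀ i ∈ B₀, g i = 0) →
      ∃ B : Finset (Fin δ → Option (Fin r)), B₀ ⊆ B ∧
        (∃ C : ℝ, 1 ≤ C ∧ ∀ (b : Fin δ → Option (Fin r)) m, |((coeff m (yw h b : ℚ⟦X⟧) : ℚ) : ℝ)| ≤ C ^ (m + 1)) ∧ ∀ N : ℕ, ∃ E : ℕ, ∀ H t : ℕ, (H + 2) ^ E ≤ t →
        ∀ g : Fin N → ℕ, SepR R g → (∀ l, g l ≤ H) → LinearIndependent ℚ (fun b : Fin N → B × Fin (δ + 1) =>
          ∏ l, ev (t : ℝ) (Fg (δ + 1) (fun β : B => yw h β.1) (g l) (b l))) := by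
  classical
  obtain ⟨q, C, hG⟩ := gsys_of hode hsize hden hgal
  obtain ⟨Ch, hCh⟩ := hsize
  obtain ⟨e, he, M₀, K, Φ, hΦc, hΦe, hΦd⟩ := hqu
  -- the radii
  set τ : ℝ := |K| + |Ch| + 1 with hτd
  have hτ1 : 1 ≤ τ := by
    have := abs_nonneg K
    have := abs_nonneg Ch
    linarith
  have hτ0 : 0 < τ := by linarith
  have hτe : τ ≤ τ ^ e := le_self_pow₀ hτ1 he
  set τ' : ℝ := τ + 1 with hτ'd
  have hρρ : τ ^ e < τ' ^ e := pow_lt_pow_left₀ (by linarith) hτ0.le he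
  obtain ⟨R, hR⟩ := exists_nat_gt (τ ^ e + τ' ^ e)
  refine ⟨R, fun δ B₀ hb₀ h0 => ?_⟩
  obtain ⟨C', hG'⟩ := gsys_tens (gsys_opt hG) δ
  have hyw : (fun b : Fin δ → Option (Fin r) => ∏ j, (fun o : Option (Fin r) => o.elim 1 h) (b j)) = fun b => yw h b := rfl
  rw [hyw] at hG'
  have hone : yw h (fun _ : Fin δ => none) = 1 := by
    unfold yw
    exact Finset.prod_eq_one fun j _ => rfl
  obtain ⟨B, hBB, hLI, a, M, ha, hM⟩ := max_li' (fun b : Fin δ → Option (Fin r) => yw h b) B₀ h0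
  refine ⟨B, hBB, ⟨C', hG'.one_le, hG'.size⟩, fun N => ?_⟩
  obtain ⟨q', C'', hG''⟩ := gsys_sub hG' (fun β : B => yw h β.1) (fun β => β.1) (fun β => rfl) a M hM
  have hmem1 : ∀ i, cx (h i) ∈ Cw (τ ^ e) := fun i =>
    Cw_mono (by
      have := abs_nonneg K
      linarith) (cx_mem (abs_nonneg Ch) fun m => (hCh i m).trans (by
        rw [← abs_pow]
        exact le_abs_self _))
  have hmem : ∀ b : Fin δ → Option (Fin r), cx (yw h b : ℚ⟦X⟧) ∈ Cw (τ ^ e) := by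
    intro b
    unfold yw
    rw [map_prod]
    refine Subring.prod_mem _ fun j _ => ?_
    rcases b j with _ | i
    · show cx 1 ∈ _
      rw [map_one]
      exact Subring.one_mem _
    · exact hmem1 i
  set Tc : Polynomial ℂ := T.map (Int.castRingHom ℂ) with hTc
  set Ac : Fin r → Fin r → Polynomial ℂ := fun i j => (A i j).map (Int.castRingHom ℂ) with hAc
  have hTc0 : Tc ≠ 0 := (Polynomial.map_ne_zero_iff (Int.castRingHom ℂ).injective_int).2 hT
  have hQU : QU he τ Tc (AT (δ := δ) (A1 Ac)) := by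
    refine qu_tens he δ (qu_one he ⟨M₀, Φ, fun i j k => mem_Cw_of_bound ?_ (hΦc i j k), hΦe, hΦd⟩)
    have := abs_nonneg Ch
    linarith
  -- the differential equation of the products
  have hodeC : ∀ i, (Tc : PowerSeries ℂ) * PowerSeries.derivative ℂ (cx (h i)) = ∑ j, (Ac i j : PowerSeries ℂ) * cx (h j) := by
    intro i
    have h1 := congrArg cx (hode i)
    rw [map_mul, map_sum, cx_der, cx_ps] at h1
    rw [h1]
    refine Finset.sum_congr rfl fun j _ => ?_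
    rw [map_mul, cx_ps]
  have hodeT : ∀ b : Fin δ → Option (Fin r), (Tc : PowerSeries ℂ) * PowerSeries.derivative ℂ (cx (yw h b)) =
      ∑ b', ((AT (δ := δ) (A1 Ac) b b' : Polynomial ℂ) : PowerSeries ℂ) * cx (yw h b') := by
    intro b
    have h1 := tens_der (δ := δ) (fun f : PowerSeries ℂ => PowerSeries.derivative ℂ f) (Derivation.map_one_eq_zero _)
      (fun f g => by
        rw [Derivation.leibniz]
        rfl) (Tc : PowerSeries ℂ) 0
      (fun i l : Option (Fin r) => ((A1 Ac i l : Polynomial ℂ) : PowerSeries ℂ))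
      (fun _ o => cx (o.elim 1 h)) (fun j o => by
        rw [zero_mul, zero_add, Fintype.sum_option]
        rcases o with _ | i
        · show _ * PowerSeries.derivative ℂ (cx 1) = ((0 : Polynomial ℂ) : PowerSeries ℂ) * _ +
            ∑ j, ((0 : Polynomial ℂ) : PowerSeries ℂ) * _
          rw [map_one, Derivation.map_one_eq_zero]
          simp
        · show _ = ((0 : Polynomial ℂ) : PowerSeries ℂ) * _ + ∑ j, (Ac i j : PowerSeries ℂ) * cx (h j)
          rw [← hodeC i]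
          simp) b
    have h2 : ∀ b : Fin δ → Option (Fin r), cx (yw h b) = ∏ j, cx ((b j).elim 1 h) := fun b => map_prod _ _ _
    rw [h2 b]
    refine h1.trans ?_
    rw [mul_zero, zero_mul, zero_add]
    refine Finset.sum_congr rfl fun b' _ => ?_
    rw [h2 b']
    congr 1
    let f : Polynomial ℂ →+ PowerSeries ℂ := (Polynomial.coeToPowerSeries.ringHom (R := ℂ)).toAddMonoidHom
    exact (AT_map f (A1 Ac) b b').symm
  have hdisc : Disc (τ ^ e) (τ' ^ e) fun b : (B : Set (Fin δ → Option (Fin r))) => cx (yw h b.1) :=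
    disc_of_qu he hτ0 (by linarith) (fun b => cx (yw h b)) hmem Tc hTc0 _ hodeT hQU
      (B : Set (Fin δ → Option (Fin r))) (by
      intro G hG
      refine li_cx (κ := (B : Set (Fin δ → Option (Fin r)))) ?_ G hG
      exact hLI)
  obtain ⟨q₀, E₀, hsys⟩ := gsys_Fg hG'' δ
  obtain ⟨c, hc⟩ := Tg_ne (mul_ne_zero ha hT) hG''.degT
  obtain ⟨E, hE⟩ := gsys_shift hG''
  obtain ⟨E₁, hE₁⟩ := liR (F := Fg (δ + 1) (fun β : B => yw h β.1)) (Tg := Pool.Agent.Y120.GH.Tg q' (a * T)) (c := c)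
    (b₀ := ((⟨fun _ => none, hBB hb₀⟩ : B), (0 : Fin (δ + 1)))) (by
      intro g
      show sf g (yw h fun _ : Fin δ => none) * yQ g ((0 : Fin (δ + 1)) : ℕ) = 1
      rw [hone]
      have h1 : sf g 1 = 1 := by
        have := sf_nat g 1
        simpa using this
      rw [h1, one_mul]
      exact yQ_nil g) hsys hc N
  refine ⟨E₁, fun H t hHt g hg hgH => hE₁ H t hHt g hgH ?_⟩
  refine li_shift (ρ := τ ^ e) (ρ' := τ' ^ e) (C := C'') (y := fun β : B => yw h β.1) (by positivity) hρρ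
    (by have := hG''.one_le; linarith) (fun β => hmem _) hdisc hG''.size (fun g => ⟨((g : ℝ) + 2) ^ E, by positivity,
      (hE g).size⟩) hR (δ + 1) N g (fun l => by exact_mod_cast hg.1 l) fun l l' hl => ?_
  rcases hg.2 l l' hl with h1 | h1
  · have h2 : (g l : ℝ) + R ≤ g l' := by exact_mod_cast h1
    rw [abs_sub_comm]
    exact le_trans (by linarith) (le_abs_self _)
  · have h2 : (g l' : ℝ) + R ≤ g l := by exact_mod_cast h1
    exact le_trans (by linarith) (le_abs_self _)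

end Pool.Agent.Y118.UL
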