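import Mathlib

/-!
# Ultrapowers of `ℚ` and `ℂ` over the natural numbers
-/

set_option autoImplicit false
set_option maxHeartbeats 400000

open Filter

namespace Pool.Agent.Y118.UL

/-- the ultrapower -/
def U (k : Type) : Type := Germ (hyperfilter ℕ : Filter ℕ) k

noncomputable instance (k : Type) [Field k] : Field (U k) :=
  inferInstanceAs (Field (Germ (hyperfilter ℕ : Filter ℕ) k))

/-- the germ of a sequence -/
noncomputable def mk (k : Type) [Field k] : (ℕ → k) →+* U k :=
  (Germ.coeRingHom (hyperfilter ℕ : Filter ℕ) : (ℕ → k) →+* Germ (hyperfilter ℕ : Filter ℕ) k)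

variable {k : Type} [Field k]

lemma mk_surj : Function.Surjective (mk k) := fun x => Quotient.exists_rep x

lemma mk_eq {f g : ℕ → k} : mk k f = mk k g ↔ ∀ᶠ n in (hyperfilter ℕ : Filter ℕ), f n = g n := Germ.coe_eq

lemma mk_eq_zero {f : ℕ → k} : mk k f = 0 ↔ ∀ᶠ n in (hyperfilter ℕ : Filter ℕ), f n = 0 := by
  rw [← map_zero (mk k), mk_eq]
  rfl

lemma mk_ne_zero {f : ℕ → k} : mk k f ≠ 0 ↔ ∀ᶠ n in (hyperfilter ℕ : Filter ℕ), f n ≠ 0 := by
  rw [Ne, mk_eq_zero, Ultrafilter.eventually_not]

lemma ev_ge (N : ℕ) : ∀ᶠ n in (hyperfilter ℕ : Filter ℕ), N ≤ n := by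
  refine (hyperfilter_le_cofinite (α := ℕ)) ?_
  rw [Nat.cofinite_eq_atTop]
  exact Filter.eventually_ge_atTop N

instance [CharZero k] : CharZero (U k) := ⟨fun m n h => by
  have h1 : mk k ((m : ℕ) : ℕ → k) = mk k ((n : ℕ) : ℕ → k) := by
    rw [map_natCast, map_natCast]
    exact h
  rw [mk_eq] at h1
  obtain ⟨i, hi⟩ := h1.exists
  have h2 : ((m : ℕ) : k) = ((n : ℕ) : k) := hi
  exact_mod_cast h2⟩

/-- the embedding of the ultrapower of `ℚ` -/
noncomputable def qc : U ℚ →+* U ℂ where
  toFun := Germ.map (fun q : ℚ => (q : ℂ))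
  map_one' := by
    show mk ℂ (fun n => (((1 : ℕ → ℚ) n : ℚ) : ℂ)) = 1
    rw [← map_one (mk ℂ)]
    congr 1
    funext n
    simp
  map_zero' := by
    show mk ℂ (fun n => (((0 : ℕ → ℚ) n : ℚ) : ℂ)) = 0
    rw [← map_zero (mk ℂ)]
    congr 1
    funext n
    simp
  map_mul' := fun x y => by
    obtain ⟨f, rfl⟩ := mk_surj x
    obtain ⟨g, rfl⟩ := mk_surj y
    rw [← map_mul]
    show mk ℂ (fun n => (((f * g) n : ℚ) : ℂ)) = mk ℂ (fun n => (f n : ℂ)) * mk ℂ (fun n => (g n : ℂ))
    rw [← map_mul]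
    congr 1
    funext n
    simp
  map_add' := fun x y => by
    obtain ⟨f, rfl⟩ := mk_surj x
    obtain ⟨g, rfl⟩ := mk_surj y
    rw [← map_add]
    show mk ℂ (fun n => (((f + g) n : ℚ) : ℂ)) = mk ℂ (fun n => (f n : ℂ)) + mk ℂ (fun n => (g n : ℂ))
    rw [← map_add]
    congr 1
    funext n
    simp

lemma qc_mk (f : ℕ → ℚ) : qc (mk ℚ f) = mk ℂ (fun n => (f n : ℂ)) := rfl

noncomputable instance : Algebra (U ℚ) (U ℂ) := qc.toAlgebra

lemma algebraMap_eq (x : U ℚ) : algebraMap (U ℚ) (U ℂ) x = qc x := rfl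

instance : FaithfulSMul (U ℚ) (U ℂ) :=
  (faithfulSMul_iff_algebraMap_injective _ _).2 (algebraMap (U ℚ) (U ℂ)).injective

/-- evaluation of the polynomials with coefficients in the ultrapower -/
lemma eval_mk {ι : Type} (P : MvPolynomial ι (ℕ → k)) (y : ι → ℕ → k) :
    MvPolynomial.eval (fun i => mk k (y i)) (MvPolynomial.map (mk k) P) =
      mk k (fun n => MvPolynomial.eval (fun i => y i n) (MvPolynomial.map (Pi.evalRingHom (fun _ => k) n) P)) := by
  induction P using MvPolynomial.induction_on with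
  | C a =>
    rw [MvPolynomial.map_C, MvPolynomial.eval_C]
    congr 1
    funext n
    rw [MvPolynomial.map_C, MvPolynomial.eval_C]
    rfl
  | add p q hp hq =>
    rw [map_add, map_add, hp, hq, ← map_add]
    congr 1
    funext n
    rw [Pi.add_apply, map_add, map_add]
  | mul_X p i hp =>
    rw [map_mul, map_mul, hp, MvPolynomial.map_X, MvPolynomial.eval_X, ← map_mul]
    congr 1
    funext n
    rw [Pi.mul_apply, map_mul, map_mul, MvPolynomial.map_X, MvPolynomial.eval_X]

/-- every polynomial over the ultrapower comes from a sequence of polynomials -/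
lemma rep {ι : Type} (P : MvPolynomial ι (U k)) : ∃ Q : MvPolynomial ι (ℕ → k), MvPolynomial.map (mk k) Q = P :=
  MvPolynomial.map_surjective _ mk_surj P

/-- sequences of polynomials of bounded degree -/
lemma of_seq {ι : Type} [Fintype ι] (d : ℕ) (P : ℕ → MvPolynomial ι k) (hP : ∀ n, (P n).totalDegree ≤ d) :
    ∃ Q : MvPolynomial ι (ℕ → k), ∀ n, MvPolynomial.map (Pi.evalRingHom (fun _ => k) n) Q = P n := by
  classical
  have hfin : {m : ι →₀ ℕ | (m.sum fun _ e => e) ≤ d}.Finite := by
    refine Set.Finite.subset (Set.finite_Iic (Finsupp.equivFunOnFinite.symm fun _ => d)) ?_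
    intro m hm i
    have h1 : m i ≤ m.sum fun _ e => e := by
      by_cases hi : i ∈ m.support
      · exact Finset.single_le_sum (f := fun i => m i) (fun _ _ => Nat.zero_le _) hi
      · rw [Finsupp.notMem_support_iff.1 hi]
        exact Nat.zero_le _
    exact h1.trans hm
  refine ⟨∑ m ∈ hfin.toFinset, MvPolynomial.monomial m (fun n => (P n).coeff m), fun n => ?_⟩
  rw [map_sum]
  simp only [MvPolynomial.map_monomial]
  rw [(P n).as_sum]
  ext m
  rw [MvPolynomial.coeff_sum, MvPolynomial.coeff_sum]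
  simp only [MvPolynomial.coeff_monomial]
  by_cases hm : m ∈ (P n).support
  · rw [Finset.sum_eq_single m, Finset.sum_eq_single m]
    · rw [if_pos rfl, if_pos rfl]
      rfl
    · intro b _ hb
      rw [if_neg hb]
    · intro h
      exact absurd hm h
    · intro b _ hb
      rw [if_neg hb]
    · intro h
      refine absurd ?_ h
      rw [Set.Finite.mem_toFinset]
      exact (MvPolynomial.le_totalDegree hm).trans (hP n)
  · rw [Finset.sum_eq_zero, Finset.sum_eq_zero]
    · intro b hb
      rw [if_neg]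
      rintro rfl
      exact hm hb
    · intro b _
      split_ifs with h
      · subst h
        exact MvPolynomial.notMem_support_iff.1 hm
      · rfl

end Pool.Agent.Y118.UL
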