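import Mathlib

/-!
# Specialisation of the relations between vectors of polynomials
-/

set_option autoImplicit false
set_option maxHeartbeats 400000

open Polynomial

namespace Pool.Agent.Y118.UL

/-- relations over a field -/
theorem la_field {F : Type} [Field F] {α β : Type} [Fintype α] [Fintype β] (v : α → β → F[X]) :
    ∃ b : F[X], b ≠ 0 ∧ ∀ s : F, b.eval s ≠ 0 → ∀ q : α → F, (∀ p, ∑ μ, q μ * (v μ p).eval s = 0) →
      ∃ (c : α → F) (ρ : α → α → F[X]), (∀ ν p, ∑ μ, ρ ν μ * v μ p = 0) ∧ ∀ μ, q μ = ∑ ν, c ν * (ρ ν μ).eval s := by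
  classical
  let K := FractionRing F[X]
  have hinj : Function.Injective (algebraMap F[X] K) := IsFractionRing.injective F[X] K
  let v' : α → β → K := fun μ p => algebraMap F[X] K (v μ p)
  obtain ⟨κ, a, ha, hspan, hLI⟩ := exists_linearIndependent' K v'
  have : Finite κ := Finite.of_injective a ha
  have : Fintype κ := Fintype.ofFinite κ
  -- the coefficients of the others
  have h1 : ∀ μ, ∃ m : κ → K, v' μ = ∑ j, m j • v' (a j) := by
    intro μ
    have h2 : v' μ ∈ Submodule.span K (Set.range (v' ∘ a)) := by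
      rw [hspan]
      exact Submodule.subset_span ⟨μ, rfl⟩
    obtain ⟨m, hm⟩ := (Submodule.mem_span_range_iff_exists_fun K).1 h2
    exact ⟨m, hm.symm⟩
  choose m hm using h1
  -- the left inverse
  have hker : LinearMap.ker (Fintype.linearCombination K (v' ∘ a)) = ⊥ := by
    rw [LinearMap.ker_eq_bot, injective_iff_map_eq_zero]
    intro x hx
    funext j
    exact Fintype.linearIndependent_iff.1 hLI x (by rw [← hx, Fintype.linearCombination_apply]) j
  obtain ⟨L, hL⟩ := LinearMap.exists_leftInverse_of_injective _ hker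
  let W : κ → β → K := fun j p => L (Pi.single p 1) j
  have hW : ∀ (x : κ → K) (j : κ), ∑ p, (∑ j', x j' * v' (a j') p) * W j p = x j := by
    intro x j
    have h2 := congrFun (DFunLike.congr_fun hL x) j
    rw [LinearMap.comp_apply, LinearMap.id_apply] at h2
    rw [← h2]
    have h3 : Fintype.linearCombination K (v' ∘ a) x = ∑ p, (∑ j', x j' * v' (a j') p) • (Pi.single p (1 : K) : β → K) := by
      funext p
      rw [Fintype.linearCombination_apply, Finset.sum_apply, Finset.sum_apply]
      simp [Pi.single_apply]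
    rw [h3, map_sum, Finset.sum_apply]
    refine Finset.sum_congr rfl fun p _ => ?_
    rw [map_smul, Pi.smul_apply, smul_eq_mul]
  -- common denominators
  obtain ⟨⟨d, hd⟩, hd2⟩ := IsLocalization.exist_integer_multiples_of_finset (nonZeroDivisors F[X])
    ((Finset.univ.image fun x : α × κ => m x.1 x.2) ∪ (Finset.univ.image fun x : κ × β => W x.1 x.2))
  have hd0 : d ≠ 0 := nonZeroDivisors.ne_zero hd
  have hm' : ∀ μ j, ∃ P : F[X], algebraMap F[X] K P = algebraMap F[X] K d * m μ j := by
    intro μ j
    obtain ⟨P, hP⟩ := hd2 (m μ j) (Finset.mem_union_left _ (Finset.mem_image_of_mem (fun x : α × κ => m x.1 x.2)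
      (Finset.mem_univ (μ, j))))
    exact ⟨P, hP.trans (Algebra.smul_def _ _)⟩
  have hW' : ∀ j p, ∃ P : F[X], algebraMap F[X] K P = algebraMap F[X] K d * W j p := by
    intro j p
    obtain ⟨P, hP⟩ := hd2 (W j p) (Finset.mem_union_right _ (Finset.mem_image_of_mem (fun x : κ × β => W x.1 x.2)
      (Finset.mem_univ (j, p))))
    exact ⟨P, hP.trans (Algebra.smul_def _ _)⟩
  choose M hM using hm'
  choose Q hQ using hW'
  refine ⟨d, hd0, fun s hs q hq => ?_⟩
  -- identities over the polynomial ring
  have hA : ∀ μ p, d * v μ p = ∑ j, M μ j * v (a j) p := by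
    intro μ p
    apply hinj
    rw [map_mul, map_sum]
    have h2 := congrFun (hm μ) p
    rw [Finset.sum_apply] at h2
    have h3 : algebraMap F[X] K (v μ p) = ∑ j, m μ j * algebraMap F[X] K (v (a j) p) := h2
    rw [h3, Finset.mul_sum]
    refine Finset.sum_congr rfl fun j _ => ?_
    rw [map_mul, hM]
    ring
  have hB : ∀ j j', ∑ p, v (a j') p * Q j p = if j' = j then d else 0 := by
    intro j j'
    apply hinj
    rw [map_sum]
    have h2 := hW (Pi.single j' 1) j
    have h3 : ∀ p, ∑ i, (Pi.single j' (1 : K) : κ → K) i * v' (a i) p = v' (a j') p := by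
      intro p
      rw [Finset.sum_eq_single j' (fun i _ hi => by rw [Pi.single_eq_of_ne hi, zero_mul])
        (fun h => absurd (Finset.mem_univ _) h), Pi.single_eq_same, one_mul]
    simp only [h3] at h2
    have h4 : ∑ p, algebraMap F[X] K (v (a j') p * Q j p) = algebraMap F[X] K d * ∑ p, v' (a j') p * W j p := by
      rw [Finset.mul_sum]
      refine Finset.sum_congr rfl fun p _ => ?_
      rw [map_mul, hQ]
      ring
    rw [h4, h2]
    by_cases hj : j' = j
    · subst hj
      rw [Pi.single_eq_same, if_pos rfl, mul_one]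
    · rw [Pi.single_eq_of_ne (Ne.symm hj), if_neg hj, mul_zero, map_zero]
  let ρ : α → α → F[X] := fun ν μ => (if ν = μ then d else 0) - ∑ j, if a j = μ then M ν j else 0
  have hρ : ∀ ν (f : α → F[X]), ∑ μ, ρ ν μ * f μ = d * f ν - ∑ j, M ν j * f (a j) := by
    intro ν f
    simp only [ρ, sub_mul, Finset.sum_sub_distrib, ite_mul, zero_mul, Finset.sum_mul]
    rw [Finset.sum_ite_eq, if_pos (Finset.mem_univ _), Finset.sum_comm]
    congr 1
    refine Finset.sum_congr rfl fun j _ => ?_
    rw [Finset.sum_ite_eq, if_pos (Finset.mem_univ _)]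
  refine ⟨fun ν => (d.eval s)⁻¹ * q ν, ρ, fun ν p => ?_, fun μ => ?_⟩
  · rw [hρ ν (fun μ => v μ p), hA, sub_self]
  · -- the remainder vanishes
    have he : ∀ j, ∑ ν, q ν * (M ν j).eval s = 0 := by
      intro j
      have h2 : ∀ p, ∑ j', (∑ ν, q ν * (M ν j').eval s) * (v (a j') p).eval s = 0 := by
        intro p
        have h3 : ∑ j', (∑ ν, q ν * (M ν j').eval s) * (v (a j') p).eval s = d.eval s * ∑ ν, q ν * (v ν p).eval s := by
          rw [Finset.mul_sum]
          simp only [Finset.sum_mul]
          rw [Finset.sum_comm]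
          refine Finset.sum_congr rfl fun ν _ => ?_
          have h4 := congrArg (Polynomial.eval s) (hA ν p)
          rw [eval_mul, eval_finsetSum] at h4
          rw [mul_left_comm, h4, Finset.mul_sum]
          refine Finset.sum_congr rfl fun j' _ => ?_
          rw [eval_mul]
          ring
        rw [h3, hq, mul_zero]
      have h5 : ∑ p, (∑ j', (∑ ν, q ν * (M ν j').eval s) * (v (a j') p).eval s) * (Q j p).eval s = 0 :=
        Finset.sum_eq_zero fun p _ => by rw [h2, zero_mul]
      have h6 : ∑ p, (∑ j', (∑ ν, q ν * (M ν j').eval s) * (v (a j') p).eval s) * (Q j p).eval s =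
          (∑ ν, q ν * (M ν j).eval s) * d.eval s := by
        simp only [Finset.sum_mul (s := (Finset.univ : Finset κ))]
        rw [Finset.sum_comm]
        have h7 : ∀ j', ∑ p, (∑ ν, q ν * (M ν j').eval s) * (v (a j') p).eval s * (Q j p).eval s =
            (∑ ν, q ν * (M ν j').eval s) * if j' = j then d.eval s else 0 := by
          intro j'
          have h8 := congrArg (Polynomial.eval s) (hB j j')
          rw [eval_finsetSum] at h8
          have h9 : Polynomial.eval s (if j' = j then d else 0) = if j' = j then d.eval s else 0 := by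
            split_ifs <;> simp
          rw [h9] at h8
          rw [← h8, Finset.mul_sum]
          refine Finset.sum_congr rfl fun p _ => ?_
          rw [eval_mul]
          ring
        simp only [h7]
        simp
      rw [h6] at h5
      exact (mul_eq_zero.1 h5).resolve_right hs
    have h2 : ∑ ν, (d.eval s)⁻¹ * q ν * (ρ ν μ).eval s = (d.eval s)⁻¹ * (q μ * d.eval s -
        ∑ j, if a j = μ then ∑ ν, q ν * (M ν j).eval s else 0) := by
      have h3 : ∀ ν, (ρ ν μ).eval s = (if ν = μ then d.eval s else 0) - ∑ j, if a j = μ then (M ν j).eval s else 0 := by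
        intro ν
        simp only [ρ, eval_sub, eval_finsetSum]
        congr 1
        · split_ifs <;> simp
        · refine Finset.sum_congr rfl fun j _ => ?_
          split_ifs <;> simp
      simp only [h3, mul_sub, Finset.sum_sub_distrib]
      congr 1
      · simp [mul_assoc]
      · simp only [Finset.mul_sum]
        rw [Finset.sum_comm]
        refine Finset.sum_congr rfl fun j _ => ?_
        split_ifs
        · rw [Finset.mul_sum]
          refine Finset.sum_congr rfl fun ν _ => ?_
          ring
        · simp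
    rw [h2]
    simp only [he, ite_self, Finset.sum_const_zero, sub_zero]
    field_simp

/-- relations with algebraic coefficients between vectors of complex polynomials -/
theorem la {α β : Type} [Fintype α] [Fintype β] (C : α → β → ℂ[X]) : ∃ N : ℕ, ∀ t : ℕ, N < t → ∀ q : α → ℂ,
    (∀ μ, q μ ∈ algebraicClosure ℚ ℂ) → (∀ p, ∑ μ, q μ * (C μ p).eval (1 / (t : ℂ)) = 0) →
    ∃ (c : α → ℂ) (ρ : α → α → Polynomial (algebraicClosure ℚ ℂ)),
      (∀ ν p, ∑ μ, (ρ ν μ).map (algebraMap (algebraicClosure ℚ ℂ) ℂ) * C μ p = 0) ∧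
      ∀ μ, q μ = ∑ ν, c ν * ((ρ ν μ).map (algebraMap (algebraicClosure ℚ ℂ) ℂ)).eval (1 / (t : ℂ)) := by
  classical
  let F := algebraicClosure ℚ ℂ
  let bs := Module.Basis.ofVectorSpace F ℂ
  let Λ : Finset (Module.Basis.ofVectorSpaceIndex F ℂ) := Finset.univ.biUnion fun x : α × β =>
    (Finset.range ((C x.1 x.2).natDegree + 1)).biUnion fun j => (bs.repr ((C x.1 x.2).coeff j)).support
  let Cl : Λ → α → β → F[X] := fun l μ p =>
    ∑ j ∈ Finset.range ((C μ p).natDegree + 1), monomial j (bs.repr ((C μ p).coeff j) l)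
  -- evaluation of the components
  have hev : ∀ (l : Λ) μ p (s : F), (Cl l μ p).eval s = bs.repr ((C μ p).eval (s : ℂ)) l := by
    intro l μ p s
    simp only [Cl, eval_finsetSum, eval_monomial]
    rw [eval_eq_sum_range, map_sum, Finsupp.finsetSum_apply]
    refine Finset.sum_congr rfl fun j _ => ?_
    have h1 : (C μ p).coeff j * (s : ℂ) ^ j = (s ^ j) • (C μ p).coeff j := by
      rw [Algebra.smul_def, mul_comm]
      rfl
    rw [h1, map_smul, Finsupp.smul_apply, smul_eq_mul, mul_comm]
  -- recovering the polynomials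
  have hrec : ∀ μ p, C μ p = ∑ l : Λ, Polynomial.C (bs l) * (Cl l μ p).map (algebraMap F ℂ) := by
    intro μ p
    ext j
    rw [finsetSum_coeff]
    simp only [coeff_C_mul, coeff_map]
    by_cases hj : j ∈ Finset.range ((C μ p).natDegree + 1)
    · have h1 : ∀ l : Λ, (Cl l μ p).coeff j = bs.repr ((C μ p).coeff j) l := by
        intro l
        simp only [Cl, finsetSum_coeff, coeff_monomial]
        rw [Finset.sum_ite_eq' , if_pos hj]
      simp only [h1]
      have h2 : (bs.repr ((C μ p).coeff j)).support ⊆ Λ := by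
        intro l hl
        exact Finset.mem_biUnion.2 ⟨(μ, p), Finset.mem_univ _, Finset.mem_biUnion.2 ⟨j, hj, hl⟩⟩
      have h3 := bs.linearCombination_repr ((C μ p).coeff j)
      rw [Finsupp.linearCombination_apply, Finsupp.sum_of_support_subset _ h2 (fun i a => a • bs i)
        (fun _ _ => zero_smul _ _)] at h3
      refine h3.symm.trans ?_
      rw [← Finset.sum_coe_sort Λ]
      refine Finset.sum_congr rfl fun l _ => ?_
      rw [Algebra.smul_def, mul_comm]
    · have h0 : (C μ p).coeff j = 0 := by
        apply coeff_eq_zero_of_natDegree_lt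
        rw [Finset.mem_range] at hj
        omega
      rw [h0]
      symm
      refine Finset.sum_eq_zero fun l _ => ?_
      have h1 : (Cl l μ p).coeff j = 0 := by
        simp only [Cl, finsetSum_coeff, coeff_monomial]
        rw [Finset.sum_ite_eq', if_neg hj]
      rw [h1, map_zero, mul_zero]
  obtain ⟨b, hb, hmain⟩ := la_field (F := F) (α := α) (β := Λ × β) fun μ x => Cl x.1 μ x.2
  -- large integers
  obtain ⟨N, hN⟩ : ∃ N : ℕ, ∀ t : ℕ, N < t → b.eval (1 / (t : F)) ≠ 0 := by
    have h1 : {t : ℕ | b.eval (1 / (t : F)) = 0}.Finite := by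
      have h2 : Set.InjOn (fun t : ℕ => (1 / (t : F))) {t : ℕ | b.eval (1 / (t : F)) = 0} := by
        intro x _ y _ hxy
        simp only [one_div, inv_inj, Nat.cast_inj] at hxy
        exact hxy
      refine Set.Finite.of_finite_image ((b.roots.toFinset.finite_toSet).subset ?_) h2
      rintro _ ⟨t, ht, rfl⟩
      exact Finset.mem_coe.2 (Multiset.mem_toFinset.2 ((mem_roots hb).2 ht))
    obtain ⟨N, hN⟩ := h1.bddAbove
    exact ⟨N, fun t ht h0 => absurd (hN h0) (by omega)⟩
  refine ⟨N, fun t ht q hq h0 => ?_⟩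
  have hcast : (((1 / (t : F)) : F) : ℂ) = 1 / (t : ℂ) := by
    push_cast
    rfl
  let q' : α → F := fun μ => ⟨q μ, hq μ⟩
  obtain ⟨c, ρ, h1, h2⟩ := hmain (1 / (t : F)) (hN t ht) q' (by
    rintro ⟨l, p⟩
    have h3 := congrArg (fun x => bs.repr x l) (h0 p)
    simp only [map_sum, map_zero, Finsupp.zero_apply, Finsupp.finsetSum_apply] at h3
    rw [← h3]
    refine Finset.sum_congr rfl fun μ _ => ?_
    rw [hev, hcast]
    have h4 : q μ * (C μ p).eval (1 / (t : ℂ)) = q' μ • (C μ p).eval (1 / (t : ℂ)) := by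
      rw [Algebra.smul_def]
      rfl
    rw [h4, map_smul, Finsupp.smul_apply, smul_eq_mul])
  refine ⟨fun ν => (c ν : ℂ), ρ, fun ν p => ?_, fun μ => ?_⟩
  · have h3 : ∀ l : Λ, ∑ μ, (ρ ν μ).map (algebraMap F ℂ) * (Cl l μ p).map (algebraMap F ℂ) = 0 := by
      intro l
      have h4 := congrArg (Polynomial.map (algebraMap F ℂ)) (h1 ν (l, p))
      rw [Polynomial.map_sum, Polynomial.map_zero] at h4
      simp only [Polynomial.map_mul] at h4
      exact h4
    have h4 : ∑ μ, (ρ ν μ).map (algebraMap F ℂ) * C μ p =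
        ∑ l : Λ, Polynomial.C (bs l) * ∑ μ, (ρ ν μ).map (algebraMap F ℂ) * (Cl l μ p).map (algebraMap F ℂ) := by
      simp only [Finset.mul_sum]
      rw [Finset.sum_comm]
      refine Finset.sum_congr rfl fun μ _ => ?_
      rw [hrec μ p, Finset.mul_sum]
      refine Finset.sum_congr rfl fun l _ => ?_
      ring
    rw [h4]
    exact Finset.sum_eq_zero fun l _ => by rw [h3, mul_zero]
  · have h3 := congrArg (algebraMap F ℂ) (h2 μ)
    rw [map_sum] at h3
    have h4 : (algebraMap F ℂ) (q' μ) = q μ := rfl
    rw [h4] at h3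
    rw [h3]
    refine Finset.sum_congr rfl fun ν _ => ?_
    rw [map_mul, ← hcast]
    congr 1
    have h5 : (((1 / (t : F)) : F) : ℂ) = algebraMap F ℂ (1 / (t : F)) := rfl
    rw [h5, eval_map_algebraMap, Polynomial.aeval_algebraMap_apply]
    rfl

end Pool.Agent.Y118.UL
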