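import Mathlib

/-!
# Regular extensions: algebraically free implies linearly disjoint
-/

set_option autoImplicit false
set_option maxHeartbeats 400000

open Polynomial
open scoped TensorProduct

namespace Pool.Agent.Y118.UL

section fields
variable {k E : Type} [Field k] [Field E] [Algebra k E]

/-- relatively algebraically closed -/
def RAC (k E : Type) [Field k] [Field E] [Algebra k E] : Prop := ∀ e : E, IsAlgebraic k e → e ∈ (algebraMap k E).range

theorem irr_map (h : RAC k E) {μ : k[X]} (hm : μ.Monic) (hi : Irreducible μ) : Irreducible (μ.map (algebraMap k E)) := by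
  have hinj : Function.Injective (algebraMap k E) := (algebraMap k E).injective
  have key : ∀ f g : E[X], f.Monic → f * g = μ.map (algebraMap k E) → f ∈ lifts (algebraMap k E) := by
    intro f g hf hfg
    have h1 := integralClosure.mem_lifts_of_monic_of_dvd_map E hm hf (Dvd.intro _ hfg)
    rw [lifts_iff_coeff_lifts] at h1 ⊢
    intro n
    obtain ⟨c, hc⟩ := h1 n
    rw [← hc]
    have h2 : IsAlgebraic k (c : E) := IsIntegral.isAlgebraic c.2
    exact h _ h2
  rw [(hm.map _).irreducible_iff_natDegree]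
  refine ⟨?_, fun f g hf hg hfg => ?_⟩
  · intro h1
    have h2 : μ = 1 := map_injective _ hinj (by rw [h1, Polynomial.map_one])
    exact hi.ne_one h2
  · obtain ⟨f0, hf0, hf1, hf2⟩ := lifts_and_natDegree_eq_and_monic (key f g hf hfg) hf
    obtain ⟨g0, hg0, hg1, hg2⟩ := lifts_and_natDegree_eq_and_monic (key g f hg (by rw [mul_comm]; exact hfg)) hg
    have h1 : f0 * g0 = μ := map_injective _ hinj (by rw [Polynomial.map_mul, hf0, hg0, hfg])
    rw [hm.irreducible_iff_natDegree] at hi
    rcases hi.2 f0 g0 hf2 hg2 h1 with h3 | h3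
    · left; omega
    · right; omega

/-- finite extensions -/
theorem dom_fin [CharZero k] (h : RAC k E) (K : Type) [Field K] [Algebra k K] [FiniteDimensional k K] :
    IsDomain (E ⊗[k] K) := by
  let pb := Field.powerBasisOfFiniteOfSeparable k K
  have hirr : Irreducible ((minpoly k pb.gen).map (algebraMap k E)) :=
    irr_map h (minpoly.monic pb.isIntegral_gen) (minpoly.irreducible pb.isIntegral_gen)
  have : Fact (Irreducible ((minpoly k pb.gen).map (algebraMap k E))) := ⟨hirr⟩
  let L := AdjoinRoot ((minpoly k pb.gen).map (algebraMap k E))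
  have hroot : Polynomial.aeval (AdjoinRoot.root ((minpoly k pb.gen).map (algebraMap k E))) (minpoly k pb.gen) = 0 := by
    have h1 := AdjoinRoot.eval₂_root ((minpoly k pb.gen).map (algebraMap k E))
    rw [Polynomial.eval₂_map] at h1
    exact h1
  let f : K →ₐ[k] L := pb.lift (AdjoinRoot.root ((minpoly k pb.gen).map (algebraMap k E))) hroot
  let Φ : E ⊗[k] K →ₐ[E] L := Algebra.TensorProduct.lift (Algebra.ofId E L) f fun _ _ => Commute.all _ _
  have hsurj : Function.Surjective Φ := by
    have h1 : (⊤ : Subalgebra E L) ≤ Φ.range := by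
      rw [← AdjoinRoot.adjoinRoot_eq_top, Algebra.adjoin_le_iff, Set.singleton_subset_iff]
      refine ⟨1 ⊗ₜ pb.gen, ?_⟩
      show Φ (1 ⊗ₜ pb.gen) = _
      rw [Algebra.TensorProduct.lift_tmul, map_one, one_mul]
      exact pb.lift_gen _ _
    intro x
    exact h1 Algebra.mem_top
  have : Module.Finite E L := by
    refine Module.Finite.of_surjective Φ.toLinearMap hsurj
  have hfin : Module.finrank E (E ⊗[k] K) = Module.finrank E L := by
    rw [Module.finrank_baseChange, pb.finrank]
    have h1 := (AdjoinRoot.powerBasis (f := (minpoly k pb.gen).map (algebraMap k E)) hirr.ne_zero).finrank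
    rw [h1, AdjoinRoot.powerBasis_dim, natDegree_map, pb.natDegree_minpoly]
  have hinj : Function.Injective Φ :=
    (LinearMap.injective_iff_surjective_of_finrank_eq_finrank (f := Φ.toLinearMap) hfin).2 hsurj
  exact Function.Injective.isDomain Φ.toRingHom hinj

/-- finitely generated domains -/
theorem dom_fg [CharZero k] (h : RAC k E) (R : Type) [CommRing R] [IsDomain R] [Algebra k R] [Algebra.FiniteType k R] :
    NoZeroDivisors (R ⊗[k] E) := by
  classical
  refine ⟨fun {u v} huv => ?_⟩
  by_contra hcon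
  push Not at hcon
  obtain ⟨hu, hv⟩ := hcon
  let bE := Module.Basis.ofVectorSpace k E
  let b := Algebra.TensorProduct.basis R bE
  obtain ⟨i, hi⟩ : ∃ i, b.repr u i ≠ 0 := by
    by_contra hno
    push Not at hno
    exact hu (b.repr.map_eq_zero_iff.1 (Finsupp.ext hno))
  obtain ⟨j, hj⟩ : ∃ j, b.repr v j ≠ 0 := by
    by_contra hno
    push Not at hno
    exact hv (b.repr.map_eq_zero_iff.1 (Finsupp.ext hno))
  have hJ : IsJacobsonRing R := isJacobsonRing_of_finiteType (A := k)
  have hbot : (⊥ : Ideal R).jacobson = ⊥ := by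
    rw [← Ideal.radical_eq_jacobson]
    exact (Ideal.isPrime_bot (α := R)).radical
  obtain ⟨m, hm, hmij⟩ : ∃ m : Ideal R, m.IsMaximal ∧ b.repr u i * b.repr v j ∉ m := by
    by_contra hno
    push Not at hno
    have h1 : b.repr u i * b.repr v j ∈ (⊥ : Ideal R).jacobson := by
      rw [Ideal.jacobson, Ideal.mem_sInf]
      exact fun {I} hI => hno I hI.2
    rw [hbot, Ideal.mem_bot] at h1
    exact mul_ne_zero hi hj h1
  let _ : Field (R ⧸ m) := Ideal.Quotient.field m
  have : Algebra.FiniteType k (R ⧸ m) := Algebra.FiniteType.of_surjective (Ideal.Quotient.mkₐ k m) (Ideal.Quotient.mkₐ_surjective k m)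
  have : Module.Finite k (R ⧸ m) := finite_of_finite_type_of_isJacobsonRing k (R ⧸ m)
  have hdom := dom_fin h (R ⧸ m)
  let π : R ⊗[k] E →ₐ[k] (R ⧸ m) ⊗[k] E := Algebra.TensorProduct.map (Ideal.Quotient.mkₐ k m) (AlgHom.id k E)
  let b' := Algebra.TensorProduct.basis (R ⧸ m) bE
  have hπ : ∀ (w : R ⊗[k] E) l, b'.repr (π w) l = Ideal.Quotient.mk m (b.repr w l) := by
    intro w l
    induction w using TensorProduct.induction_on with
    | zero => simp
    | tmul x y =>
      simp only [π, Algebra.TensorProduct.map_tmul, b, b', Algebra.TensorProduct.basis_repr_tmul, AlgHom.coe_id, id_eq,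
        Finsupp.smul_apply, Finsupp.mapRange_apply, Ideal.Quotient.mkₐ_eq_mk, smul_eq_mul, map_mul]
      congr 1
    | add x y hx hy =>
      rw [map_add, map_add, Finsupp.add_apply, hx, hy, ← map_add, map_add b.repr, Finsupp.add_apply]
  have h0 : π u * π v = 0 := by rw [← map_mul, huv, map_zero]
  have hdom' : NoZeroDivisors ((R ⧸ m) ⊗[k] E) :=
    (Algebra.TensorProduct.comm k (R ⧸ m) E).toMulEquiv.noZeroDivisors _
  rcases mul_eq_zero.1 h0 with h1 | h1
  · apply hmij
    have h2 := hπ u i
    rw [h1, map_zero, Finsupp.zero_apply] at h2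
    exact Ideal.mul_mem_right _ _ (Ideal.Quotient.eq_zero_iff_mem.1 h2.symm)
  · apply hmij
    have h2 := hπ v j
    rw [h1, map_zero, Finsupp.zero_apply] at h2
    exact Ideal.mul_mem_left _ _ (Ideal.Quotient.eq_zero_iff_mem.1 h2.symm)

/-- arbitrary extensions -/
theorem dom_all [CharZero k] (h : RAC k E) (F : Type) [Field F] [Algebra k F] : NoZeroDivisors (E ⊗[k] F) := by
  refine ⟨fun {u v} huv => ?_⟩
  obtain ⟨D1, hD1, u', hu'⟩ := exists_fg_and_mem_baseChange u
  obtain ⟨D2, hD2, v', hv'⟩ := exists_fg_and_mem_baseChange v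
  have hD : (D1 ⊔ D2).FG := hD1.sup hD2
  have hft : Algebra.FiniteType k ↥(D1 ⊔ D2) := (Subalgebra.fg_iff_finiteType _).1 hD
  have hdom := dom_fg h ↥(D1 ⊔ D2)
  have hdom' : NoZeroDivisors (E ⊗[k] ↥(D1 ⊔ D2)) :=
    (Algebra.TensorProduct.comm k E ↥(D1 ⊔ D2)).toMulEquiv.noZeroDivisors _
  let ι1 : E ⊗[k] D1 →ₐ[k] E ⊗[k] ↥(D1 ⊔ D2) := Algebra.TensorProduct.map (AlgHom.id k E) (Subalgebra.inclusion le_sup_left)
  let ι2 : E ⊗[k] D2 →ₐ[k] E ⊗[k] ↥(D1 ⊔ D2) := Algebra.TensorProduct.map (AlgHom.id k E) (Subalgebra.inclusion le_sup_right)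
  let J : E ⊗[k] ↥(D1 ⊔ D2) →ₐ[k] E ⊗[k] F := Algebra.TensorProduct.map (AlgHom.id k E) (D1 ⊔ D2).val
  have hJ : Function.Injective J := Module.Flat.lTensor_preserves_injective_linearMap _ Subtype.val_injective
  have h1 : J (ι1 u') = u := by
    rw [← hu']
    have h2 : J.comp ι1 = (Algebra.TensorProduct.map (AlgHom.id k E) D1.val) := by
      refine Algebra.TensorProduct.ext ?_ ?_
      · ext x; simp [J, ι1]
      · ext x; simp [J, ι1]
    exact DFunLike.congr_fun h2 u'
  have h2 : J (ι2 v') = v := by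
    rw [← hv']
    have h2 : J.comp ι2 = (Algebra.TensorProduct.map (AlgHom.id k E) D2.val) := by
      refine Algebra.TensorProduct.ext ?_ ?_
      · ext x; simp [J, ι2]
      · ext x; simp [J, ι2]
    exact DFunLike.congr_fun h2 v'
  have h3 : ι1 u' * ι2 v' = 0 := hJ (by rw [map_mul, h1, h2, huv, map_zero])
  rcases mul_eq_zero.1 h3 with h4 | h4
  · left; rw [← h1, h4, map_zero]
  · right; rw [← h2, h4, map_zero]

end fields

end Pool.Agent.Y118.UL
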