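import Pool.Agent.Y118.UL.Ld
import Pool.Agent.Y118.UL.Irr

/-!
# Linear disjointness over the constants
-/

set_option autoImplicit false
set_option maxHeartbeats 400000

open Polynomial
open scoped TensorProduct

namespace Pool.Agent.Y118.UL

theorem ld {k E F Ω : Type} [Field k] [Field E] [Field F] [Field Ω] [CharZero k] (i : k →+* E) (j : k →+* F)
    (a : E →+* Ω) (b : F →+* Ω) (hab : a.comp i = b.comp j)
    (hreg : ∀ e : E, (∃ p : Polynomial k, p ≠ 0 ∧ p.eval₂ i e = 0) → e ∈ i.range)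
    {I : Type} (z : I → E) (hz : ∀ p : MvPolynomial I F, p.eval₂ b (fun i => a (z i)) = 0 → p = 0)
    (halg : ∀ e : E, ∃ p : Polynomial (MvPolynomial I k), p ≠ 0 ∧ p.eval₂ (MvPolynomial.eval₂Hom i z) e = 0)
    {ι : Type} (e : ι → E) (he : ∀ s : Finset ι, ∀ c : ι → k, ∑ l ∈ s, i (c l) * e l = 0 → ∀ l ∈ s, c l = 0) :
    ∀ (s : Finset ι) (c : ι → F), ∑ l ∈ s, b (c l) * a (e l) = 0 → ∀ l ∈ s, c l = 0 := by
  classical
  letI : Algebra k E := i.toAlgebra
  letI : Algebra k F := j.toAlgebra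
  letI : Algebra k Ω := (a.comp i).toAlgebra
  let aa : E →ₐ[k] Ω := { a with commutes' := fun r => rfl }
  let bb : F →ₐ[k] Ω := { b with commutes' := fun r => (DFunLike.congr_fun hab r).symm }
  have hrac : RAC k E := by
    rintro x ⟨p, hp0, hp⟩
    exact hreg x ⟨p, hp0, hp⟩
  have hD := dom_all hrac F
  have : Nontrivial (E ⊗[k] F) := inferInstance
  have hdom : IsDomain (E ⊗[k] F) := NoZeroDivisors.to_isDomain _
  let ρ : E ⊗[k] F →ₐ[k] Ω := Algebra.TensorProduct.lift aa bb fun _ _ => Commute.all _ _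
  have hρ : ∀ x y, ρ (x ⊗ₜ y) = a x * b y := fun x y => Algebra.TensorProduct.lift_tmul _ _ _ _ _
  -- the polynomial ring
  let g : MvPolynomial I F →+* E ⊗[k] F :=
    MvPolynomial.eval₂Hom (Algebra.TensorProduct.includeRight : F →ₐ[k] E ⊗[k] F).toRingHom fun l => z l ⊗ₜ 1
  have hg1 : ∀ c, g (MvPolynomial.C c) = 1 ⊗ₜ c := fun c => MvPolynomial.eval₂Hom_C _ _ _
  have hg2 : ∀ l, g (MvPolynomial.X l) = z l ⊗ₜ 1 := fun l => MvPolynomial.eval₂Hom_X' _ _ _
  have hρg : ∀ p, ρ (g p) = p.eval₂ b fun i => a (z i) := by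
    intro p
    have h1 : (ρ.toRingHom).comp g = MvPolynomial.eval₂Hom b fun i => a (z i) := by
      refine MvPolynomial.ringHom_ext (fun c => ?_) fun l => ?_
      · rw [RingHom.comp_apply, hg1, MvPolynomial.eval₂Hom_C]
        show ρ (1 ⊗ₜ c) = _
        rw [hρ, map_one, one_mul]
      · rw [RingHom.comp_apply, hg2, MvPolynomial.eval₂Hom_X']
        show ρ (z l ⊗ₜ 1) = _
        rw [hρ, map_one, mul_one]
    exact DFunLike.congr_fun h1 p
  have halgE : ∀ x : E, Alg g (x ⊗ₜ[k] (1 : F)) := by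
    intro x
    obtain ⟨p, hp0, hp⟩ := halg x
    refine ⟨p.map (MvPolynomial.map j), (Polynomial.map_ne_zero_iff (MvPolynomial.map_injective _ j.injective)).2 hp0, ?_⟩
    rw [Polynomial.eval₂_map]
    let inc : E →+* E ⊗[k] F := (Algebra.TensorProduct.includeLeft : E →ₐ[k] E ⊗[k] F).toRingHom
    have h1 : g.comp (MvPolynomial.map j) = inc.comp (MvPolynomial.eval₂Hom i z) := by
      refine MvPolynomial.ringHom_ext (fun c => ?_) fun l => ?_
      · rw [RingHom.comp_apply, RingHom.comp_apply, MvPolynomial.map_C, hg1, MvPolynomial.eval₂Hom_C]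
        show (1 : E) ⊗ₜ[k] (algebraMap k F c) = (algebraMap k E c) ⊗ₜ[k] (1 : F)
        rw [Algebra.algebraMap_eq_smul_one, Algebra.algebraMap_eq_smul_one, TensorProduct.tmul_smul,
          TensorProduct.smul_tmul']
      · rw [RingHom.comp_apply, RingHom.comp_apply, MvPolynomial.map_X, hg2, MvPolynomial.eval₂Hom_X']
        rfl
    rw [h1]
    have h2 : (x ⊗ₜ[k] (1 : F)) = inc x := rfl
    rw [h2, ← Polynomial.hom_eval₂, hp, map_zero]
  have halgD : ∀ x : E ⊗[k] F, Alg g x := by
    intro x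
    induction x using TensorProduct.induction_on with
    | zero =>
      have := Alg.map g 0
      rwa [map_zero] at this
    | tmul x y =>
      have h1 : x ⊗ₜ[k] y = (x ⊗ₜ 1) * g (MvPolynomial.C y) := by
        rw [hg1, Algebra.TensorProduct.tmul_mul_tmul, mul_one, one_mul]
      rw [h1]
      exact (halgE x).mul g (Alg.map g _)
    | add x y hx hy => exact hx.add g hy
  have hinj : ∀ x : E ⊗[k] F, ρ x = 0 → x = 0 := by
    intro x hx
    by_contra hx0
    obtain ⟨q, hq0, w, hw⟩ := (halgD x).dvd g hx0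
    apply hq0
    apply hz
    rw [← hρg, hw, map_mul, hx, zero_mul]
  -- the conclusion
  intro s c hc
  have h1 : ∑ l ∈ s, e l ⊗ₜ[k] c l = 0 := by
    apply hinj
    rw [map_sum, ← hc]
    refine Finset.sum_congr rfl fun l _ => ?_
    rw [hρ, mul_comm]
  have hli : LinearIndependent k (fun l : s => e l) := by
    rw [Fintype.linearIndependent_iff]
    intro d hd l
    have h2 := he s (fun l => if hl : l ∈ s then d ⟨l, hl⟩ else 0) (by
      rw [← hd, ← Finset.sum_coe_sort s]
      refine Finset.sum_congr rfl fun l _ => ?_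
      rw [dif_pos l.2, Algebra.smul_def]
      rfl) l l.2
    simpa using h2
  let bs := Module.Basis.extend hli.linearIndepOn_id
  have hmem : ∀ l : s, e l ∈ hli.linearIndepOn_id.extend (Set.subset_univ _) := fun l =>
    hli.linearIndepOn_id.subset_extend (Set.subset_univ _) ⟨l, rfl⟩
  have hbs : ∀ l : s, bs ⟨e l, hmem l⟩ = e l := fun l => Module.Basis.extend_apply_self _ _
  have hinjf : Function.Injective (fun l : s => (⟨e l, hmem l⟩ : hli.linearIndepOn_id.extend (Set.subset_univ _))) := by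
    intro l l' h
    exact hli.injective (congrArg Subtype.val h)
  have h2 := TensorProduct.sum_tmul_basis_left_eq_zero bs (Finsupp.mapDomain
    (fun l : s => (⟨e l, hmem l⟩ : hli.linearIndepOn_id.extend (Set.subset_univ _)))
    (Finsupp.equivFunOnFinite.symm fun l : s => c l)) (by
      rw [Finsupp.sum_mapDomain_index (fun _ => TensorProduct.tmul_zero _ _) (fun _ _ _ => TensorProduct.tmul_add _ _ _),
        Finsupp.sum_fintype _ _ (fun _ => TensorProduct.tmul_zero _ _), ← h1, ← Finset.sum_coe_sort s]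
      refine Finset.sum_congr rfl fun l _ => ?_
      rw [hbs]
      rfl)
  intro l hl
  have h3 := Finsupp.mapDomain_apply hinjf (Finsupp.equivFunOnFinite.symm fun l : s => c l) ⟨l, hl⟩
  rw [h2, Finsupp.zero_apply] at h3
  exact h3.symm

end Pool.Agent.Y118.UL
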