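import Pool.Agent.Y118.UL.Winr
import Pool.Agent.Y118.UL.Lal

/-!
# The degree-bounded statement for functions which are polynomials in constants, `log x` and G-functions
-/

set_option autoImplicit false
set_option maxHeartbeats 400000

open PowerSeries Filter Pool.Agent.Y113 Pool.Agent.Y120.GF Pool.Agent.Y120.GH

namespace Pool.Agent.Y118.UL

section deg
variable {σ ρ : Type*} {R : Type*} [CommRing R]

theorem aeval_deg' {Q : MvPolynomial σ R} {Δ B : ℕ} (hQ : Q.totalDegree ≤ Δ) {L : σ → MvPolynomial ρ R}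
    (hL : ∀ i, (L i).totalDegree ≤ B) : (MvPolynomial.aeval L Q).totalDegree ≤ Δ * B := by
  rw [MvPolynomial.aeval_def, MvPolynomial.eval₂_eq]
  refine MvPolynomial.totalDegree_finsetSum_le fun s hs => ?_
  refine (MvPolynomial.totalDegree_mul _ _).trans ?_
  rw [MvPolynomial.algebraMap_eq, MvPolynomial.totalDegree_C, zero_add]
  refine (MvPolynomial.totalDegree_finsetProd _ _).trans ?_
  refine (Finset.sum_le_sum fun i _ => (MvPolynomial.totalDegree_pow _ _).trans (Nat.mul_le_mul_left _ (hL i))).trans ?_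
  rw [← Finset.sum_mul]
  exact Nat.mul_le_mul_right _ ((MvPolynomial.le_totalDegree hs).trans hQ)

end deg

section exps
variable {m δ : ℕ}

/-- the exponents of degree `≤ δ` -/
abbrev Em (m δ : ℕ) : Type := {μ : Fin m → Fin (δ + 1) // ∑ a, (μ a : ℕ) ≤ δ}

/-- the exponent as a finitely supported function -/
noncomputable def ex (μ : Em m δ) : Fin m →₀ ℕ := Finsupp.equivFunOnFinite.symm fun a => (μ.1 a : ℕ)

lemma ex_inj : Function.Injective (ex (m := m) (δ := δ)) := by
  intro μ ν h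
  have h1 := Finsupp.equivFunOnFinite.symm.injective h
  apply Subtype.ext
  funext a
  exact Fin.ext (congrFun h1 a)

lemma ex_deg (μ : Em m δ) : ((ex μ).sum fun _ e => e) ≤ δ := by
  rw [Finsupp.sum_fintype _ _ (fun _ => rfl)]
  exact μ.2

lemma ex_surj {s : Fin m →₀ ℕ} (hs : (s.sum fun _ e => e) ≤ δ) : ∃ μ : Em m δ, ex μ = s := by
  rw [Finsupp.sum_fintype _ _ (fun _ => rfl)] at hs
  refine ⟨⟨fun a => ⟨s a, ?_⟩, hs⟩, ?_⟩
  · have := Finset.single_le_sum (f := s) (fun _ _ => Nat.zero_le _) (Finset.mem_univ a)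
    omega
  · ext a
    rfl

lemma sum_ex {R : Type} [CommRing R] (Q : MvPolynomial (Fin m) R) (hQ : Q.totalDegree ≤ δ) :
    Q = ∑ μ : Em m δ, MvPolynomial.monomial (ex μ) (Q.coeff (ex μ)) := by
  classical
  ext s
  rw [MvPolynomial.coeff_sum]
  simp only [MvPolynomial.coeff_monomial]
  by_cases hs : (s.sum fun _ e => e) ≤ δ
  · obtain ⟨μ, rfl⟩ := ex_surj hs
    rw [Finset.sum_eq_single μ]
    · rw [if_pos rfl]
    · intro ν _ hν
      rw [if_neg (fun h => hν (ex_inj h))]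
    · intro h
      exact absurd (Finset.mem_univ _) h
  · rw [Finset.sum_eq_zero]
    · by_contra h
      exact hs ((MvPolynomial.le_totalDegree (MvPolynomial.mem_support_iff.2 h)).trans hQ)
    · intro μ _
      rw [if_neg]
      rintro rfl
      exact hs (ex_deg μ)

lemma sum_ex_deg {R : Type} [CommRing R] (c : Em m δ → R) :
    (∑ μ : Em m δ, MvPolynomial.monomial (ex μ) (c μ)).totalDegree ≤ δ := by
  refine MvPolynomial.totalDegree_finsetSum_le fun μ _ => ?_
  refine (MvPolynomial.totalDegree_monomial_le _ _).trans (ex_deg μ)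

end exps

section
variable {r d : ℕ} {h : Fin r → ℚ⟦X⟧} {B : Finset (Fin d → Option (Fin r))} (a : Polynomial ℤ)
  (M : (Fin d → Option (Fin r)) → B → Polynomial ℤ)

/-- the reduced coefficients as polynomials in `x` -/
noncomputable def Cp (g : MvPolynomial (Σ _ : Fin 1, Option (Fin r)) ℂ) (p : B × Fin (d + 1)) : Polynomial ℂ :=
  ∑ s ∈ g.support, if (p.2 : ℕ) = s ⟨0, none⟩ then
    Polynomial.C (g.coeff s) * (M (wd r d fun j => s ⟨0, some j⟩) p.1).map (Int.castRingHom ℂ) else 0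

/-- the value of an integer polynomial -/
lemma eval_sq (t : ℕ) (P : Polynomial ℤ) : (P.map (Int.castRingHom ℂ)).eval (1 / (t : ℂ)) = ((sq t P : ℚ) : ℂ) := by
  rw [← spec_map]
  unfold spec
  rw [RingHom.comp_apply, Polynomial.coe_evalRingHom, ← Polynomial.eval₂_at_apply, Polynomial.eval₂_map]
  have h1 : (algebraMap ℚ ℂ).comp (Int.castRingHom ℚ) = Int.castRingHom ℂ := RingHom.ext_int _ _
  rw [h1, ← Polynomial.eval_map]
  congr 1
  simp

lemma Cp_vv (t : ℕ) (ha : sq t a ≠ 0) (g : MvPolynomial (Σ _ : Fin 1, Option (Fin r)) ℂ) (p : B × Fin (d + 1)) :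
    (Cp M g p).eval (1 / (t : ℂ)) = ((sq t a : ℚ) : ℂ) * Pool.Agent.Y120.GH.vv (k := 1) (δ := d) (r := fun _ => r)
      (B := fun _ => B) (fun _ => a) (fun _ => M) (fun _ => t) g (fun _ => p) := by
  unfold Cp Pool.Agent.Y120.GH.vv
  rw [Polynomial.eval_finsetSum, Finset.mul_sum]
  refine Finset.sum_congr rfl fun s _ => ?_
  rw [Fin.prod_univ_one]
  unfold cs
  have hac : ((sq t a : ℚ) : ℂ) ≠ 0 := by exact_mod_cast ha
  by_cases hp : (p.2 : ℕ) = s ⟨0, none⟩
  · rw [if_pos hp, if_pos hp, Polynomial.eval_mul, Polynomial.eval_C, eval_sq]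
    push_cast
    field_simp
  · rw [if_neg hp, if_neg hp, Polynomial.eval_zero, Rat.cast_zero, mul_zero, mul_zero]

/-- `vv` is linear -/
lemma vv_sum {ι : Type} [Fintype ι] (t : ℕ) (q : ι → ℂ) (g : ι → MvPolynomial (Σ _ : Fin 1, Option (Fin r)) ℂ)
    (p : Fin 1 → B × Fin (d + 1)) :
    Pool.Agent.Y120.GH.vv (k := 1) (δ := d) (r := fun _ => r) (B := fun _ => B) (fun _ => a) (fun _ => M) (fun _ => t)
      (∑ i, MvPolynomial.C (q i) * g i) p =
    ∑ i, q i * Pool.Agent.Y120.GH.vv (k := 1) (δ := d) (r := fun _ => r) (B := fun _ => B) (fun _ => a) (fun _ => M)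
      (fun _ => t) (g i) p := by
  classical
  unfold Pool.Agent.Y120.GH.vv
  set S : Finset ((Σ _ : Fin 1, Option (Fin r)) →₀ ℕ) := (∑ i, MvPolynomial.C (q i) * g i).support ∪
    Finset.univ.biUnion fun i => (g i).support with hS
  have h1 : ∀ (f : MvPolynomial (Σ _ : Fin 1, Option (Fin r)) ℂ) (w : ((Σ _ : Fin 1, Option (Fin r)) →₀ ℕ) → ℂ),
      f.support ⊆ S → ∑ s ∈ f.support, f.coeff s * w s = ∑ s ∈ S, f.coeff s * w s := by
    intro f w hf
    refine Finset.sum_subset hf fun s _ hs => ?_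
    rw [MvPolynomial.notMem_support_iff] at hs
    rw [hs, zero_mul]
  rw [h1 _ _ Finset.subset_union_left]
  have h2 : ∀ i, ∑ s ∈ (g i).support, (g i).coeff s * ∏ j, ((cs (k := 1) (δ := d) (r := fun _ => r) (B := fun _ => B)
      (fun _ => a) (fun _ => M) (fun _ => t) s j (p j) : ℚ) : ℂ) = ∑ s ∈ S, (g i).coeff s * ∏ j, ((cs (k := 1) (δ := d)
        (r := fun _ => r) (B := fun _ => B) (fun _ => a) (fun _ => M) (fun _ => t) s j (p j) : ℚ) : ℂ) := fun i =>
    h1 _ _ ((Finset.subset_biUnion_of_mem (fun i => (g i).support) (Finset.mem_univ i)).trans Finset.subset_union_right)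
  simp only [h2, Finset.mul_sum]
  rw [Finset.sum_comm]
  refine Finset.sum_congr rfl fun s _ => ?_
  rw [MvPolynomial.coeff_sum, Finset.sum_mul]
  refine Finset.sum_congr rfl fun i _ => ?_
  rw [MvPolynomial.coeff_C_mul, mul_assoc]

/-- the expansion at an arbitrary point -/
theorem Cp_expand {z : Fin r → ℂ} {l x : ℂ}
    (hz : ∀ b, (a.map (Int.castRingHom ℂ)).eval x * yw z b = ∑ β : B, ((M b β).map (Int.castRingHom ℂ)).eval x * yw z β.1)
    (g : MvPolynomial (Σ _ : Fin 1, Option (Fin r)) ℂ) (hg : g.totalDegree ≤ d) :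
    (a.map (Int.castRingHom ℂ)).eval x * MvPolynomial.aeval (pt (r := fun _ => r) (fun _ => z) fun _ => l) g =
      ∑ p : B × Fin (d + 1), (Cp M g p).eval x * (yw z p.1.1 * l ^ (p.2 : ℕ)) := by
  classical
  rw [MvPolynomial.aeval_def, MvPolynomial.eval₂_eq', Finset.mul_sum]
  unfold Cp
  simp only [Polynomial.eval_finsetSum, Finset.sum_mul]
  rw [Finset.sum_comm]
  refine Finset.sum_congr rfl fun s hs => ?_
  have hdeg : (s.sum fun _ e => e) ≤ d := (MvPolynomial.le_totalDegree hs).trans hg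
  rw [Finsupp.sum_fintype _ _ (fun _ => rfl), Fintype.sum_sigma, Fin.sum_univ_one, Fintype.sum_option] at hdeg
  have h1 : ∑ j, s ⟨0, some j⟩ ≤ d := by omega
  have h2 : s ⟨0, none⟩ < d + 1 := by omega
  rw [Fintype.prod_sigma, Fin.prod_univ_one, Fintype.prod_option]
  show (a.map (Int.castRingHom ℂ)).eval x * (g.coeff s * (l ^ s ⟨0, none⟩ * ∏ j, z j ^ s ⟨0, some j⟩)) = _
  rw [← wd_spec h1 z]
  set b := wd r d fun j => s ⟨0, some j⟩ with hb
  have h3 : (a.map (Int.castRingHom ℂ)).eval x * (g.coeff s * (l ^ s ⟨0, none⟩ * yw z b)) =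
      g.coeff s * l ^ s ⟨0, none⟩ * ((a.map (Int.castRingHom ℂ)).eval x * yw z b) := by ring
  rw [h3, hz, Finset.mul_sum, Fintype.sum_prod_type]
  refine Finset.sum_congr rfl fun β _ => ?_
  rw [Finset.sum_eq_single (⟨s ⟨0, none⟩, h2⟩ : Fin (d + 1))]
  · rw [if_pos rfl, Polynomial.eval_mul, Polynomial.eval_C]
    ring
  · intro n _ hn
    rw [if_neg (fun h4 => hn (Fin.ext h4)), Polynomial.eval_zero, zero_mul]
  · intro h4
    exact absurd (Finset.mem_univ _) h4

end

end Pool.Agent.Y118.UL
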