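import Pool.Agent.Y118.UL.Lit

/-!
# The degree-bounded statement: from vanishing reduced coefficients to specialised functional relations
-/

set_option autoImplicit false
set_option maxHeartbeats 400000

open PowerSeries Filter Pool.Agent.Y113 Pool.Agent.Y120.GF Pool.Agent.Y120.GH

namespace Pool.Agent.Y118.UL

section
variable {r p m : ℕ}

/-- the functions `F_a(Ω, log x, h(x))` -/
noncomputable def fv (Ω : Fin p → ℂ) (h : Fin r → ℚ⟦X⟧) (F : Fin m → MvPolynomial (Fin p ⊕ Option (Fin r)) ℚ) (x : ℝ)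
    (a : Fin m) : ℂ :=
  MvPolynomial.aeval (Sum.elim Ω fun o => o.elim ((Real.log x : ℝ) : ℂ) fun i => ((ev (1 / x) (h i) : ℝ) : ℂ)) (F a)

/-- evaluation of polynomials over the algebraic numbers -/
noncomputable def evA (x : ℂ) : Polynomial (algebraicClosure ℚ ℂ) →+* ℂ :=
  (Polynomial.evalRingHom x).comp (Polynomial.mapRingHom (algebraMap (algebraicClosure ℚ ℂ) ℂ))

/-- functional relations -/
def FR (Ω : Fin p → ℂ) (h : Fin r → ℚ⟦X⟧) (F : Fin m → MvPolynomial (Fin p ⊕ Option (Fin r)) ℚ)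
    (R : MvPolynomial (Fin m) (Polynomial (algebraicClosure ℚ ℂ))) : Prop :=
  ∃ ε : ℝ, 0 < ε ∧ ∀ x : ℝ, 0 < x → x < ε → MvPolynomial.eval₂ (evA (x : ℂ)) (fv Ω h F x) R = 0

/-- the polynomials with constants substituted -/
noncomputable def gp (Ω : Fin p → ℂ) (F : Fin m → MvPolynomial (Fin p ⊕ Option (Fin r)) ℚ) (a : Fin m) :
    MvPolynomial (Σ _ : Fin 1, Option (Fin r)) ℂ :=
  MvPolynomial.aeval (Sum.elim (fun v => MvPolynomial.C (Ω v)) fun o => o.elim (-MvPolynomial.X ⟨0, none⟩)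
    fun i => MvPolynomial.X ⟨0, some i⟩) (F a)

lemma gp_eval (Ω : Fin p → ℂ) (F : Fin m → MvPolynomial (Fin p ⊕ Option (Fin r)) ℚ) (a : Fin m) (z : Fin r → ℂ) (l : ℂ) :
    MvPolynomial.aeval (pt (r := fun _ => r) (fun _ => z) fun _ => l) (gp Ω F a) =
      MvPolynomial.aeval (Sum.elim Ω fun o => o.elim (-l) z) (F a) := by
  have h1 : ((MvPolynomial.aeval (pt (r := fun _ => r) (fun _ : Fin 1 => z) fun _ => l) :
      MvPolynomial (Σ _ : Fin 1, Option (Fin r)) ℂ →ₐ[ℂ] ℂ).restrictScalars ℚ).comp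
      (MvPolynomial.aeval (Sum.elim (fun v => MvPolynomial.C (Ω v)) fun o => o.elim (-MvPolynomial.X ⟨0, none⟩)
    fun i => MvPolynomial.X ⟨0, some i⟩)) = MvPolynomial.aeval (Sum.elim Ω fun o : Option (Fin r) => o.elim (-l) z) := by
    refine MvPolynomial.algHom_ext fun i => ?_
    rcases i with v | _ | i
    · simp
    · simp [pt]
    · simp [pt]
  exact DFunLike.congr_fun h1 (F a)

lemma gp_deg (Ω : Fin p → ℂ) (F : Fin m → MvPolynomial (Fin p ⊕ Option (Fin r)) ℚ) (a : Fin m) {Δ : ℕ}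
    (hF : (F a).totalDegree ≤ Δ) : (gp Ω F a).totalDegree ≤ Δ := by
  unfold gp
  rw [← MvPolynomial.aeval_map_algebraMap ℂ _ (F a)]
  refine aeval_deg ((tdm _ _).trans hF) fun i => ?_
  rcases i with v | _ | i
  · show (MvPolynomial.C (Ω v)).totalDegree ≤ 1
    rw [MvPolynomial.totalDegree_C]
    exact Nat.zero_le _
  · show (-MvPolynomial.X (⟨0, none⟩ : Σ _ : Fin 1, Option (Fin r)) : MvPolynomial _ ℂ).totalDegree ≤ 1
    rw [MvPolynomial.totalDegree_neg, MvPolynomial.totalDegree_X]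
  · exact (MvPolynomial.totalDegree_X _).le

/-- from vanishing reduced coefficients to functional relations -/
theorem lit_core {h : Fin r → ℚ⟦X⟧} {C : ℝ} (hC : 0 ≤ C) (hh : ∀ j m, |((coeff m (h j) : ℚ) : ℝ)| ≤ C ^ (m + 1))
    (Ω : Fin p → ℂ) (F : Fin m → MvPolynomial (Fin p ⊕ Option (Fin r)) ℚ) (δ Δ : ℕ) (hF : ∀ a, (F a).totalDegree ≤ Δ)
    {B : Finset (Fin (δ * Δ) → Option (Fin r))} {a : Polynomial ℤ}
    {M : (Fin (δ * Δ) → Option (Fin r)) → B → Polynomial ℤ} (ha : a ≠ 0)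
    (hM : ∀ b, ps a * yw h b = ∑ β, ps (M b β) * yw h β.1) :
    ∃ N : ℕ, ∀ t : ℕ, N < t → ∀ K : IntermediateField ℚ ℂ, FiniteDimensional ℚ K → ∀ Q : MvPolynomial (Fin m) K,
      Q.totalDegree ≤ δ → sq t a ≠ 0 →
      Pool.Agent.Y120.GH.vv (k := 1) (δ := δ * Δ) (r := fun _ => r) (B := fun _ => B) (fun _ => a) (fun _ => M) (fun _ => t)
        (MvPolynomial.aeval (gp Ω F) Q) = 0 →
      MvPolynomial.map (algebraMap K ℂ) Q ∈ Submodule.span ℂ {P | ∃ R : MvPolynomial (Fin m)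
        (Polynomial (algebraicClosure ℚ ℂ)), R.totalDegree ≤ δ ∧ FR Ω h F R ∧
          P = MvPolynomial.map (evA (1 / (t : ℂ))) R} := by
  classical
  let Gm : Em m δ → MvPolynomial (Σ _ : Fin 1, Option (Fin r)) ℂ := fun μ => ∏ a, gp Ω F a ^ (μ.1 a : ℕ)
  have hGm : ∀ μ, (Gm μ).totalDegree ≤ δ * Δ := by
    intro μ
    refine (MvPolynomial.totalDegree_finsetProd _ _).trans ?_
    refine (Finset.sum_le_sum fun i _ => (MvPolynomial.totalDegree_pow _ _).trans
      (Nat.mul_le_mul_left _ (gp_deg Ω F i (hF i)))).trans ?_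
    rw [← Finset.sum_mul]
    exact Nat.mul_le_mul_right _ μ.2
  obtain ⟨N, hN⟩ := la fun (μ : Em m δ) (x : B × Fin (δ * Δ + 1)) => Cp M (Gm μ) x
  refine ⟨N, fun t ht K hK Q hQ hta hvv => ?_⟩
  let q : Em m δ → ℂ := fun μ => ((Q.coeff (ex μ) : K) : ℂ)
  have hqalg : ∀ μ, q μ ∈ algebraicClosure ℚ ℂ := by
    intro μ
    rw [mem_algebraicClosure_iff]
    have h1 : IsAlgebraic ℚ (Q.coeff (ex μ) : K) := Algebra.IsAlgebraic.isAlgebraic _
    exact h1.algebraMap
  have hexpQ : MvPolynomial.aeval (gp Ω F) Q = ∑ μ : Em m δ, MvPolynomial.C (q μ) * Gm μ := by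
    conv_lhs => rw [sum_ex Q hQ]
    rw [map_sum]
    refine Finset.sum_congr rfl fun μ _ => ?_
    rw [MvPolynomial.aeval_monomial, Finsupp.prod_fintype _ _ (fun _ => pow_zero _)]
    rfl
  obtain ⟨c, ρ, h1, h2⟩ := hN t ht q hqalg (by
    intro x
    have h3 := congrFun hvv (fun _ => x)
    rw [hexpQ, vv_sum, Pi.zero_apply] at h3
    have h4 : ∀ μ, (Cp M (Gm μ) x).eval (1 / (t : ℂ)) = _ := fun μ => Cp_vv a M t hta (Gm μ) x
    simp only [h4]
    have h5 : ∀ μ, q μ * (((sq t a : ℚ) : ℂ) * Pool.Agent.Y120.GH.vv (k := 1) (δ := δ * Δ) (r := fun _ => r)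
      (B := fun _ => B) (fun _ => a) (fun _ => M) (fun _ => t) (Gm μ) (fun _ => x)) = ((sq t a : ℚ) : ℂ) *
        (q μ * Pool.Agent.Y120.GH.vv (k := 1) (δ := δ * Δ) (r := fun _ => r)
      (B := fun _ => B) (fun _ => a) (fun _ => M) (fun _ => t) (Gm μ) (fun _ => x)) := fun μ => by ring
    simp only [h5]
    rw [← Finset.mul_sum, h3, mul_zero])
  -- the functional relations
  let Rr : Em m δ → MvPolynomial (Fin m) (Polynomial (algebraicClosure ℚ ℂ)) := fun ν =>
    ∑ μ, MvPolynomial.monomial (ex μ) (ρ ν μ)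
  have hmapR : ∀ ν (x : ℂ), MvPolynomial.map (evA x) (Rr ν) = ∑ μ, MvPolynomial.monomial (ex μ)
      (((ρ ν μ).map (algebraMap (algebraicClosure ℚ ℂ) ℂ)).eval x) := by
    intro ν x
    simp only [Rr]
    rw [map_sum]
    refine Finset.sum_congr rfl fun μ _ => ?_
    rw [MvPolynomial.map_monomial]
    rfl
  have hFR : ∀ ν, FR Ω h F (Rr ν) := by
    intro ν
    -- small `x`
    have ha0 : a.map (Int.castRingHom ℂ) ≠ 0 := (Polynomial.map_ne_zero_iff (Int.castRingHom ℂ).injective_int).2 ha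
    obtain ⟨ε, hε, hε2⟩ : ∃ ε : ℝ, 0 < ε ∧ ∀ x : ℝ, 0 < x → x < ε → (a.map (Int.castRingHom ℂ)).eval (x : ℂ) ≠ 0 := by
      let S : Finset ℝ := ((a.map (Int.castRingHom ℂ)).roots.toFinset.image fun z : ℂ => z.re).filter fun y => 0 < y
      by_cases hS : S.Nonempty
      · refine ⟨S.min' hS, (Finset.mem_filter.1 (S.min'_mem hS)).2, fun x hx hxe h0 => ?_⟩
        have hxS : x ∈ S := Finset.mem_filter.2 ⟨Finset.mem_image.2 ⟨(x : ℂ), Multiset.mem_toFinset.2
          ((Polynomial.mem_roots ha0).2 h0), Complex.ofReal_re x⟩, hx⟩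
        exact absurd (S.min'_le x hxS) (not_le.2 hxe)
      · refine ⟨1, one_pos, fun x hx _ h0 => hS ⟨x, ?_⟩⟩
        exact Finset.mem_filter.2 ⟨Finset.mem_image.2 ⟨(x : ℂ), Multiset.mem_toFinset.2
          ((Polynomial.mem_roots ha0).2 h0), Complex.ofReal_re x⟩, hx⟩
    refine ⟨min ε (1 / (C + 1)), lt_min hε (by positivity), fun x hx hxe => ?_⟩
    have hx1 : x < ε := lt_of_lt_of_le hxe (min_le_left _ _)
    have hx2 : x < 1 / (C + 1) := lt_of_lt_of_le hxe (min_le_right _ _)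
    have hC1 : (0 : ℝ) < C + 1 := by linarith
    have htx : C < 1 / x := by
      rw [lt_div_iff₀ hC1] at hx2
      rw [lt_div_iff₀ hx]
      nlinarith
    have ht0 : (0 : ℝ) < 1 / x := by positivity
    set z : Fin r → ℂ := fun i => ((ev (1 / x) (h i) : ℝ) : ℂ) with hz
    have hyw : ∀ b : Fin (δ * Δ) → Option (Fin r), Cv (1 / x) (yw h b) ∧ ((ev (1 / x) (yw h b) : ℝ) : ℂ) = yw z b :=
      fun b => ev_yw hC hh htx b
    have hps : ∀ P : Polynomial ℤ, ((ev (1 / x) (ps P) : ℝ) : ℂ) = (P.map (Int.castRingHom ℂ)).eval (x : ℂ) := by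
      intro P
      unfold ps
      rw [ev_coe, one_div_one_div]
      have e1 : (Int.castRingHom ℚ) = algebraMap ℤ ℚ := rfl
      rw [e1, Polynomial.aeval_map_algebraMap, Polynomial.eval_map]
      have e2 : ((Polynomial.aeval x P : ℝ) : ℂ) = Polynomial.aeval (x : ℂ) P := by
        have := Polynomial.aeval_algebraMap_apply ℂ x P
        exact this.symm
      rw [e2, Polynomial.aeval_def]
      rfl
    have hzz : ∀ b, (a.map (Int.castRingHom ℂ)).eval (x : ℂ) * yw z b =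
        ∑ β : B, ((M b β).map (Int.castRingHom ℂ)).eval (x : ℂ) * yw z β.1 := by
      intro b
      have e1 : ev (1 / x) (ps a * yw h b) = ∑ β : B, ev (1 / x) (ps (M b β) * yw h β.1) := by
        rw [hM b]
        exact Cv.ev_sum ht0 Finset.univ (fun β : B => ps (M b β) * yw h β.1) fun β _ =>
          (Cv.coe _).mul ht0 (hyw _).1
      have e3 : ∀ (P : Polynomial ℤ) (b : Fin (δ * Δ) → Option (Fin r)), ((ev (1 / x) (ps P * yw h b) : ℝ) : ℂ) =
          (P.map (Int.castRingHom ℂ)).eval (x : ℂ) * yw z b := by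
        intro P b
        have e4 : Cv (1 / x) (ps P) := Cv.coe _
        rw [Cv.ev_mul ht0 e4 (hyw b).1, Complex.ofReal_mul, hps, (hyw b).2]
      have e2 := congrArg (fun x : ℝ => (x : ℂ)) e1
      beta_reduce at e2
      rw [Complex.ofReal_sum, e3] at e2
      simp only [e3] at e2
      exact e2
    have hfv : ∀ i, fv Ω h F x i = MvPolynomial.aeval (pt (r := fun _ => r) (fun _ : Fin 1 => z)
        fun _ => ((-Real.log x : ℝ) : ℂ)) (gp Ω F i) := by
      intro i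
      rw [gp_eval]
      unfold fv
      congr 3
      funext o
      rcases o with _ | o
      · simp
      · rfl
    have hfG : ∀ μ : Em m δ, ∏ i, fv Ω h F x i ^ (μ.1 i : ℕ) = MvPolynomial.aeval (pt (r := fun _ => r)
        (fun _ : Fin 1 => z) fun _ => ((-Real.log x : ℝ) : ℂ)) (Gm μ) := by
      intro μ
      simp only [Gm]
      rw [map_prod]
      refine Finset.prod_congr rfl fun i _ => ?_
      rw [map_pow, hfv]
    have hval : MvPolynomial.eval₂ (evA (x : ℂ)) (fv Ω h F x) (Rr ν) = ∑ μ,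
        ((ρ ν μ).map (algebraMap (algebraicClosure ℚ ℂ) ℂ)).eval (x : ℂ) * ∏ i, fv Ω h F x i ^ (μ.1 i : ℕ) := by
      simp only [Rr]
      rw [MvPolynomial.eval₂_sum]
      refine Finset.sum_congr rfl fun μ _ => ?_
      rw [MvPolynomial.eval₂_monomial, Finsupp.prod_fintype _ _ (fun _ => pow_zero _)]
      rfl
    have h5 : (a.map (Int.castRingHom ℂ)).eval (x : ℂ) * MvPolynomial.eval₂ (evA (x : ℂ)) (fv Ω h F x) (Rr ν) = 0 := by
      rw [hval, Finset.mul_sum]
      have e1 : ∀ μ, (a.map (Int.castRingHom ℂ)).eval (x : ℂ) * (((ρ ν μ).map (algebraMap (algebraicClosure ℚ ℂ) ℂ)).eval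
          (x : ℂ) * ∏ i, fv Ω h F x i ^ (μ.1 i : ℕ)) = ∑ y : B × Fin (δ * Δ + 1),
            (((ρ ν μ).map (algebraMap (algebraicClosure ℚ ℂ) ℂ)).eval (x : ℂ) * (Cp M (Gm μ) y).eval (x : ℂ)) *
              (yw z y.1.1 * ((-Real.log x : ℝ) : ℂ) ^ (y.2 : ℕ)) := by
        intro μ
        rw [hfG, mul_left_comm, Cp_expand a M hzz (Gm μ) (hGm μ), Finset.mul_sum]
        refine Finset.sum_congr rfl fun y _ => ?_
        ring
      simp only [e1]
      rw [Finset.sum_comm]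
      refine Finset.sum_eq_zero fun y _ => ?_
      rw [← Finset.sum_mul]
      have e2 := congrArg (Polynomial.eval (x : ℂ)) (h1 ν y)
      rw [Polynomial.eval_finsetSum, Polynomial.eval_zero] at e2
      simp only [Polynomial.eval_mul] at e2
      rw [e2, zero_mul]
    exact (mul_eq_zero.1 h5).resolve_left (hε2 x hx hx1)
  have hfinal : MvPolynomial.map (algebraMap K ℂ) Q = ∑ ν, c ν • MvPolynomial.map (evA (1 / (t : ℂ))) (Rr ν) := by
    conv_lhs => rw [sum_ex Q hQ]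
    rw [map_sum]
    simp only [hmapR, Finset.smul_sum]
    rw [Finset.sum_comm]
    refine Finset.sum_congr rfl fun μ _ => ?_
    rw [MvPolynomial.map_monomial]
    have e1 : algebraMap K ℂ (Q.coeff (ex μ)) = ∑ ν, c ν *
        ((ρ ν μ).map (algebraMap (algebraicClosure ℚ ℂ) ℂ)).eval (1 / (t : ℂ)) := h2 μ
    rw [e1, map_sum]
    refine Finset.sum_congr rfl fun ν _ => ?_
    rw [MvPolynomial.smul_monomial, smul_eq_mul]
  rw [hfinal]
  refine Submodule.sum_mem _ fun ν _ => Submodule.smul_mem _ _ (Submodule.subset_span ⟨Rr ν, sum_ex_deg _, hFR ν, rfl⟩)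

end

end Pool.Agent.Y118.UL
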