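import Pool.Agent.Y118.UL.Lit2

/-!
# The degree-bounded statement in windows
-/

set_option autoImplicit false
set_option maxHeartbeats 400000

open PowerSeries Filter Pool.Agent.Y113 Pool.Agent.Y120.GF Pool.Agent.Y120.GH

namespace Pool.Agent.Y118.UL

section
variable {r p m : ℕ} {υ₁ : Type}

/-- the polynomials over `K` -/
noncomputable def FK (υ₁ : Type) (K : IntermediateField ℚ ℂ) (F : Fin m → MvPolynomial (Fin p ⊕ Option (Fin r)) ℚ)
    (a : Fin m) : MvPolynomial ((Fin p ⊕ υ₁) ⊕ Fin 1 × Option (Fin r)) K :=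
  MvPolynomial.aeval (Sum.elim (fun v => MvPolynomial.X (Sum.inl (Sum.inl v))) fun o =>
    o.elim (-MvPolynomial.X (Sum.inr (0, none))) fun i => MvPolynomial.X (Sum.inr (0, some i))) (F a)

lemma FK_deg (K : IntermediateField ℚ ℂ) (F : Fin m → MvPolynomial (Fin p ⊕ Option (Fin r)) ℚ) (a : Fin m) {Δ : ℕ}
    (hF : (F a).totalDegree ≤ Δ) : (FK υ₁ K F a).totalDegree ≤ Δ := by
  unfold FK
  rw [← MvPolynomial.aeval_map_algebraMap K _ (F a)]
  refine aeval_deg ((tdm _ _).trans hF) fun i => ?_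
  rcases i with v | _ | i
  · exact (MvPolynomial.totalDegree_X _).le
  · show (-MvPolynomial.X _ : MvPolynomial _ K).totalDegree ≤ 1
    rw [MvPolynomial.totalDegree_neg, MvPolynomial.totalDegree_X]
  · exact (MvPolynomial.totalDegree_X _).le

lemma FK_sbc (K : IntermediateField ℚ ℂ) (Ω : Fin p → ℂ) (w₁ : υ₁ → ℂ)
    (F : Fin m → MvPolynomial (Fin p ⊕ Option (Fin r)) ℚ) (Q : MvPolynomial (Fin m) K) :
    sbc (Sum.elim Ω w₁) (MvPolynomial.aeval (FK υ₁ K F) Q) = MvPolynomial.aeval (gp Ω F) Q := by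
  unfold sbc
  rw [← AlgHom.comp_apply]
  congr 1
  refine MvPolynomial.algHom_ext fun a => ?_
  rw [AlgHom.comp_apply, MvPolynomial.aeval_X, MvPolynomial.aeval_X]
  unfold FK gp
  have h1 : ((MvPolynomial.aeval (Sum.elim (fun v => MvPolynomial.C (Sum.elim Ω w₁ v)) fun a : Fin 1 × Option (Fin r) =>
      MvPolynomial.X (⟨a.1, a.2⟩ : Σ _ : Fin 1, Option (Fin r))) :
        MvPolynomial ((Fin p ⊕ υ₁) ⊕ Fin 1 × Option (Fin r)) K →ₐ[K] MvPolynomial (Σ _ : Fin 1, Option (Fin r)) ℂ).restrictScalars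
          ℚ).comp (MvPolynomial.aeval (Sum.elim (fun v => MvPolynomial.X (Sum.inl (Sum.inl v))) fun o : Option (Fin r) =>
    o.elim (-MvPolynomial.X (Sum.inr (0, none))) fun i => MvPolynomial.X (Sum.inr (0, some i)))) =
      MvPolynomial.aeval (Sum.elim (fun v => MvPolynomial.C (Ω v)) fun o : Option (Fin r) =>
        o.elim (-MvPolynomial.X ⟨0, none⟩) fun i => MvPolynomial.X ⟨0, some i⟩) := by
    refine MvPolynomial.algHom_ext fun i => ?_
    rcases i with v | _ | i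
    · simp
    · simp
    · simp
  exact DFunLike.congr_fun h1 (F a)

lemma FK_eval (K : IntermediateField ℚ ℂ) (Ω : Fin p → ℂ) (w₁ : υ₁ → ℂ) (y : Fin 1 × Option (Fin r) → ℂ)
    (F : Fin m → MvPolynomial (Fin p ⊕ Option (Fin r)) ℚ) (Q : MvPolynomial (Fin m) K) :
    MvPolynomial.aeval (Sum.elim (Sum.elim Ω w₁) y) (MvPolynomial.aeval (FK υ₁ K F) Q) =
      MvPolynomial.aeval (fun a => MvPolynomial.aeval (Sum.elim Ω fun o => o.elim (-y (0, none)) fun i => y (0, some i))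
        (F a)) Q := by
  rw [← AlgHom.comp_apply]
  congr 1
  refine MvPolynomial.algHom_ext fun a => ?_
  rw [AlgHom.comp_apply, MvPolynomial.aeval_X, MvPolynomial.aeval_X]
  unfold FK
  have h1 : ((MvPolynomial.aeval (Sum.elim (Sum.elim Ω w₁) y) :
        MvPolynomial ((Fin p ⊕ υ₁) ⊕ Fin 1 × Option (Fin r)) K →ₐ[K] ℂ).restrictScalars
          ℚ).comp (MvPolynomial.aeval (Sum.elim (fun v => MvPolynomial.X (Sum.inl (Sum.inl v))) fun o : Option (Fin r) =>
    o.elim (-MvPolynomial.X (Sum.inr (0, none))) fun i => MvPolynomial.X (Sum.inr (0, some i)))) =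
      MvPolynomial.aeval (Sum.elim Ω fun o : Option (Fin r) => o.elim (-y (0, none)) fun i => y (0, some i)) := by
    refine MvPolynomial.algHom_ext fun i => ?_
    rcases i with v | _ | i
    · simp
    · simp
    · simp
  exact DFunLike.congr_fun h1 (F a)

end

/-- the degree-bounded statement in windows -/
theorem lit {r : ℕ} {h : Fin r → ℚ⟦X⟧} {T : Polynomial ℤ} {A : Fin r → Fin r → Polynomial ℤ} (hT : T ≠ 0)
    (hode : ∀ i, ps T * d⁄dX ℚ (h i) = ∑ j, ps (A i j) * h j)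
    (hsize : ∃ C : ℝ, ∀ i m, |((coeff m (h i) : ℚ) : ℝ)| ≤ C ^ (m + 1))
    (hden : ∃ C : ℝ, ∀ m, ∃ d : ℕ, 0 < d ∧ (d : ℝ) ≤ C ^ (m + 1) ∧ ∀ i, ∀ j ≤ m, ∃ a : ℤ, (d : ℚ) * coeff j (h i) = a)
    (hgal : ∃ C : ℝ, ∀ m, ∃ d : ℕ, 0 < d ∧ (d : ℝ) ≤ C ^ (m + 1) ∧ ∀ s ≤ m, ∀ i j, ∃ H : Polynomial ℤ,
      (d : Polynomial ℤ) * itm T A s i j = (s.factorial : Polynomial ℤ) * H)
    (hqu : QU0 T A) (conn : Conn h) :
    ∃ G0 : ℕ, ∀ G : ℕ, G0 ≤ G → ∀ (p : ℕ) (Ω : Fin p → ℂ) (m : ℕ) (F : Fin m → MvPolynomial (Fin p ⊕ Option (Fin r)) ℚ)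
      (D δ : ℕ), ∃ E : ℕ, ∀ H t : ℕ, (H + 2) ^ E ≤ t → (∀ u ≤ H, G * u < t) ∧
      ∃ S : Finset ℕ, (S.card : Cardinal) ≤ Algebra.trdeg ℚ (IntermediateField.adjoin ℚ (Set.range Ω)) + 1 ∧
        ((∀ a, Sum.inr none ∉ (F a).vars) →
          (S.card : Cardinal) ≤ Algebra.trdeg ℚ (IntermediateField.adjoin ℚ (Set.range Ω))) ∧
        ∀ u : ℕ, 1 ≤ u → u ≤ H → u ∉ S →
        ∀ K : IntermediateField ℚ ℂ, FiniteDimensional ℚ K → Module.finrank ℚ K ≤ D →
        ∀ Q : MvPolynomial (Fin m) K, Q.totalDegree ≤ δ →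
        MvPolynomial.aeval (fv Ω h F (1 / ((t - G * u : ℕ) : ℝ))) Q = 0 →
        MvPolynomial.map (algebraMap K ℂ) Q ∈ Submodule.span ℂ {P | ∃ R : MvPolynomial (Fin m)
          (Polynomial (algebraicClosure ℚ ℂ)), R.totalDegree ≤ δ ∧ FR Ω h F R ∧
            P = MvPolynomial.map (evA (1 / ((t - G * u : ℕ) : ℂ))) R} := by
  classical
  obtain ⟨R, hfam⟩ := fam hT hode hsize hden hgal hqu
  obtain ⟨I, hI, hI2⟩ := exists_free h
  refine ⟨R + 1, fun G hG p Ω m F D δ => ?_⟩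
  have hnr := norel hsize hI hfam (show 1 ≤ G by omega) (show R ≤ G by omega)
  obtain ⟨T0, hT0, hT1⟩ := exists_T Ω
  obtain ⟨C', hC'⟩ := hsize
  have hC : 0 ≤ |C'| := abs_nonneg _
  have hh : ∀ j m, |((coeff m (h j) : ℚ) : ℝ)| ≤ |C'| ^ (m + 1) := fun j m => (hC' j m).trans (by
    rw [← abs_pow]
    exact le_abs_self _)
  obtain ⟨Δ, hΔ⟩ : ∃ Δ : ℕ, ∀ a, (F a).totalDegree ≤ Δ :=
    ⟨∑ a, (F a).totalDegree, fun a => Finset.single_le_sum (f := fun a => (F a).totalDegree) (fun _ _ => Nat.zero_le _)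
      (Finset.mem_univ a)⟩
  obtain ⟨B, -, hLI, a, M, ha, hM⟩ := max_li' (fun b : Fin (δ * Δ) → Option (Fin r) => yw h b) ∅ (by simp)
  obtain ⟨N, hN⟩ := lit_core hC hh Ω F δ Δ hΔ ha hM
  have hlarge : ∀ H t : ℕ, (H + 2) ^ (G + N + 2) ≤ t → ∀ u ≤ H, G * u + N < t := by
    intro H t ht u hu
    have h2 : G + N + 1 + 1 ≤ 2 ^ (G + N + 1) := by
      have := Nat.lt_two_pow_self (n := G + N + 1)
      omega
    have h4 : 2 ^ (G + N + 1) * (H + 2) ≤ (H + 2) ^ (G + N + 2) := by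
      rw [pow_succ (H + 2)]
      exact Nat.mul_le_mul_right _ (Nat.pow_le_pow_left (by omega) _)
    have h3 : (G + N + 2) * (H + 2) ≤ t := (Nat.mul_le_mul_right _ h2).trans (h4.trans ht)
    have h5 : G * u ≤ G * H := Nat.mul_le_mul_left _ hu
    nlinarith
  by_cases hnl : ∀ a, Sum.inr none ∉ (F a).vars
  · -- no logarithms
    obtain ⟨E1, hE1⟩ := abs_vv (υ₀ := Fin p) (υ₁ := Fin 0) conn hI hI2 hC hh hnr Ω T0 hT1 none 1 D (δ * Δ) hLI ha hM
    refine ⟨E1 + (G + N + 2), fun H t ht => ⟨fun u hu => ?_, ?_⟩⟩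
    · have := hlarge H t ((Nat.pow_le_pow_right (by omega) (by omega)).trans ht) u hu
      omega
    obtain ⟨S, hS, hmain⟩ := hE1 H t ((Nat.pow_le_pow_right (by omega) (by omega)).trans ht) (fun i => i.elim0)
    have hcard : (S.card : Cardinal) ≤ Algebra.trdeg ℚ (IntermediateField.adjoin ℚ (Set.range Ω)) := by
      have h1 : (S.card : Cardinal) ≤ (T0.card : Cardinal) := by
        rw [Fintype.card_fin, add_zero] at hS
        exact_mod_cast hS
      exact h1.trans hT0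
    refine ⟨S, hcard.trans (by simp), fun _ => hcard, fun u hu1 hu2 huS K hK hKD Q hQ hQ0 => ?_⟩
    have hdeg : (MvPolynomial.aeval (FK (Fin 0) K F) Q).totalDegree ≤ δ * Δ :=
      aeval_deg' hQ fun a => FK_deg K F a (hΔ a)
    obtain ⟨h1, h2⟩ := hmain (fun _ => u) (fun i j _ => Subsingleton.elim i j) (fun _ => ⟨hu1, hu2, huS⟩) K hK hKD
      (MvPolynomial.aeval (FK (Fin 0) K F) Q) hdeg (by
        rw [FK_eval, ← hQ0]
        congr 2
        funext b
        unfold fv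
        refine MvPolynomial.eval₂Hom_congr' rfl ?_ rfl
        intro i hi _
        rcases i with v | _ | i
        · rfl
        · exact absurd hi (hnl b)
        · show vl G h t u (some i) = ((ev (1 / (1 / ((t - G * u : ℕ) : ℝ))) (h i) : ℝ) : ℂ)
          rw [one_div_one_div]
          rfl)
    rw [FK_sbc] at h2
    have h3 := hN (t - G * u) (by
      have := hlarge H t ((Nat.pow_le_pow_right (by omega) (by omega)).trans ht) u hu2
      omega) K hK Q hQ (h1 0) h2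
    exact h3
  · obtain ⟨E1, hE1⟩ := abs_vv (υ₀ := Fin p) (υ₁ := Unit) conn hI hI2 hC hh hnr Ω T0 hT1 (some ()) 1 D (δ * Δ) hLI ha hM
    refine ⟨E1 + (G + N + 2), fun H t ht => ⟨fun u hu => ?_, ?_⟩⟩
    · have := hlarge H t ((Nat.pow_le_pow_right (by omega) (by omega)).trans ht) u hu
      omega
    obtain ⟨S, hS, hmain⟩ := hE1 H t ((Nat.pow_le_pow_right (by omega) (by omega)).trans ht)
      (fun _ => ((Real.log t : ℝ) : ℂ))
    have hcard : (S.card : Cardinal) ≤ Algebra.trdeg ℚ (IntermediateField.adjoin ℚ (Set.range Ω)) + 1 := by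
      have h1 : (S.card : Cardinal) ≤ ((T0.card + 1 : ℕ) : Cardinal) := by
        rw [Fintype.card_unit] at hS
        exact_mod_cast hS
      refine h1.trans ?_
      rw [Nat.cast_add, Nat.cast_one]
      exact add_le_add hT0 le_rfl
    refine ⟨S, hcard, fun h => absurd h hnl, fun u hu1 hu2 huS K hK hKD Q hQ hQ0 => ?_⟩
    have hdeg : (MvPolynomial.aeval (FK Unit K F) Q).totalDegree ≤ δ * Δ :=
      aeval_deg' hQ fun a => FK_deg K F a (hΔ a)
    have hGu := hlarge H t ((Nat.pow_le_pow_right (by omega) (by omega)).trans ht) u hu2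
    have hlog : ((Real.log t : ℝ) : ℂ) + vl G h t u none = ((Real.log (t - G * u : ℕ) : ℝ) : ℂ) := by
      have h6 : G * u < t := by omega
      have h7 : (0 : ℝ) < t := by
        have : 0 < t := by omega
        exact_mod_cast this
      have h8 : ((G * u : ℕ) : ℝ) < t := by exact_mod_cast h6
      show ((Real.log t : ℝ) : ℂ) + ((Real.log (1 - ((G * u : ℕ) : ℝ) / t) : ℝ) : ℂ) = _
      rw [← Complex.ofReal_add, ← Real.log_mul h7.ne' (by
        rw [sub_ne_zero]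
        intro h9
        rw [eq_comm, div_eq_one_iff_eq h7.ne'] at h9
        linarith)]
      congr 2
      rw [Nat.cast_sub h6.le]
      field_simp
    obtain ⟨h1, h2⟩ := hmain (fun _ => u) (fun i j _ => Subsingleton.elim i j) (fun _ => ⟨hu1, hu2, huS⟩) K hK hKD
      (MvPolynomial.aeval (FK Unit K F) Q) hdeg (by
        rw [FK_eval, ← hQ0]
        congr 2
        funext b
        unfold fv
        congr 3
        funext o
        rcases o with _ | i
        · show -(((Real.log t : ℝ) : ℂ) + vl G h t u none) = ((Real.log (1 / ((t - G * u : ℕ) : ℝ)) : ℝ) : ℂ)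
          rw [hlog, one_div, Real.log_inv]
          push_cast
          rfl
        · show vl G h t u (some i) = ((ev (1 / (1 / ((t - G * u : ℕ) : ℝ))) (h i) : ℝ) : ℂ)
          rw [one_div_one_div]
          rfl)
    rw [FK_sbc] at h2
    exact hN (t - G * u) (by omega) K hK Q hQ (h1 0) h2

end Pool.Agent.Y118.UL
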