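import Pool.Agent.Y118.UL.Fam
import Pool.Agent.Y118.UL.Abs

/-!
# The free coordinates of a family of G-functions have no relations of bounded degree
-/

set_option autoImplicit false
set_option maxHeartbeats 400000

open PowerSeries Pool.Agent.Y113 Pool.Agent.Y120.GF Pool.Agent.Y120.GH

namespace Pool.Agent.Y118.UL

variable {r : ℕ}

/-- the values at the shift `G g`: the logarithm and the functions -/
noncomputable def vl (G : ℕ) (h : Fin r → ℚ⟦X⟧) (t g : ℕ) : Option (Fin r) → ℂ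
  | none => ((Real.log (1 - ((G * g : ℕ) : ℝ) / t) : ℝ) : ℂ)
  | some j => ((ev ((t - G * g : ℕ) : ℝ) (h j) : ℝ) : ℂ)

/-- a maximal algebraically independent subfamily -/
lemma exists_free (h : Fin r → ℚ⟦X⟧) : ∃ I : Finset (Fin r), AlgebraicIndependent (Polynomial ℚ) (fun i : I => h i) ∧
    ∀ s ∉ I, ¬ AlgebraicIndependent (Polynomial ℚ) (fun o : Option I => o.elim (h s) fun i => h i) := by
  classical
  let P : Finset (Fin r) → Prop := fun I => AlgebraicIndependent (Polynomial ℚ) (fun i : I => h i)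
  have hinj : Function.Injective (algebraMap (Polynomial ℚ) ℚ⟦X⟧) := by
    intro a b hab
    rw [PowerSeries.algebraMap_apply', PowerSeries.algebraMap_apply'] at hab
    simpa using hab
  have hP0 : P ∅ := by
    have : IsEmpty (∅ : Finset (Fin r)) := ⟨fun x => absurd x.2 (Finset.notMem_empty _)⟩
    exact algebraicIndependent_empty_type_iff.2 hinj
  obtain ⟨I, hI, hmax⟩ := Finset.exists_max_image (Finset.univ.filter P) Finset.card
    ⟨∅, Finset.mem_filter.2 ⟨Finset.mem_univ _, hP0⟩⟩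
  rw [Finset.mem_filter] at hI
  refine ⟨I, hI.2, fun s hs hind => ?_⟩
  have h1 : P (insert s I) := by
    let φ : ↥(insert s I) → Option I := fun i => if h : (i : Fin r) ∈ I then some ⟨i, h⟩ else none
    have hφ : Function.Injective φ := by
      intro a b hab
      simp only [φ] at hab
      have ha := Finset.mem_insert.1 a.2
      have hb := Finset.mem_insert.1 b.2
      by_cases h1 : (a : Fin r) ∈ I <;> by_cases h2 : (b : Fin r) ∈ I
      · rw [dif_pos h1, dif_pos h2, Option.some_inj, Subtype.mk.injEq] at hab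
        exact Subtype.ext hab
      · rw [dif_pos h1, dif_neg h2] at hab
        exact absurd hab (by simp)
      · rw [dif_neg h1, dif_pos h2] at hab
        exact absurd hab (by simp)
      · exact Subtype.ext ((ha.resolve_right h1).trans (hb.resolve_right h2).symm)
    have h2 := hind.comp φ hφ
    have h3 : (fun o : Option I => o.elim (h s) fun i => h i) ∘ φ = fun i : ↥(insert s I) => h i := by
      funext i
      simp only [φ, Function.comp_apply]
      by_cases h4 : (i : Fin r) ∈ I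
      · rw [dif_pos h4]
        rfl
      · rw [dif_neg h4]
        have := (Finset.mem_insert.1 i.2).resolve_right h4
        show h s = h i
        rw [this]
    rw [h3] at h2
    exact h2
  have h2 := hmax (insert s I) (Finset.mem_filter.2 ⟨Finset.mem_univ _, h1⟩)
  rw [Finset.card_insert_of_notMem hs] at h2
  omega

/-- the values of the products -/
lemma ev_Fg {κ : Type} {n : ℕ} {y : κ → ℚ⟦X⟧} {C : ℝ} (hC : 1 ≤ C)
    (hy : ∀ i m, |((coeff m (y i) : ℚ) : ℝ)| ≤ C ^ (m + 1)) {t g : ℕ} (h : (g : ℝ) + C < t) (b : κ × Fin (n + 1)) :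
    ev t (Fg (n + 1) y g b) = ev ((t - g : ℕ) : ℝ) (y b.1) * (1 / ((b.2 : ℕ).factorial : ℝ) *
      Real.log (1 - g / t) ^ (b.2 : ℕ)) := by
  have hg0 : (0 : ℝ) ≤ g := by positivity
  have ht0 : (0 : ℝ) < t := by linarith
  have htg : (g : ℝ) < t := by linarith
  have hcast : ((t - g : ℕ) : ℝ) = (t : ℝ) - g := by
    rw [Nat.cast_sub (by exact_mod_cast htg.le)]
  have hval : ∀ i, ev t (sf g (y i)) = ev ((t - g : ℕ) : ℝ) (y i) := by
    intro i
    have h1 := ou_shift (by linarith) (hy i) g (t := ((t : ℝ) : ℂ)) (by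
      rw [Complex.norm_real, Real.norm_of_nonneg ht0.le]
      exact h)
    have h2 : (((t : ℝ) : ℂ)) - (g : ℂ) = ((((t - g : ℕ) : ℝ)) : ℂ) := by
      rw [hcast]
      push_cast
      ring
    rw [h2, ou_ev, ou_ev] at h1
    exact_mod_cast h1
  have hsub : ∀ i, Cv (t : ℝ) (sf g (y i)) := fun i => cx_sf_cv (by linarith) (hy i) g h
  have h1 : Cv (t : ℝ) (yQ g b.2) := by
    rw [yQ]
    exact (Cv.C _).mul ht0 ((lg_cv (by linarith)).pow ht0 _)
  rw [Fg, Cv.ev_mul ht0 (hsub _) h1, ev_yQ htg, hval]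

/-- the exponents -/
def Mon (δ : ℕ) (I : Finset (Fin r)) : Finset (Fin r → ℕ) :=
  (Fintype.piFinset fun _ : Fin r => Finset.range (δ + 1)).filter fun m => (∀ j, j ∉ I → m j = 0) ∧ ∑ j, m j ≤ δ

lemma mem_Mon {δ : ℕ} {I : Finset (Fin r)} {m : Fin r → ℕ} : m ∈ Mon δ I ↔ (∀ j, j ∉ I → m j = 0) ∧ ∑ j, m j ≤ δ := by
  unfold Mon
  rw [Finset.mem_filter, Fintype.mem_piFinset]
  constructor
  · exact fun h => h.2
  · refine fun h => ⟨fun j => ?_, h⟩
    have h1 := Finset.single_le_sum (f := m) (fun _ _ => Nat.zero_le _) (Finset.mem_univ j)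
    rw [Finset.mem_range]
    have := h.2
    omega

lemma wd_inj {δ : ℕ} {I : Finset (Fin r)} : Set.InjOn (wd r δ) (Mon δ I : Set (Fin r → ℕ)) := by
  intro m hm m' hm' h
  rw [Finset.mem_coe, mem_Mon] at hm hm'
  have h1 := wd_spec hm.2 (fun j => (MvPolynomial.X j : MvPolynomial (Fin r) ℚ))
  have h2 := wd_spec hm'.2 (fun j => (MvPolynomial.X j : MvPolynomial (Fin r) ℚ))
  rw [h, h2] at h1
  have h3 : ∀ u : Fin r → ℕ, ∏ i, (MvPolynomial.X i : MvPolynomial (Fin r) ℚ) ^ u i =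
      MvPolynomial.monomial (Finsupp.equivFunOnFinite.symm u) 1 := by
    intro u
    rw [MvPolynomial.monomial_eq, MvPolynomial.C_1, one_mul, Finsupp.prod_fintype _ _ (fun _ => pow_zero _)]
    rfl
  rw [h3, h3] at h1
  have h4 := (MvPolynomial.monomial_left_injective (one_ne_zero (α := ℚ))) h1
  exact (Finsupp.equivFunOnFinite.symm.injective h4).symm

/-- the restricted exponents -/
noncomputable def rs (I : Finset (Fin r)) (m : Fin r → ℕ) : I →₀ ℕ := Finsupp.equivFunOnFinite.symm fun i => m i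

lemma rs_inj {δ : ℕ} {I : Finset (Fin r)} : Set.InjOn (rs I) (Mon δ I : Set (Fin r → ℕ)) := by
  intro m hm m' hm' h
  rw [Finset.mem_coe, mem_Mon] at hm hm'
  have h1 := Finsupp.equivFunOnFinite.symm.injective h
  funext j
  by_cases hj : j ∈ I
  · exact congrFun h1 ⟨j, hj⟩
  · rw [hm.1 j hj, hm'.1 j hj]

lemma prod_rs {δ : ℕ} {I : Finset (Fin r)} {m : Fin r → ℕ} (hm : m ∈ Mon δ I) {K : Type} [CommMonoid K] (z : Fin r → K) :
    ∏ j, z j ^ m j = ∏ i : I, z i ^ m i := by
  rw [mem_Mon] at hm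
  rw [← Finset.prod_subset (Finset.subset_univ I), ← Finset.prod_coe_sort]
  intro j _ hj
  rw [hm.1 j hj, pow_zero]

/-- linear independence of the words of the monomials in the free coordinates -/
lemma li_B0 {h : Fin r → ℚ⟦X⟧} {I : Finset (Fin r)} (hI : AlgebraicIndependent (Polynomial ℚ) (fun i : I => h i)) (δ : ℕ)
    (c : (Fin δ → Option (Fin r)) → Polynomial ℚ) (hc : ∑ i ∈ (Mon δ I).image (wd r δ), (c i : ℚ⟦X⟧) * yw h i = 0) :
    ∀ i ∈ (Mon δ I).image (wd r δ), c i = 0 := by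
  classical
  rw [Finset.sum_image wd_inj] at hc
  let p : MvPolynomial I (Polynomial ℚ) := ∑ m ∈ Mon δ I, MvPolynomial.monomial (rs I m) (c (wd r δ m))
  have hp : MvPolynomial.aeval (fun i : I => h i) p = 0 := by
    rw [← hc]
    show MvPolynomial.aeval (fun i : I => h i) (∑ m ∈ Mon δ I, MvPolynomial.monomial (rs I m) (c (wd r δ m))) = _
    rw [map_sum]
    refine Finset.sum_congr rfl fun m hm => ?_
    rw [MvPolynomial.aeval_monomial, wd_spec (mem_Mon.1 hm).2, prod_rs hm, Finsupp.prod_fintype _ _ (fun _ => pow_zero _),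
      PowerSeries.algebraMap_apply']
    simp [rs]
  have hp0 := (algebraicIndependent_iff.1 hI) p hp
  intro b hb
  obtain ⟨m, hm, rfl⟩ := Finset.mem_image.1 hb
  have h1 := congrArg (MvPolynomial.coeff (rs I m)) hp0
  rw [MvPolynomial.coeff_zero, MvPolynomial.coeff_sum, Finset.sum_eq_single m] at h1
  · rwa [MvPolynomial.coeff_monomial, if_pos rfl] at h1
  · intro m' hm' hne
    rw [MvPolynomial.coeff_monomial, if_neg]
    intro h2
    exact hne (rs_inj (Finset.mem_coe.2 hm') (Finset.mem_coe.2 hm) h2)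
  · intro h2
    exact absurd hm h2

lemma wd_zero (δ : ℕ) : wd r δ (fun _ => 0) = fun _ => none := by
  have h1 := wd_spec (r := r) (δ := δ) (m := fun _ => 0) (by simp) (fun _ => (2 : ℕ))
  simp only [pow_zero, Finset.prod_const_one] at h1
  unfold yw at h1
  rw [Finset.prod_eq_one_iff] at h1
  funext j
  have h2 := h1 j (Finset.mem_univ j)
  rcases hb : wd r δ (fun _ => 0) j with _ | i
  · rfl
  · rw [hb] at h2
    simp at h2

theorem norel {h : Fin r → ℚ⟦X⟧} (hsize : ∃ C : ℝ, ∀ i m, |((coeff m (h i) : ℚ) : ℝ)| ≤ C ^ (m + 1))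
    {I : Finset (Fin r)} (hI : AlgebraicIndependent (Polynomial ℚ) (fun i : I => h i)) {R : ℕ}
    (hfam : ∀ (δ : ℕ) (B₀ : Finset (Fin δ → Option (Fin r))), (fun _ => none) ∈ B₀ →
      (∀ g : (Fin δ → Option (Fin r)) → Polynomial ℚ, ∑ i ∈ B₀, (g i : ℚ⟦X⟧) * yw h i = 0 → ∀ i ∈ B₀, g i = 0) →
      ∃ B : Finset (Fin δ → Option (Fin r)), B₀ ⊆ B ∧
        (∃ C : ℝ, 1 ≤ C ∧ ∀ (b : Fin δ → Option (Fin r)) m, |((coeff m (yw h b : ℚ⟦X⟧) : ℚ) : ℝ)| ≤ C ^ (m + 1)) ∧ ∀ N : ℕ,
        ∃ E : ℕ, ∀ H t : ℕ, (H + 2) ^ E ≤ t →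
        ∀ g : Fin N → ℕ, SepR R g → (∀ l, g l ≤ H) → LinearIndependent ℚ (fun b : Fin N → B × Fin (δ + 1) =>
          ∏ l, ev (t : ℝ) (Fg (δ + 1) (fun β : B => yw h β.1) (g l) (b l)))) {G : ℕ} (hG1 : 1 ≤ G) (hGR : R ≤ G) :
    NoRel (fun t g (i : Option I) => vl G h t g (i.map Subtype.val)) := by
  classical
  intro N δ
  obtain ⟨B, hBB, ⟨C, hC1, hC⟩, hB⟩ := hfam δ ((Mon δ I).image (wd r δ)) (by
    rw [← wd_zero δ]
    refine Finset.mem_image_of_mem _ ?_
    rw [mem_Mon]
    simp) (li_B0 hI δ)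
  obtain ⟨C₀, hC₀⟩ := hsize
  obtain ⟨E, hE⟩ := hB N
  obtain ⟨c, hc⟩ := pow_unbounded_of_one_lt (C + |C₀|) (show (1 : ℝ) < 2 by norm_num)
  refine ⟨(G + 1) * E + (G + 1 + c), ?_⟩
  intro H t ht g hg hgH P hP hP0
  have hGH : G * H + 2 ≤ (H + 2) ^ (G + 1) := by
    have h2 : G + 1 ≤ 2 ^ G := Nat.lt_two_pow_self
    have h3 : 2 ^ G ≤ (H + 2) ^ G := Nat.pow_le_pow_left (by omega) _
    rw [pow_succ]
    nlinarith
  have ht1 : (G * H + 2) ^ E ≤ t := by
    refine (Nat.pow_le_pow_left hGH _).trans ?_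
    rw [← pow_mul]
    exact (Nat.pow_le_pow_right (by omega) (by omega)).trans ht
  have ht2 : (G * H + 2) * 2 ^ c ≤ t := by
    refine le_trans ?_ ((Nat.pow_le_pow_right (by omega) (show G + 1 + c ≤ (G + 1) * E + (G + 1 + c) by omega)).trans ht)
    rw [pow_add]
    exact Nat.mul_le_mul hGH (Nat.pow_le_pow_left (by omega) _)
  have ht3 : G * H + 2 * 2 ^ c ≤ t := by
    have h9 : G * H ≤ G * H * 2 ^ c := Nat.le_mul_of_pos_right _ (by positivity)
    have h10 : (G * H + 2) * 2 ^ c = G * H * 2 ^ c + 2 * 2 ^ c := by ring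
    omega
  set g' : Fin N → ℕ := fun l => G * g l with hg'
  have hg'H : ∀ l, g' l ≤ G * H := fun l => Nat.mul_le_mul_left _ (hgH l).2
  have hbig : ∀ l, ((g' l : ℕ) : ℝ) + (C + |C₀|) < t := by
    intro l
    have h1 : g' l + 2 ^ c ≤ t := by
      have := hg'H l
      have : 0 < 2 ^ c := by positivity
      omega
    have h2 : ((g' l : ℕ) : ℝ) + 2 ^ c ≤ t := by exact_mod_cast h1
    linarith
  have hsep : SepR R g' := by
    refine ⟨fun l => hGR.trans (Nat.le_mul_of_pos_right _ (hgH l).1), fun l l' hll => ?_⟩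
    have h1 : g l ≠ g l' := fun h => hll (hg h)
    rcases Nat.lt_or_gt_of_ne h1 with h2 | h2
    · left
      have : G * (g l + 1) ≤ G * g l' := Nat.mul_le_mul_left _ h2
      rw [mul_add, mul_one] at this
      show G * g l + R ≤ G * g l'
      omega
    · right
      have : G * (g l' + 1) ≤ G * g l := Nat.mul_le_mul_left _ h2
      rw [mul_add, mul_one] at this
      show G * g l' + R ≤ G * g l
      omega
  have hLI := hE (G * H) t ht1 g' hsep hg'H
  -- the exponents
  let ms : ((Fin N × Option I) →₀ ℕ) → Fin N → Fin r → ℕ := fun s l j => if hj : j ∈ I then s (l, some ⟨j, hj⟩) else 0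
  have hdeg : ∀ s ∈ P.support, ∑ p, s p ≤ δ := by
    intro s hs
    have h1 := (MvPolynomial.le_totalDegree hs).trans hP
    rwa [Finsupp.sum_fintype _ _ (fun _ => rfl)] at h1
  have hdl : ∀ s ∈ P.support, ∀ l, s (l, none) + ∑ i : I, s (l, some i) ≤ δ := by
    intro s hs l
    refine le_trans ?_ (hdeg s hs)
    rw [Fintype.sum_prod_type, ← Fintype.sum_option (f := fun o => s (l, o))]
    exact Finset.single_le_sum (f := fun l => ∑ o, s (l, o)) (fun _ _ => Nat.zero_le _) (Finset.mem_univ l)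
  have hmsI : ∀ s l (i : I), ms s l i = s (l, some i) := by
    intro s l i
    show (if hj : (i : Fin r) ∈ I then s (l, some ⟨i, hj⟩) else 0) = _
    rw [dif_pos i.2]
  have hms : ∀ s ∈ P.support, ∀ l, ms s l ∈ Mon δ I := by
    intro s hs l
    rw [mem_Mon]
    have h0 : ∀ j, j ∉ I → ms s l j = 0 := fun j hj => dif_neg hj
    refine ⟨h0, ?_⟩
    rw [← Finset.sum_subset (Finset.subset_univ I) (fun j _ hj => h0 j hj), ← Finset.sum_coe_sort]
    simp only [hmsI]
    have := hdl s hs l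
    omega
  let bs : P.support → Fin N → B × Fin (δ + 1) := fun s l =>
    (⟨wd r δ (ms s l), hBB (Finset.mem_image_of_mem _ (hms s s.2 l))⟩, ⟨(s : (Fin N × Option I) →₀ ℕ) (l, none), by
      have := hdl s s.2 l
      omega⟩)
  have hbs : Function.Injective bs := by
    intro s s' hss
    apply Subtype.ext
    ext ⟨l, o⟩
    have h1 := congrFun hss l
    simp only [bs, Prod.mk.injEq, Subtype.mk.injEq, Fin.mk.injEq] at h1
    rcases o with _ | i
    · exact h1.2
    · have h2 := wd_inj (Finset.mem_coe.2 (hms s s.2 l)) (Finset.mem_coe.2 (hms s' s'.2 l)) h1.1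
      rw [← hmsI, ← hmsI, h2]
  have hLI2 := hLI.comp bs hbs
  -- the values
  have hval : ∀ s : P.support, ∏ p : Fin N × Option I, (vl G h t (g p.1) (p.2.map Subtype.val)) ^
      (s : (Fin N × Option I) →₀ ℕ) p = (((∏ l, (((s : (Fin N × Option I) →₀ ℕ) (l, none)).factorial : ℝ)) *
        ∏ l, ev (t : ℝ) (Fg (δ + 1) (fun β : B => yw h β.1) (g' l) (bs s l)) : ℝ) : ℂ) := by
    intro s
    rw [← Finset.prod_mul_distrib, Fintype.prod_prod_type, Complex.ofReal_prod]
    refine Finset.prod_congr rfl fun l _ => ?_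
    rw [Fintype.prod_option, ev_Fg hC1 (fun β m => hC β.1 m) (by
      have := hbig l
      have := abs_nonneg C₀
      linarith) (bs s l)]
    have h1 : (((ev ((t - g' l : ℕ) : ℝ) (yw h (wd r δ (ms s l))) : ℝ)) : ℂ) =
        ∏ i : I, vl G h t (g l) (some i.1) ^ (s : (Fin N × Option I) →₀ ℕ) (l, some i) := by
      have h2 := (ev_yw (C := |C₀|) (abs_nonneg _) (fun j m => (hC₀ j m).trans (by
        rw [← abs_pow]
        exact le_abs_self _)) (t := ((t - g' l : ℕ) : ℝ)) (by
          have h3 := hbig l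
          have h4 : g' l ≤ t := by
            have : ((g' l : ℕ) : ℝ) ≤ t := by
              have := abs_nonneg C₀
              linarith
            exact_mod_cast this
          rw [Nat.cast_sub h4]
          linarith) (wd r δ (ms s l))).2
      rw [h2, wd_spec (mem_Mon.1 (hms s s.2 l)).2, prod_rs (hms s s.2 l)]
      refine Finset.prod_congr rfl fun i _ => ?_
      rw [hmsI]
      rfl
    have h2 : vl G h t (g l) ((none : Option I).map Subtype.val) = ((Real.log (1 - ((g' l : ℕ) : ℝ) / t) : ℝ) : ℂ) := rfl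
    have h3 : (((s : (Fin N × Option I) →₀ ℕ) (l, none)).factorial : ℂ) ≠ 0 := by
      exact_mod_cast Nat.factorial_ne_zero _
    show vl G h t (g l) ((none : Option I).map Subtype.val) ^ (s : (Fin N × Option I) →₀ ℕ) (l, none) *
      ∏ i : I, vl G h t (g l) (some i.1) ^ (s : (Fin N × Option I) →₀ ℕ) (l, some i) = _
    rw [← h1, h2]
    show _ = (((((s : (Fin N × Option I) →₀ ℕ) (l, none)).factorial : ℝ) * (ev ((t - g' l : ℕ) : ℝ) (yw h (wd r δ (ms s l))) *
      (1 / (((s : (Fin N × Option I) →₀ ℕ) (l, none)).factorial : ℝ) *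
        Real.log (1 - ((g' l : ℕ) : ℝ) / t) ^ (s : (Fin N × Option I) →₀ ℕ) (l, none))) : ℝ) : ℂ)
    push_cast
    field_simp
  have hrel : ∑ s : P.support, (P.coeff s * ((∏ l, ((s : (Fin N × Option I) →₀ ℕ) (l, none)).factorial : ℕ) : ℚ)) •
      ∏ l, ev (t : ℝ) (Fg (δ + 1) (fun β : B => yw h β.1) (g' l) (bs s l)) = 0 := by
    have h1 : ((∑ s : P.support, (P.coeff s * ((∏ l, ((s : (Fin N × Option I) →₀ ℕ) (l, none)).factorial : ℕ) : ℚ)) •
        ∏ l, ev (t : ℝ) (Fg (δ + 1) (fun β : B => yw h β.1) (g' l) (bs s l)) : ℝ) : ℂ) = 0 := by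
      rw [← hP0, MvPolynomial.aeval_def, MvPolynomial.eval₂_eq', Complex.ofReal_sum,
        ← Finset.sum_coe_sort P.support]
      refine Finset.sum_congr rfl fun s _ => ?_
      rw [hval s, Rat.smul_def]
      push_cast
      rw [eq_ratCast]
      ring
    exact_mod_cast h1
  have h2 := (Fintype.linearIndependent_iff.1 hLI2) (fun s => P.coeff s *
    ((∏ l, ((s : (Fin N × Option I) →₀ ℕ) (l, none)).factorial : ℕ) : ℚ)) hrel
  by_contra hP1
  obtain ⟨s, hs⟩ := MvPolynomial.ne_zero_iff.1 hP1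
  have h3 := h2 ⟨s, MvPolynomial.mem_support_iff.2 hs⟩
  rcases mul_eq_zero.1 h3 with h4 | h4
  · exact hs h4
  · have h5 : (∏ l, ((s : (Fin N × Option I) →₀ ℕ) (l, none)).factorial : ℕ) ≠ 0 :=
      Finset.prod_ne_zero_iff.2 fun l _ => Nat.factorial_ne_zero _
    exact h5 (by exact_mod_cast h4)

end Pool.Agent.Y118.UL
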