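import Pool.Agent.Y118.UL.Rel

/-!
# The windows theorem for families of G-functions
-/

set_option autoImplicit false
set_option maxHeartbeats 400000

open PowerSeries Pool.Agent.Y113 Pool.Agent.Y120.GF Pool.Agent.Y120.GH

namespace Pool.Agent.Y118.UL

section sub
variable {σ ρ : Type*} {R : Type*} [CommRing R]

/-- a substitution of degree `1` does not increase the degree -/
theorem aeval_deg {Q : MvPolynomial σ R} {Δ : ℕ} (hQ : Q.totalDegree ≤ Δ) {L : σ → MvPolynomial ρ R}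
    (hL : ∀ i, (L i).totalDegree ≤ 1) : (MvPolynomial.aeval L Q).totalDegree ≤ Δ := by
  rw [MvPolynomial.aeval_def, MvPolynomial.eval₂_eq]
  refine MvPolynomial.totalDegree_finsetSum_le fun s hs => ?_
  refine (MvPolynomial.totalDegree_mul _ _).trans ?_
  rw [MvPolynomial.algebraMap_eq, MvPolynomial.totalDegree_C, zero_add]
  refine (MvPolynomial.totalDegree_finsetProd _ _).trans ?_
  refine (Finset.sum_le_sum fun i _ => (MvPolynomial.totalDegree_pow _ _).trans (Nat.mul_le_mul_left _ (hL i))).trans ?_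
  rw [← Finset.sum_mul, mul_one]
  exact (MvPolynomial.le_totalDegree hs).trans hQ

end sub

section glue
variable {κ ι : Type}

/-- adding the coordinates `none` -/
def gl (y : κ × ι → ℂ) (μ : κ → ℂ) : κ × Option ι → ℂ := fun a => a.2.elim (μ a.1) fun i => y (a.1, i)

lemma exists_sub (μ : κ → ℂ) (P : MvPolynomial (κ × Option ι) ℂ) : ∃ P' : MvPolynomial (κ × ι) ℂ, ∀ y,
    MvPolynomial.eval y P' = MvPolynomial.eval (gl y μ) P := by
  refine ⟨MvPolynomial.aeval (fun a : κ × Option ι => a.2.elim (MvPolynomial.C (μ a.1)) fun i => MvPolynomial.X (a.1, i)) P,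
    fun y => ?_⟩
  have h1 : (MvPolynomial.aeval y : MvPolynomial (κ × ι) ℂ →ₐ[ℂ] ℂ).comp (MvPolynomial.aeval
      (fun a : κ × Option ι => a.2.elim (MvPolynomial.C (μ a.1)) fun i => MvPolynomial.X (a.1, i))) =
      MvPolynomial.aeval (gl y μ) := by
    refine MvPolynomial.algHom_ext fun a => ?_
    obtain ⟨j, _ | i⟩ := a
    · simp [gl]
    · simp [gl]
  exact DFunLike.congr_fun h1 P

lemma exists_line (y : κ × ι → ℂ) (μ ν : κ → ℂ) (P : MvPolynomial (κ × Option ι) ℂ) : ∃ p : Polynomial ℂ, ∀ s,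
    p.eval s = MvPolynomial.eval (gl y fun j => μ j + s * (ν j - μ j)) P := by
  refine ⟨MvPolynomial.aeval (fun a : κ × Option ι => a.2.elim (Polynomial.C (μ a.1) + Polynomial.X *
    Polynomial.C (ν a.1 - μ a.1)) fun i => Polynomial.C (y (a.1, i))) P, fun s => ?_⟩
  have h1 : (Polynomial.aeval s : Polynomial ℂ →ₐ[ℂ] ℂ).comp (MvPolynomial.aeval
      (fun a : κ × Option ι => a.2.elim (Polynomial.C (μ a.1) + Polynomial.X *
    Polynomial.C (ν a.1 - μ a.1)) fun i => Polynomial.C (y (a.1, i)))) =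
      MvPolynomial.aeval (gl y fun j => μ j + s * (ν j - μ j)) := by
    refine MvPolynomial.algHom_ext fun a => ?_
    obtain ⟨j, _ | i⟩ := a
    · simp [gl]
    · simp [gl]
  exact DFunLike.congr_fun h1 P

/-- fixed additional coordinates -/
lemma irr_fix {Y : Set (κ × ι → ℂ)} (hY : Irr Y) (μ : κ → ℂ) : Irr {y' | ∃ y ∈ Y, y' = gl y μ} := by
  intro P Q h
  obtain ⟨P', hP'⟩ := exists_sub μ P
  obtain ⟨Q', hQ'⟩ := exists_sub μ Q
  rcases hY P' Q' (fun y hy => by
    rw [hP', hQ']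
    exact h _ ⟨y, hy, rfl⟩) with h1 | h1
  · left
    rintro _ ⟨y, hy, rfl⟩
    rw [← hP']
    exact h1 y hy
  · right
    rintro _ ⟨y, hy, rfl⟩
    rw [← hQ']
    exact h1 y hy

/-- free additional coordinates -/
lemma irr_free {Y : Set (κ × ι → ℂ)} (hY : Irr Y) : Irr {y' | ∃ y ∈ Y, ∃ μ, y' = gl y μ} := by
  intro P Q h
  by_contra hcon
  push Not at hcon
  obtain ⟨⟨_, ⟨y, hy, μ, rfl⟩, h1⟩, ⟨_, ⟨z, hz, ν, rfl⟩, h2⟩⟩ := hcon
  obtain ⟨p, hp⟩ := exists_line y μ ν P
  obtain ⟨q, hq⟩ := exists_line z μ ν Q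
  have hp0 : p ≠ 0 := by
    intro h0
    apply h1
    have h3 := hp 0
    rw [h0, Polynomial.eval_zero] at h3
    rw [h3]
    have h4 : (fun j => μ j + 0 * (ν j - μ j)) = μ := by
      funext j
      ring
    rw [h4]
  have hq0 : q ≠ 0 := by
    intro h0
    apply h2
    have h3 := hq 1
    rw [h0, Polynomial.eval_zero] at h3
    rw [h3]
    have h4 : (fun j => μ j + 1 * (ν j - μ j)) = ν := by
      funext j
      ring
    rw [h4]
  obtain ⟨s, hs⟩ := Infinite.exists_notMem_finset (p * q).roots.toFinset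
  have h3 : (p * q).eval s ≠ 0 := by
    intro h3
    exact hs (Multiset.mem_toFinset.2 ((Polynomial.mem_roots (mul_ne_zero hp0 hq0)).2 h3))
  rw [Polynomial.eval_mul] at h3
  obtain ⟨P', hP'⟩ := exists_sub (fun j => μ j + s * (ν j - μ j)) P
  obtain ⟨Q', hQ'⟩ := exists_sub (fun j => μ j + s * (ν j - μ j)) Q
  rcases hY P' Q' (fun x hx => by
    rw [hP', hQ']
    exact h _ ⟨x, hx, _, rfl⟩) with h4 | h4
  · apply left_ne_zero_of_mul h3
    rw [hp, ← hP']
    exact h4 y hy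
  · apply right_ne_zero_of_mul h3
    rw [hq, ← hQ']
    exact h4 z hz

end glue

variable {r : ℕ}

/-- the windows theorem -/
theorem win {h : Fin r → ℚ⟦X⟧} {T : Polynomial ℤ} {A : Fin r → Fin r → Polynomial ℤ} (hT : T ≠ 0)
    (hode : ∀ i, ps T * d⁄dX ℚ (h i) = ∑ j, ps (A i j) * h j)
    (hsize : ∃ C : ℝ, ∀ i m, |((coeff m (h i) : ℚ) : ℝ)| ≤ C ^ (m + 1))
    (hden : ∃ C : ℝ, ∀ m, ∃ d : ℕ, 0 < d ∧ (d : ℝ) ≤ C ^ (m + 1) ∧ ∀ i, ∀ j ≤ m, ∃ a : ℤ, (d : ℚ) * coeff j (h i) = a)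
    (hgal : ∃ C : ℝ, ∀ m, ∃ d : ℕ, 0 < d ∧ (d : ℝ) ≤ C ^ (m + 1) ∧ ∀ s ≤ m, ∀ i j, ∃ H : Polynomial ℤ,
      (d : Polynomial ℤ) * itm T A s i j = (s.factorial : Polynomial ℤ) * H)
    (hqu : QU0 T A) :
    ∃ G0 : ℕ, ∀ G : ℕ, G0 ≤ G → ∀ (p : ℕ) (Ω : Fin p → ℂ) (q k D d : ℕ), ∃ E : ℕ, ∀ H t : ℕ, (H + 2) ^ E ≤ t →
      (∀ u ≤ H, G * u < t) ∧ ∀ w : Fin q → ℂ,
      (∃ S : Finset ℕ, (S.card : Cardinal) ≤ Algebra.trdeg ℚ (IntermediateField.adjoin ℚ (Set.range Ω)) + q ∧
        ∀ u : Fin k → ℕ, Function.Injective u → (∀ j, 1 ≤ u j ∧ u j ≤ H ∧ u j ∉ S) →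
        ∀ Y : Set (Fin k × Fin r → ℂ), Irr Y → (∀ y ∈ Y, ∀ j, (fun i => y (j, i)) ∈ Vx h (1 / ((t - G * u j : ℕ) : ℚ))) →
        (fun a => ((ev ((t - G * u a.1 : ℕ) : ℝ) (h a.2) : ℝ) : ℂ)) ∈ Y →
        ∀ K : IntermediateField ℚ ℂ, FiniteDimensional ℚ K → Module.finrank ℚ K ≤ D →
        ∀ P : MvPolynomial ((Fin p ⊕ Fin q) ⊕ Fin k × Fin r) K, P.totalDegree ≤ d →
        MvPolynomial.aeval (Sum.elim (Sum.elim Ω w) fun a : Fin k × Fin r =>
          ((ev ((t - G * u a.1 : ℕ) : ℝ) (h a.2) : ℝ) : ℂ)) P = 0 →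
        ∀ y ∈ Y, MvPolynomial.aeval (Sum.elim (Sum.elim Ω w) y) P = 0) ∧
      (∃ S : Finset ℕ, (S.card : Cardinal) ≤ Algebra.trdeg ℚ (IntermediateField.adjoin ℚ (Set.range Ω)) + q + 1 ∧
        ∀ u : Fin k → ℕ, Function.Injective u → (∀ j, 1 ≤ u j ∧ u j ≤ H ∧ u j ∉ S) →
        ∀ Y : Set (Fin k × Fin r → ℂ), Irr Y → (∀ y ∈ Y, ∀ j, (fun i => y (j, i)) ∈ Vx h (1 / ((t - G * u j : ℕ) : ℚ))) →
        (fun a => ((ev ((t - G * u a.1 : ℕ) : ℝ) (h a.2) : ℝ) : ℂ)) ∈ Y →
        ∀ K : IntermediateField ℚ ℂ, FiniteDimensional ℚ K → Module.finrank ℚ K ≤ D →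
        ∀ P : MvPolynomial ((Fin p ⊕ Fin q) ⊕ Fin k × Option (Fin r)) K, P.totalDegree ≤ d →
        MvPolynomial.aeval (Sum.elim (Sum.elim Ω w) (gl (fun a : Fin k × Fin r =>
          ((ev ((t - G * u a.1 : ℕ) : ℝ) (h a.2) : ℝ) : ℂ)) fun j => ((Real.log (t - G * u j : ℕ) : ℝ) : ℂ))) P = 0 →
        ∀ y ∈ Y, ∀ μ : Fin k → ℂ, MvPolynomial.aeval (Sum.elim (Sum.elim Ω w) (gl y μ)) P = 0) := by
  classical
  obtain ⟨R, hfam⟩ := fam hT hode hsize hden hgal hqu
  obtain ⟨I, hI, hI2⟩ := exists_free h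
  obtain ⟨RR, hRR, hRR2⟩ := exists_R hI2
  refine ⟨R + 1, fun G hG p Ω q k D d => ?_⟩
  have hnr := norel hsize hI hfam (show 1 ≤ G by omega) (show R ≤ G by omega)
  obtain ⟨T0, hT0, hT1⟩ := exists_T Ω
  have key1 := absWin (υ₀ := Fin p) (υ₁ := Fin q) (vl G h) (Option.map (Subtype.val : I → Fin r))
    (fun t g => 1 / (((t - G * g : ℕ) : ℚ))) RR hRR hnr (small_x G) Ω T0 hT1 k D d
  have key2 := absWin (υ₀ := Fin p) (υ₁ := Option (Fin q)) (vl G h) (Option.map (Subtype.val : I → Fin r))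
    (fun t g => 1 / (((t - G * g : ℕ) : ℚ))) RR hRR hnr (small_x G) Ω T0 hT1 k D d
  obtain ⟨E1, hE1⟩ := key1
  obtain ⟨E2, hE2⟩ := key2
  refine ⟨E1 + E2 + (G + 1), fun H t ht => ⟨fun u hu => ?_, fun w => ⟨?_, ?_⟩⟩⟩
  · have h1 : (H + 2) ^ (G + 1) ≤ t := (Nat.pow_le_pow_right (by omega) (by omega)).trans ht
    have h2 : G + 1 ≤ 2 ^ G := Nat.lt_two_pow_self
    have h3 : 2 ^ G ≤ (H + 2) ^ G := Nat.pow_le_pow_left (by omega) _
    have h4 : (G + 1) * (H + 2) ≤ t := by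
      refine le_trans ?_ h1
      rw [pow_succ]
      exact Nat.mul_le_mul_right _ (h2.trans h3)
    have h5 : G * u ≤ G * H := Nat.mul_le_mul_left _ hu
    nlinarith
  · obtain ⟨S, hS, hmain⟩ := hE1 H t ((Nat.pow_le_pow_right (by omega) (by omega)).trans ht) w
    refine ⟨S, ?_, ?_⟩
    · have h1 : (S.card : Cardinal) ≤ ((T0.card + q : ℕ) : Cardinal) := by
        rw [Fintype.card_fin] at hS
        exact_mod_cast hS
      refine h1.trans ?_
      rw [Nat.cast_add]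
      exact add_le_add hT0 le_rfl
    · intro u hu huS Y hY hYV hval K hK1 hK2 P hP hP0 y hy
      set μ : Fin k → ℂ := fun j => ((Real.log (1 - ((G * u j : ℕ) : ℝ) / t) : ℝ) : ℂ) with hμ
      have hv : (fun a : Fin k × Option (Fin r) => vl G h t (u a.1) a.2) =
          gl (fun a : Fin k × Fin r => ((ev ((t - G * u a.1 : ℕ) : ℝ) (h a.2) : ℝ) : ℂ)) μ := by
        funext a
        obtain ⟨j, _ | i⟩ := a <;> rfl
      have hpoly : ∀ y' : Fin k × Option (Fin r) → ℂ, MvPolynomial.aeval (Sum.elim (Sum.elim Ω w) y')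
          (MvPolynomial.rename (Sum.map id fun a : Fin k × Fin r => (a.1, some a.2)) P) =
          MvPolynomial.aeval (Sum.elim (Sum.elim Ω w) fun a : Fin k × Fin r => y' (a.1, some a.2)) P := by
        intro y'
        rw [MvPolynomial.aeval_rename]
        congr 2
        funext a
        rcases a with a | a <;> rfl
      have h1 := hmain u hu huS {y' | ∃ y ∈ Y, y' = gl y μ} (irr_fix hY μ) ⟨_, hval, hv⟩ (by
        rintro _ ⟨z, hz, rfl⟩ j s
        exact hRR2 _ (fun s => gl z μ (j, s)) (hYV z hz j) s) K hK1 hK2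
        (MvPolynomial.rename (Sum.map id fun a : Fin k × Fin r => (a.1, some a.2)) P)
        ((MvPolynomial.totalDegree_rename_le _ _).trans hP) (by
        rw [hpoly]
        exact hP0) (gl y μ) ⟨y, hy, rfl⟩
      rw [hpoly] at h1
      exact h1
  · obtain ⟨S, hS, hmain⟩ := hE2 H t ((Nat.pow_le_pow_right (by omega) (by omega)).trans ht)
      (fun o => o.elim ((Real.log t : ℝ) : ℂ) w)
    refine ⟨S, ?_, ?_⟩
    · have h1 : (S.card : Cardinal) ≤ ((T0.card + (q + 1) : ℕ) : Cardinal) := by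
        rw [Fintype.card_option, Fintype.card_fin] at hS
        exact_mod_cast hS
      refine h1.trans ?_
      rw [Nat.cast_add, Nat.cast_add, Nat.cast_one, ← add_assoc]
      exact add_le_add (add_le_add hT0 le_rfl) le_rfl
    · intro u hu huS Y hY hYV hval K hK1 hK2 P hP hP0 y hy μ
      set μ0 : Fin k → ℂ := fun j => ((Real.log (1 - ((G * u j : ℕ) : ℝ) / t) : ℝ) : ℂ) with hμ0
      have hv : (fun a : Fin k × Option (Fin r) => vl G h t (u a.1) a.2) =
          gl (fun a : Fin k × Fin r => ((ev ((t - G * u a.1 : ℕ) : ℝ) (h a.2) : ℝ) : ℂ)) μ0 := by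
        funext a
        obtain ⟨j, _ | i⟩ := a <;> rfl
      let L : (Fin p ⊕ Fin q) ⊕ Fin k × Option (Fin r) → MvPolynomial ((Fin p ⊕ Option (Fin q)) ⊕ Fin k × Option (Fin r)) K :=
        Sum.elim (Sum.elim (fun i => MvPolynomial.X (Sum.inl (Sum.inl i))) fun i => MvPolynomial.X (Sum.inl (Sum.inr (some i))))
          fun a => a.2.elim (MvPolynomial.X (Sum.inl (Sum.inr none)) + MvPolynomial.X (Sum.inr (a.1, none)))
            fun i => MvPolynomial.X (Sum.inr (a.1, some i))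
      have hL : ∀ i, (L i).totalDegree ≤ 1 := by
        intro i
        rcases i with (i | i) | ⟨j, _ | i⟩
        · exact (MvPolynomial.totalDegree_X _).le
        · exact (MvPolynomial.totalDegree_X _).le
        · refine (MvPolynomial.totalDegree_add _ _).trans ?_
          rw [MvPolynomial.totalDegree_X, MvPolynomial.totalDegree_X, max_self]
        · exact (MvPolynomial.totalDegree_X _).le
      have hpoly : ∀ (y : Fin k × Fin r → ℂ) (ν : Fin k → ℂ), MvPolynomial.aeval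
          (Sum.elim (Sum.elim Ω fun o : Option (Fin q) => o.elim ((Real.log t : ℝ) : ℂ) w) (gl y ν)) (MvPolynomial.aeval L P) =
          MvPolynomial.aeval (Sum.elim (Sum.elim Ω w) (gl y fun j => ((Real.log t : ℝ) : ℂ) + ν j)) P := by
        intro y ν
        have h1 : ((MvPolynomial.aeval (Sum.elim (Sum.elim Ω fun o : Option (Fin q) => o.elim ((Real.log t : ℝ) : ℂ) w)
            (gl y ν)) : MvPolynomial ((Fin p ⊕ Option (Fin q)) ⊕ Fin k × Option (Fin r)) K →ₐ[K] ℂ)).comp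
            (MvPolynomial.aeval L) = MvPolynomial.aeval (Sum.elim (Sum.elim Ω w)
              (gl y fun j => ((Real.log t : ℝ) : ℂ) + ν j)) := by
          refine MvPolynomial.algHom_ext fun i => ?_
          rcases i with (i | i) | ⟨j, _ | i⟩
          · simp [L]
          · simp [L]
          · simp [L, gl]
          · simp [L, gl]
        exact DFunLike.congr_fun h1 P
      have hlog : ∀ j, ((Real.log t : ℝ) : ℂ) + μ0 j = ((Real.log (t - G * u j : ℕ) : ℝ) : ℂ) := by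
        intro j
        have h1 : (H + 2) ^ (G + 1) ≤ t := (Nat.pow_le_pow_right (by omega) (by omega)).trans ht
        have h2 : G + 1 ≤ 2 ^ G := Nat.lt_two_pow_self
        have h3 : 2 ^ G ≤ (H + 2) ^ G := Nat.pow_le_pow_left (by omega) _
        have h4 : (G + 1) * (H + 2) ≤ t := by
          refine le_trans ?_ h1
          rw [pow_succ]
          exact Nat.mul_le_mul_right _ (h2.trans h3)
        have h5 : G * u j ≤ G * H := Nat.mul_le_mul_left _ (huS j).2.1
        have h6 : G * u j < t := by nlinarith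
        have h7 : (0 : ℝ) < t := by
          have : 0 < t := by omega
          exact_mod_cast this
        have h8 : ((G * u j : ℕ) : ℝ) < t := by exact_mod_cast h6
        rw [hμ0]
        simp only
        rw [← Complex.ofReal_add, ← Real.log_mul h7.ne' (by
          rw [sub_ne_zero]
          intro h9
          rw [eq_comm, div_eq_one_iff_eq h7.ne'] at h9
          linarith)]
        congr 2
        rw [Nat.cast_sub h6.le]
        field_simp
      have h1 := hmain u hu huS {y' | ∃ y ∈ Y, ∃ μ, y' = gl y μ} (irr_free hY) ⟨_, hval, _, hv⟩ (by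
        rintro _ ⟨z, hz, ν, rfl⟩ j s
        exact hRR2 _ (fun s => gl z ν (j, s)) (hYV z hz j) s) K hK1 hK2 (MvPolynomial.aeval L P)
        (aeval_deg hP hL) (by
        rw [hv, hpoly]
        simp only [hlog]
        exact hP0) (gl y fun j => μ j - ((Real.log t : ℝ) : ℂ)) ⟨y, hy, _, rfl⟩
      rw [hpoly] at h1
      have h9 : (fun j => ((Real.log t : ℝ) : ℂ) + (μ j - ((Real.log t : ℝ) : ℂ))) = μ := by
        funext j
        ring
      rw [h9] at h1
      exact h1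

end Pool.Agent.Y118.UL
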