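import Pool.Agent.Y118.UL.Vli
import Pool.Agent.Y118.UL.Win

/-!
# Products of linearly independent families, relatively algebraically closed subfields of the ultrapower
-/

set_option autoImplicit false
set_option maxHeartbeats 400000

open PowerSeries Filter Pool.Agent.Y113 Pool.Agent.Y120.GF Pool.Agent.Y120.GH

namespace Pool.Agent.Y118.UL

/-- products of linearly independent families along a chain of fields -/
theorem prod_li {Ω : Type} [Field Ω] : ∀ (n : ℕ) (B : Fin n → Type) [∀ i, Fintype (B i)] (v : ∀ i, B i → Ω)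
    (F : Subfield Ω) (_ : ∀ i, ∃ L : Subfield Ω, F ≤ L ∧ (∀ i', i < i' → ∀ β, v i' β ∈ L) ∧
      ∀ c : B i → Ω, (∀ β, c β ∈ L) → ∑ β, c β * v i β = 0 → ∀ β, c β = 0)
    (c : (∀ i, B i) → Ω) (_ : ∀ b, c b ∈ F) (_ : ∑ b, c b * ∏ i, v i (b i) = 0), ∀ b, c b = 0 := by
  intro n
  induction n with
  | zero =>
    intro B _ v F _ c _ h0 b
    rw [Finset.sum_eq_single b (fun b' _ hb => absurd (Subsingleton.elim b' b) hb)
      (fun h => absurd (Finset.mem_univ _) h)] at h0
    simpa using h0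
  | succ n ih =>
    intro B _ v F hv c hc h0 b
    obtain ⟨L, hFL, hL1, hL2⟩ := hv 0
    have h1 : ∑ β, (∑ b : ∀ i : Fin n, B i.succ, c (Fin.cons β b) * ∏ i : Fin n, v i.succ (b i)) * v 0 β = 0 := by
      rw [← h0, ← (Fin.consEquiv B).sum_comp, Fintype.sum_prod_type]
      refine Finset.sum_congr rfl fun β _ => ?_
      rw [Finset.sum_mul]
      refine Finset.sum_congr rfl fun b _ => ?_
      have e1 : (Fin.consEquiv B) (β, b) = Fin.cons β b := rfl
      rw [Fin.prod_univ_succ, e1]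
      simp only [Fin.cons_zero, Fin.cons_succ]
      ring
    have h2 := hL2 _ (fun β => by
      refine L.sum_mem fun b _ => L.mul_mem (hFL (hc _)) (L.prod_mem fun i _ => hL1 _ (Fin.succ_pos i) _)) h1 (b 0)
    have h3 := ih (fun i => B i.succ) (fun i => v i.succ) F (fun i => by
      obtain ⟨L', h4, h5, h6⟩ := hv i.succ
      exact ⟨L', h4, fun i' hi' β => h5 i'.succ (Fin.succ_lt_succ_iff.2 hi') β, h6⟩)
      (fun b' => c (Fin.cons (b 0) b')) (fun _ => hc _) h2 (Fin.tail b)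
    rwa [Fin.cons_self_tail] at h3

/-- the field of the elements which are algebraic over `W` -/
noncomputable def clF (W : Set (U ℂ)) : Subfield (U ℂ) :=
  (algebraicClosure (IntermediateField.adjoin (U ℚ) W) (U ℂ)).toSubfield

lemma mem_clF {W : Set (U ℂ)} {c : U ℂ} : c ∈ clF W ↔ c ∈ MM.closure W := by
  rw [mem_cl, ← IntermediateField.isAlgebraic_adjoin_iff]
  exact mem_algebraicClosure_iff

lemma matE : (MM.E : Set (U ℂ)) = Set.univ := AlgebraicIndependent.matroid_e _ _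

lemma clF_mono {W W' : Set (U ℂ)} (h : W ⊆ W') : clF W ≤ clF W' := fun _ hx =>
  mem_clF.2 (MM.closure_subset_closure h (mem_clF.1 hx))

lemma sub_clF {W : Set (U ℂ)} {c : U ℂ} (h : c ∈ W) : c ∈ clF W :=
  mem_clF.2 (MM.subset_closure W (by rw [matE]; exact Set.subset_univ _) h)

lemma alg_clF {W : Set (U ℂ)} {c : U ℂ} (h : IsAlgebraic (U ℚ) c) : c ∈ clF W := by
  refine mem_algebraicClosure_iff.2 ?_
  exact h.tower_top _

lemma qc_clF {W : Set (U ℂ)} (c : U ℚ) : qc c ∈ clF W := alg_clF (isAlgebraic_algebraMap (A := U ℂ) c)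

/-- elements which are algebraic over `clF W` -/
lemma clF_alg {W : Set (U ℂ)} {c : U ℂ} (h : IsAlgebraic (clF W) c) : c ∈ clF W := by
  have h1 : IsAlgebraic (algebraicClosure (IntermediateField.adjoin (U ℚ) W) (U ℂ)) c := h
  refine mem_algebraicClosure_iff.2 ?_
  exact h1.restrictScalars _

/-- the free elements -/
lemma free_clF {κ : Type} (W : Set (U ℂ)) (z : κ → U ℂ) (h : ∀ a, z a ∉ MM.closure (W ∪ z '' {a}ᶜ)) :
    ∀ p : MvPolynomial κ (clF W), p.eval₂ (clF W).subtype z = 0 → p = 0 := by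
  have h1 := ind_of_cl W z h
  have h2 : AlgebraicIndependent (IntermediateField.adjoin (U ℚ) W) z := IntermediateField.algebraicIndependent_adjoin_iff.2 h1
  have h3 : AlgebraicIndependent (algebraicClosure (IntermediateField.adjoin (U ℚ) W) (U ℂ)) z := h2.algebraicClosure
  exact fun p hp => (algebraicIndependent_iff.1 h3) p hp

/-- a part of a free family, the rest being constants -/
lemma free_sub {κ κ' : Type} (W : Set (U ℂ)) (z : κ → U ℂ) (h : ∀ a, z a ∉ MM.closure (W ∪ z '' {a}ᶜ)) (f : κ' → κ)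
    (hf : Function.Injective f) : ∀ p : MvPolynomial κ' (clF (W ∪ z '' (Set.range f)ᶜ)),
      p.eval₂ (clF (W ∪ z '' (Set.range f)ᶜ)).subtype (fun i => z (f i)) = 0 → p = 0 := by
  refine free_clF _ _ fun a ha => h (f a) ?_
  refine MM.closure_subset_closure ?_ ha
  rintro x ((hx | ⟨b, hb, rfl⟩) | ⟨b, hb, rfl⟩)
  · exact Or.inl hx
  · refine Or.inr ⟨b, ?_, rfl⟩
    rintro rfl
    exact hb ⟨a, rfl⟩
  · refine Or.inr ⟨f b, ?_, rfl⟩
    intro h1
    exact hb (hf h1)

variable {r : ℕ}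

/-- the values satisfy the relations -/
theorem val_mem {h : Fin r → ℚ⟦X⟧} {C : ℝ} (hC : 0 ≤ C) (hh : ∀ j m, |((coeff m (h j) : ℚ) : ℝ)| ≤ C ^ (m + 1)) {m : ℕ}
    (hm : C < m) : (fun i => ((ev (m : ℝ) (h i) : ℝ) : ℂ)) ∈ Vx h (1 / (m : ℚ)) := by
  have hm0 : (0 : ℝ) < m := lt_of_le_of_lt hC hm
  have hcv : ∀ j, Cv (m : ℝ) (h j) := fun j =>
    Cv.of_bound (A := C) (B := C) hm0 hC hm fun m => (hh j m).trans (le_of_eq (pow_succ' _ _))
  have key : ∀ R : MvPolynomial (Fin r) (Polynomial ℚ), Cv (m : ℝ) (MvPolynomial.aeval h R) ∧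
      ((ev (m : ℝ) (MvPolynomial.aeval h R) : ℝ) : ℂ) = MvPolynomial.eval₂ ((algebraMap ℚ ℂ).comp
        (Polynomial.evalRingHom (1 / (m : ℚ)))) (fun i => ((ev (m : ℝ) (h i) : ℝ) : ℂ)) R := by
    intro R
    induction R using MvPolynomial.induction_on with
    | C c =>
      rw [MvPolynomial.aeval_C, PowerSeries.algebraMap_apply', MvPolynomial.eval₂_C]
      have h1 : (algebraMap ℚ ℚ) = RingHom.id ℚ := rfl
      rw [h1, PowerSeries.map_id, id]
      refine ⟨Cv.coe _, ?_⟩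
      rw [ev_coe, RingHom.comp_apply, Polynomial.coe_evalRingHom]
      have h2 : (1 / (m : ℝ)) = algebraMap ℚ ℝ (1 / (m : ℚ)) := by
        rw [eq_ratCast]
        push_cast
        rfl
      rw [h2, Polynomial.aeval_algebraMap_apply, eq_ratCast, eq_ratCast, Polynomial.coe_aeval_eq_eval]
      push_cast
      rfl
    | add p q hp hq =>
      rw [map_add, MvPolynomial.eval₂_add]
      refine ⟨hp.1.add hm0 hq.1, ?_⟩
      rw [hp.1.ev_add hm0 hq.1, ← hp.2, ← hq.2]
      push_cast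
      rfl
    | mul_X p j hp =>
      rw [map_mul, MvPolynomial.eval₂_mul, MvPolynomial.aeval_X, MvPolynomial.eval₂_X]
      refine ⟨hp.1.mul hm0 (hcv j), ?_⟩
      rw [hp.1.ev_mul hm0 (hcv j), ← hp.2]
      push_cast
      rfl
  intro R hR
  have h1 := (key R).2
  rw [hR, ev_zero] at h1
  rw [← h1]
  rfl

end Pool.Agent.Y118.UL
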