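import Pool.Agent.Y118.UL.Ulv

/-!
# Connected families: relations are combinations of specialised functional relations
-/

set_option autoImplicit false
set_option maxHeartbeats 400000

open PowerSeries Filter Pool.Agent.Y113 Pool.Agent.Y120.GF Pool.Agent.Y120.GH

namespace Pool.Agent.Y118.UL

/-- substitution of the constants -/
noncomputable def sbc {υ : Type} {k r : ℕ} (w : υ → ℂ) {K : Type} [CommRing K] [Algebra K ℂ]
    (P : MvPolynomial (υ ⊕ Fin k × Option (Fin r)) K) : MvPolynomial (Σ _ : Fin k, Option (Fin r)) ℂ :=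
  MvPolynomial.aeval (Sum.elim (fun v => MvPolynomial.C (w v)) fun a => MvPolynomial.X ⟨a.1, a.2⟩) P

section
variable {υ : Type} {k r : ℕ}

lemma sbc_map (w : υ → ℂ) {K : Type} [CommRing K] [Algebra K ℂ] (P : MvPolynomial (υ ⊕ Fin k × Option (Fin r)) K) :
    sbc w (MvPolynomial.map (algebraMap K ℂ) P) = sbc w P := by
  unfold sbc
  exact MvPolynomial.aeval_map_algebraMap ℂ _ P

lemma sbc_deg (w : υ → ℂ) {K : Type} [CommRing K] [Algebra K ℂ] (P : MvPolynomial (υ ⊕ Fin k × Option (Fin r)) K) {d : ℕ}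
    (hP : P.totalDegree ≤ d) : (sbc w P).totalDegree ≤ d := by
  rw [← sbc_map]
  unfold sbc
  refine aeval_deg ((tdm _ _).trans hP) fun i => ?_
  rcases i with v | a
  · show (MvPolynomial.C (w v)).totalDegree ≤ 1
    rw [MvPolynomial.totalDegree_C]
    exact Nat.zero_le _
  · exact (MvPolynomial.totalDegree_X _).le

lemma sbc_eval (w : υ → ℂ) {K : Type} [CommRing K] [Algebra K ℂ] (P : MvPolynomial (υ ⊕ Fin k × Option (Fin r)) K)
    (z : Fin k → Fin r → ℂ) (l : Fin k → ℂ) :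
    MvPolynomial.aeval (pt (r := fun _ => r) z l) (sbc w P) =
      MvPolynomial.aeval (Sum.elim w fun a => a.2.elim (l a.1) (z a.1)) P := by
  rw [← sbc_map, ← MvPolynomial.aeval_map_algebraMap ℂ _ P]
  unfold sbc
  have h1 : ((MvPolynomial.aeval (pt (r := fun _ => r) z l) : MvPolynomial (Σ _ : Fin k, Option (Fin r)) ℂ →ₐ[ℂ] ℂ)).comp
      (MvPolynomial.aeval (Sum.elim (fun v => MvPolynomial.C (w v)) fun a => MvPolynomial.X ⟨a.1, a.2⟩)) =
      MvPolynomial.aeval (Sum.elim w fun a : Fin k × Option (Fin r) => a.2.elim (l a.1) (z a.1)) := by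
    refine MvPolynomial.algHom_ext fun i => ?_
    rcases i with v | a
    · simp
    · obtain ⟨j, _ | i⟩ := a
      · simp [pt]
      · simp [pt]
  exact DFunLike.congr_fun h1 _

end

section
variable {r : ℕ} {h : Fin r → ℚ⟦X⟧}

lemma vx_words {δ m : ℕ} {y : Fin r → ℂ} (hy : y ∈ Vx h (1 / (m : ℚ))) {B : Finset (Fin δ → Option (Fin r))}
    {a : Polynomial ℤ} {M : B → Polynomial ℤ} {b : Fin δ → Option (Fin r)}
    (hM : ps a * yw h b = ∑ β, ps (M β) * yw h β.1) :
    ((sq m a : ℚ) : ℂ) * yw y b = ∑ β : B, ((sq m (M β) : ℚ) : ℂ) * yw y β.1 := by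
  let R : MvPolynomial (Fin r) (Polynomial ℚ) := MvPolynomial.C (a.map (Int.castRingHom ℚ)) * wX r b -
    ∑ β, MvPolynomial.C ((M β).map (Int.castRingHom ℚ)) * wX r β.1
  have hz0 : MvPolynomial.aeval h R = 0 := by
    have e1 : ∀ p : Polynomial ℤ, MvPolynomial.aeval h (MvPolynomial.C (p.map (Int.castRingHom ℚ))) = ps p := by
      intro p
      rw [MvPolynomial.aeval_C, PowerSeries.algebraMap_apply']
      simp [ps]
    have e2 : ∀ b : Fin δ → Option (Fin r), MvPolynomial.aeval h (wX r b) = yw h b := by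
      intro b
      have e3 := yw_map ((MvPolynomial.aeval (R := Polynomial ℚ) h).toRingHom : MvPolynomial (Fin r) (Polynomial ℚ) →* ℚ⟦X⟧)
        (fun j => (MvPolynomial.X j : MvPolynomial (Fin r) (Polynomial ℚ))) b
      refine Eq.trans e3 ?_
      congr 1
      funext j
      exact MvPolynomial.aeval_X _ _
    show MvPolynomial.aeval h (MvPolynomial.C (a.map (Int.castRingHom ℚ)) * wX r b -
      ∑ β, MvPolynomial.C ((M β).map (Int.castRingHom ℚ)) * wX r β.1) = 0
    rw [map_sub, map_mul, map_sum, e1, e2, hM, sub_eq_zero]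
    refine Finset.sum_congr rfl fun β _ => ?_
    rw [map_mul, e1, e2]
  have h1 := hy R hz0
  let ψ : MvPolynomial (Fin r) (Polynomial ℚ) →+* ℂ :=
    MvPolynomial.eval₂Hom ((algebraMap ℚ ℂ).comp (Polynomial.evalRingHom (1 / (m : ℚ)))) y
  have hψC : ∀ p : Polynomial ℤ, ψ (MvPolynomial.C (p.map (Int.castRingHom ℚ))) = ((sq m p : ℚ) : ℂ) := by
    intro p
    rw [← spec_map]
    exact MvPolynomial.eval₂Hom_C _ _ _
  have hψX : ∀ b : Fin δ → Option (Fin r), ψ (wX r b) = yw y b := by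
    intro b
    have e1 := yw_map ψ.toMonoidHom (fun j => (MvPolynomial.X j : MvPolynomial (Fin r) (Polynomial ℚ))) b
    refine e1.trans ?_
    congr 1
    funext j
    exact MvPolynomial.eval₂Hom_X' _ _ _
  have h2 : ψ R = ψ (MvPolynomial.C (a.map (Int.castRingHom ℚ))) * ψ (wX r b) -
      ∑ β, ψ (MvPolynomial.C ((M β).map (Int.castRingHom ℚ))) * ψ (wX r β.1) := by
    show ψ (MvPolynomial.C (a.map (Int.castRingHom ℚ)) * wX r b -
      ∑ β, MvPolynomial.C ((M β).map (Int.castRingHom ℚ)) * wX r β.1) = _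
    rw [map_sub, map_mul, map_sum]
    simp only [map_mul]
  have h3 : ψ R = 0 := h1
  rw [h3, hψC, hψX] at h2
  simp only [hψC, hψX] at h2
  exact sub_eq_zero.1 h2.symm

lemma mk_finset_sum {ι : Type} (s : Finset ι) (f : ι → ℕ → ℂ) : mk ℂ (fun n => ∑ i ∈ s, f i n) = ∑ i ∈ s, mk ℂ (f i) := by
  rw [← map_sum]
  congr 1
  funext n
  rw [Finset.sum_apply]

lemma mk_finset_prod {ι : Type} (s : Finset ι) (f : ι → ℕ → ℂ) : mk ℂ (fun n => ∏ i ∈ s, f i n) = ∏ i ∈ s, mk ℂ (f i) := by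
  rw [← map_prod]
  congr 1
  funext n
  rw [Finset.prod_apply]

lemma mk_yw {δ : ℕ} (y : Fin r → ℕ → ℂ) (b : Fin δ → Option (Fin r)) :
    mk ℂ (fun n => yw (fun i => y i n) b) = yw (fun i => mk ℂ (y i)) b := by
  unfold yw
  rw [mk_finset_prod]
  refine Finset.prod_congr rfl fun j _ => ?_
  rcases b j with _ | i
  · exact map_one (mk ℂ)
  · rfl

variable {I : Finset (Fin r)} {G k : ℕ} {t : ℕ → ℕ} {g : ℕ → Fin k → ℕ}

theorem dep_vv (conn : Conn h) (hI : AlgebraicIndependent (Polynomial ℚ) (fun i : I => h i))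
    (hI2 : ∀ s ∉ I, ¬ AlgebraicIndependent (Polynomial ℚ) (fun o : Option I => o.elim (h s) fun i => h i))
    {C : ℝ} (hC : 0 ≤ C) (hh : ∀ j m, |((coeff m (h j) : ℚ) : ℝ)| ≤ C ^ (m + 1))
    (hbig : ∀ N : ℕ, ∀ j, ∀ᶠ n in (hyperfilter ℕ : Filter ℕ), N < t n - G * g n j)
    (hsm : ∀ c : Polynomial ℚ, c ≠ 0 → ∀ j, ∀ᶠ n in (hyperfilter ℕ : Filter ℕ),
      c.eval (1 / ((t n - G * g n j : ℕ) : ℚ)) ≠ 0)
    {υ : Type} [Fintype υ] (w : ℕ → υ → ℂ) (off : ℕ → ℂ) (hoff : mk ℂ off ∈ clF (Set.range fun j => mk ℂ fun n => w n j))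
    (hz : ∀ a, zf h I G t g a ∉ MM.closure (Set.range (fun j => mk ℂ fun n => w n j) ∪ zf h I G t g '' {a}ᶜ))
    {D d : ℕ} (K : ℕ → IntermediateField ℚ ℂ) (hf : ∀ n, FiniteDimensional ℚ (K n))
    (hD : ∀ n, Module.finrank ℚ (K n) ≤ D) (P : ∀ n, MvPolynomial (υ ⊕ Fin k × Option (Fin r)) (K n))
    (hd : ∀ n, (P n).totalDegree ≤ d)
    (hP0 : ∀ n, MvPolynomial.aeval (Sum.elim (w n) fun a => a.2.elim (off n + vl G h (t n) (g n a.1) none)
      fun i => vl G h (t n) (g n a.1) (some i)) (P n) = 0)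
    {B : Finset (Fin d → Option (Fin r))} (hLI : LinearIndependent (Polynomial ℚ) fun b : B => yw h b.1)
    {a : Polynomial ℤ} {M : (Fin d → Option (Fin r)) → B → Polynomial ℤ} (ha : a ≠ 0)
    (hM : ∀ b, ps a * yw h b = ∑ β, ps (M b β) * yw h β.1) :
    ∃ n, (∀ j, sq (t n - G * g n j) a ≠ 0) ∧
      Pool.Agent.Y120.GH.vv (k := k) (δ := d) (r := fun _ => r) (B := fun _ => B) (fun _ => a) (fun _ => M)
        (fun j => t n - G * g n j) (sbc (w n) (P n)) = 0 := by
  classical
  set W : Set (U ℂ) := Set.range fun j => mk ℂ fun n => w n j with hW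
  -- the sequence of polynomials
  obtain ⟨PP, hPP⟩ := of_seq d (fun n => MvPolynomial.map (algebraMap (K n) ℂ) (P n)) fun n => (tdm _ _).trans (hd n)
  set SW : Subring (ℕ → ℂ) := (clF W).toSubring.comap (mk ℂ) with hSW
  have hmemSW : ∀ f : ℕ → ℂ, f ∈ SW ↔ mk ℂ f ∈ clF W := fun f => Iff.rfl
  obtain ⟨PS, hPS⟩ := lift_coeffs SW SW.subtype PP (by
    intro m
    refine ⟨⟨PP.coeff m, ?_⟩, rfl⟩
    rw [hmemSW]
    refine alg_clF (alg_of_degree K hf hD _ fun n => ?_)
    have h4 := congrArg (MvPolynomial.coeff m) (hPP n)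
    rw [MvPolynomial.coeff_map, MvPolynomial.coeff_map] at h4
    have h5 : PP.coeff m n = algebraMap (K n) ℂ ((P n).coeff m) := h4
    rw [h5]
    exact ((P n).coeff m).2)
  let Θ : MvPolynomial (υ ⊕ Fin k × Option (Fin r)) SW →+* MvPolynomial (Σ _ : Fin k, Option (Fin r)) SW :=
    MvPolynomial.eval₂Hom MvPolynomial.C (Sum.elim (fun v => MvPolynomial.C ⟨fun n => w n v, sub_clF ⟨v, rfl⟩⟩)
      fun a => MvPolynomial.X ⟨a.1, a.2⟩)
  have hΘ : ∀ n, MvPolynomial.map ((Pi.evalRingHom (fun _ => ℂ) n).comp SW.subtype) (Θ PS) = sbc (w n) (P n) := by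
    intro n
    have h1 : (MvPolynomial.map ((Pi.evalRingHom (fun _ => ℂ) n).comp SW.subtype)).comp Θ =
        ((MvPolynomial.aeval (Sum.elim (fun v => MvPolynomial.C (w n v)) fun a : Fin k × Option (Fin r) =>
          MvPolynomial.X ⟨a.1, a.2⟩) : MvPolynomial (υ ⊕ Fin k × Option (Fin r)) ℂ →ₐ[ℂ]
            MvPolynomial (Σ _ : Fin k, Option (Fin r)) ℂ) : _ →+* _).comp
          (MvPolynomial.map ((Pi.evalRingHom (fun _ => ℂ) n).comp SW.subtype)) := by
      refine MvPolynomial.ringHom_ext (fun c => ?_) fun i => ?_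
      · rw [RingHom.comp_apply, RingHom.comp_apply, MvPolynomial.map_C]
        show MvPolynomial.map _ (MvPolynomial.eval₂Hom MvPolynomial.C _ (MvPolynomial.C c)) =
          MvPolynomial.aeval _ (MvPolynomial.C _)
        rw [MvPolynomial.eval₂Hom_C, MvPolynomial.map_C, MvPolynomial.aeval_C]
        rfl
      · rw [RingHom.comp_apply, RingHom.comp_apply, MvPolynomial.map_X]
        show MvPolynomial.map _ (MvPolynomial.eval₂Hom MvPolynomial.C _ (MvPolynomial.X i)) =
          MvPolynomial.aeval _ (MvPolynomial.X _)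
        rw [MvPolynomial.eval₂Hom_X', MvPolynomial.aeval_X]
        rcases i with v | ⟨j, o⟩
        · simp only [Sum.elim_inl]
          rw [MvPolynomial.map_C]
          rfl
        · simp only [Sum.elim_inr]
          rw [MvPolynomial.map_X]
    have h2 := DFunLike.congr_fun h1 PS
    have h5 : MvPolynomial.map ((Pi.evalRingHom (fun _ => ℂ) n).comp SW.subtype) PS =
        MvPolynomial.map (algebraMap (K n) ℂ) (P n) := by
      rw [← MvPolynomial.map_map, hPS, hPP]
    rw [RingHom.comp_apply, RingHom.comp_apply, h5] at h2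
    rw [h2, ← sbc_map]
    rfl
  have hcoef : ∀ n s, (sbc (w n) (P n)).coeff s = (((Θ PS).coeff s : SW) : ℕ → ℂ) n := by
    intro n s
    rw [← hΘ, MvPolynomial.coeff_map]
    rfl
  -- the reduced coefficients
  let V : (Fin k → B × Fin (d + 1)) → ℕ → ℂ := fun p n => Pool.Agent.Y120.GH.vv (k := k) (δ := d) (r := fun _ => r) (B := fun _ => B)
    (fun _ => a) (fun _ => M) (fun j => t n - G * g n j) (sbc (w n) (P n)) p
  have hV : ∀ p, mk ℂ (V p) ∈ clF W := by
    intro p
    have h1 : V p = fun n => ∑ s ∈ (Θ PS).support, (((Θ PS).coeff s : SW) : ℕ → ℂ) n *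
        ∏ i, ((cs (k := k) (δ := d) (r := fun _ => r) (B := fun _ => B)
    (fun _ => a) (fun _ => M) (fun j => t n - G * g n j) s i (p i) : ℚ) : ℂ) := by
      funext n
      simp only [V, Pool.Agent.Y120.GH.vv]
      refine (Finset.sum_subset (s₁ := (sbc (w n) (P n)).support) (s₂ := (Θ PS).support) ?_ ?_).trans
        (Finset.sum_congr rfl fun s _ => by rw [hcoef])
      · intro s hs
        rw [MvPolynomial.mem_support_iff] at hs ⊢
        intro h0
        apply hs
        rw [hcoef, h0]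
        rfl
      · intro s _ hs
        rw [MvPolynomial.notMem_support_iff] at hs
        rw [hs, zero_mul]
    rw [h1, mk_finset_sum]
    refine (clF W).sum_mem fun s _ => ?_
    have h2 : mk ℂ (fun n => (((Θ PS).coeff s : SW) : ℕ → ℂ) n *
        ∏ i, ((cs (k := k) (δ := d) (r := fun _ => r) (B := fun _ => B)
    (fun _ => a) (fun _ => M) (fun j => t n - G * g n j) s i (p i) : ℚ) : ℂ)) =
        mk ℂ (((Θ PS).coeff s : SW) : ℕ → ℂ) * qc (mk ℚ fun n => ∏ i, cs (k := k) (δ := d) (r := fun _ => r) (B := fun _ => B)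
    (fun _ => a) (fun _ => M) (fun j => t n - G * g n j) s i (p i)) := by
      rw [qc_mk, ← map_mul]
      congr 1
      funext n
      rw [Pi.mul_apply]
      push_cast
      rfl
    rw [h2]
    exact (clF W).mul_mem ((Θ PS).coeff s).2 (qc_clF _)
  -- eventually everything is fine
  have ha0 : a.map (Int.castRingHom ℚ) ≠ 0 := (Polynomial.map_ne_zero_iff (Int.castRingHom ℚ).injective_int).2 ha
  obtain ⟨N, hN⟩ := exists_nat_gt C
  have hev : ∀ᶠ n in (hyperfilter ℕ : Filter ℕ), ∀ j : Fin k, N < t n - G * g n j ∧ sq (t n - G * g n j) a ≠ 0 := by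
    rw [Filter.eventually_all]
    intro j
    filter_upwards [hbig N j, hsm _ ha0 j] with n h1 h2
    refine ⟨h1, ?_⟩
    intro h3
    apply h2
    have h4 := spec_map (t n - G * g n j) a
    rw [h3] at h4
    unfold spec at h4
    rw [RingHom.comp_apply, Polynomial.coe_evalRingHom] at h4
    have h5 : (algebraMap ℚ ℂ) (Polynomial.eval (1 / ((t n - G * g n j : ℕ) : ℚ)) (a.map (Int.castRingHom ℚ))) =
        algebraMap ℚ ℂ 0 := by
      rw [h4]
      simp
    exact (algebraMap ℚ ℂ).injective h5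
  have hexp : ∀ᶠ n in (hyperfilter ℕ : Filter ℕ), ∑ p, V p n * ∏ i : Fin k,
      (yw (fun s => vl G h (t n) (g n i) (some s)) (p i).1.1 * (off n + vl G h (t n) (g n i) none) ^ ((p i).2 : ℕ)) = 0 := by
    filter_upwards [hev] with n hn
    have h1 := eval_expand (k := k) (δ := d) (r := fun _ => r) (B := fun _ => B) (K := ℂ) (fun _ => a) (fun _ => M)
      (fun j => t n - G * g n j) (fun j i => vl G h (t n) (g n j) (some i)) (fun j => off n + vl G h (t n) (g n j) none)
      (fun i b => by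
        have h2 := vx_words (val_mem hC hh (hN.trans (by exact_mod_cast (hn i).1))) (hM b)
        exact h2) (fun i => (hn i).2) (sbc (w n) (P n)) (sbc_deg _ _ (hd n))
    rw [sbc_eval] at h1
    have h3 : MvPolynomial.aeval (Sum.elim (w n) fun a : Fin k × Option (Fin r) =>
        a.2.elim (off n + vl G h (t n) (g n a.1) none) fun i => vl G h (t n) (g n a.1) (some i)) (P n) = 0 := hP0 n
    rw [h3] at h1
    exact h1.symm
  have hsum : ∑ p, mk ℂ (V p) * ∏ i : Fin k, (yw (hs h G t g i) (p i).1.1 * (mk ℂ off + zf h I G t g (i, none)) ^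
      ((p i).2 : ℕ)) = 0 := by
    have h1 : mk ℂ (fun n => ∑ p, V p n * ∏ i : Fin k, (yw (fun s => vl G h (t n) (g n i) (some s)) (p i).1.1 *
        (off n + vl G h (t n) (g n i) none) ^ ((p i).2 : ℕ))) = 0 := mk_eq_zero.2 hexp
    rw [← h1, mk_finset_sum]
    refine Finset.sum_congr rfl fun p _ => ?_
    have h2 : (fun n => V p n * ∏ i : Fin k, (yw (fun s => vl G h (t n) (g n i) (some s)) (p i).1.1 *
        (off n + vl G h (t n) (g n i) none) ^ ((p i).2 : ℕ))) = V p * fun n => ∏ i : Fin k,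
          (yw (fun s => vl G h (t n) (g n i) (some s)) (p i).1.1 * (off n + vl G h (t n) (g n i) none) ^ ((p i).2 : ℕ)) := rfl
    rw [h2, map_mul, mk_finset_prod]
    congr 1
    refine Finset.prod_congr rfl fun i _ => ?_
    have h3 : (fun n => yw (fun s => vl G h (t n) (g n i) (some s)) (p i).1.1 *
        (off n + vl G h (t n) (g n i) none) ^ ((p i).2 : ℕ)) = (fun n => yw (fun s => vl G h (t n) (g n i) (some s)) (p i).1.1) *
          (off + fun n => vl G h (t n) (g n i) none) ^ ((p i).2 : ℕ) := rfl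
    rw [h3, map_mul, map_pow, map_add, mk_yw (fun s n => vl G h (t n) (g n i) (some s))]
    rfl
  have hfin := li_all conn hI hI2 hC hh hbig hsm hz hLI hoff (fun p => mk ℂ (V p)) hV hsum
  have hall : ∀ᶠ n in (hyperfilter ℕ : Filter ℕ), ∀ p, V p n = 0 := by
    rw [Filter.eventually_all]
    exact fun p => mk_eq_zero.1 (hfin p)
  obtain ⟨n, hn1, hn2⟩ := (hall.and hev).exists
  exact ⟨n, fun j => (hn2 j).2, funext hn1⟩

end

end Pool.Agent.Y118.UL
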