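import Pool.Agent.Y118.UL.Nor

/-!
# The relations of the dependent coordinates, the logarithm as a free coordinate, transcendence degree of the constants
-/

set_option autoImplicit false
set_option maxHeartbeats 400000

open PowerSeries Pool.Agent.Y113 Pool.Agent.Y120.GF Pool.Agent.Y120.GH

namespace Pool.Agent.Y118.UL

variable {r : ℕ}

/-- the specialisation at `x` of the variety of functional relations -/
def Vx (h : Fin r → ℚ⟦X⟧) (x : ℚ) : Set (Fin r → ℂ) :=
  {y | ∀ R : MvPolynomial (Fin r) (Polynomial ℚ), MvPolynomial.aeval h R = 0 →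
    MvPolynomial.eval₂ ((algebraMap ℚ ℂ).comp (Polynomial.evalRingHom x)) y R = 0}

lemma eval₂_option {κ : Type} {A : Type} [CommRing A] (φ : Polynomial ℚ →+* A) (z : Option κ → A)
    (p : MvPolynomial (Option κ) (Polynomial ℚ)) :
    Polynomial.eval₂ (MvPolynomial.eval₂Hom φ fun i => z (some i)) (z none) (MvPolynomial.optionEquivLeft _ _ p) =
      MvPolynomial.eval₂ φ z p := by
  have h1 : (Polynomial.eval₂RingHom (MvPolynomial.eval₂Hom φ fun i => z (some i)) (z none)).comp
      ((MvPolynomial.optionEquivLeft (Polynomial ℚ) κ : MvPolynomial (Option κ) (Polynomial ℚ) →+*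
        Polynomial (MvPolynomial κ (Polynomial ℚ)))) = MvPolynomial.eval₂Hom φ z := by
    refine MvPolynomial.ringHom_ext (fun c => ?_) fun o => ?_
    · simp [MvPolynomial.optionEquivLeft_C]
    · rcases o with _ | i
      · simp [MvPolynomial.optionEquivLeft_X_none]
      · simp [MvPolynomial.optionEquivLeft_X_some]
  exact DFunLike.congr_fun h1 p

/-- the relations of the dependent coordinates -/
theorem exists_R {h : Fin r → ℚ⟦X⟧} {I : Finset (Fin r)}
    (hI : ∀ s ∉ I, ¬ AlgebraicIndependent (Polynomial ℚ) (fun o : Option I => o.elim (h s) fun i => h i)) :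
    ∃ R : Option (Fin r) → Polynomial (MvPolynomial (Option I) (Polynomial ℚ)), (∀ s, R s ≠ 0) ∧
      ∀ (x : ℚ) (y : Option (Fin r) → ℂ), (fun i => y (some i)) ∈ Vx h x → ∀ s,
        Polynomial.eval₂ (sp (Option.map Subtype.val) x y) (y s) (R s) = 0 := by
  classical
  have key : ∀ s : Option (Fin r), ∃ R : Polynomial (MvPolynomial (Option I) (Polynomial ℚ)), R ≠ 0 ∧
      ∀ (x : ℚ) (y : Option (Fin r) → ℂ), (fun i => y (some i)) ∈ Vx h x →
        Polynomial.eval₂ (sp (Option.map Subtype.val) x y) (y s) R = 0 := by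
    have triv : ∀ o : Option I, ∃ R : Polynomial (MvPolynomial (Option I) (Polynomial ℚ)), R ≠ 0 ∧
        ∀ (x : ℚ) (y : Option (Fin r) → ℂ), (fun i => y (some i)) ∈ Vx h x →
          Polynomial.eval₂ (sp (Option.map Subtype.val) x y) (y (o.map Subtype.val)) R = 0 := by
      intro o
      refine ⟨Polynomial.X - Polynomial.C (MvPolynomial.X o), Polynomial.X_sub_C_ne_zero _, fun x y _ => ?_⟩
      rw [Polynomial.eval₂_sub, Polynomial.eval₂_X, Polynomial.eval₂_C]
      unfold sp
      rw [MvPolynomial.coe_eval₂Hom, MvPolynomial.eval₂_X, sub_self]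
    intro s
    rcases s with _ | s
    · exact triv none
    · by_cases hs : s ∈ I
      · exact triv (some ⟨s, hs⟩)
      · have h1 := hI s hs
        rw [algebraicIndependent_iff] at h1
        push Not at h1
        obtain ⟨p, hp, hp0⟩ := h1
        set q := MvPolynomial.optionEquivLeft (Polynomial ℚ) I p with hq
        have hq0 : q ≠ 0 := by
          rw [hq]
          exact fun h => hp0 ((map_eq_zero_iff _ (MvPolynomial.optionEquivLeft (Polynomial ℚ) I).injective).1 h)
        have hinj : Function.Injective (MvPolynomial.rename (R := Polynomial ℚ) (some : I → Option I) :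
            MvPolynomial I (Polynomial ℚ) →ₐ[Polynomial ℚ] MvPolynomial (Option I) (Polynomial ℚ)).toRingHom :=
          MvPolynomial.rename_injective _ (Option.some_injective _)
        refine ⟨q.map (MvPolynomial.rename (R := Polynomial ℚ) (some : I → Option I)).toRingHom,
          (Polynomial.map_ne_zero_iff hinj).2 hq0, fun x y hy => ?_⟩
        rw [Polynomial.eval₂_map]
        set z : Option I → ℂ := fun o => o.elim (y (some s)) fun i => y (some i.1) with hz
        have h2 : (sp (Option.map Subtype.val) x y).comp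
            (MvPolynomial.rename (R := Polynomial ℚ) (some : I → Option I)).toRingHom =
            MvPolynomial.eval₂Hom ((algebraMap ℚ ℂ).comp (Polynomial.evalRingHom x)) fun i => z (some i) := by
          refine MvPolynomial.ringHom_ext (fun c => ?_) fun i => ?_
          · simp [sp]
          · simp [sp, hz]
        rw [h2]
        have h3 : y (some s) = z none := rfl
        rw [h3, hq, eval₂_option]
        have h4 := hy (MvPolynomial.rename (fun o : Option I => o.elim s Subtype.val) p) (by
          rw [MvPolynomial.aeval_rename]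
          have h5 : (h ∘ fun o : Option I => o.elim s Subtype.val) = fun o : Option I => o.elim (h s) fun i => h i := by
            funext o
            rcases o with _ | i <;> rfl
          rw [h5]
          exact hp)
        rw [MvPolynomial.eval₂_rename] at h4
        have h6 : ((fun i => y (some i)) ∘ fun o : Option I => o.elim s Subtype.val) = z := by
          funext o
          rcases o with _ | i <;> rfl
        rw [h6] at h4
        exact h4
  choose R h1 h2 using key
  exact ⟨R, h1, fun x y hy s => h2 s x y hy⟩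

/-- the parameters are small -/
theorem small_x (G : ℕ) : Small (fun t g => 1 / (((t - G * g : ℕ) : ℚ))) := by
  intro c hc
  obtain ⟨B, hB⟩ : ∃ B : ℕ, ∀ x ∈ c.roots, x ≠ 0 → ∀ m : ℕ, B ≤ m → 1 / (m : ℚ) ≠ x := by
    classical
    obtain ⟨B, hB⟩ : ∃ B : ℕ, ∀ x ∈ c.roots.toFinset.image (fun x : ℚ => 1 / x), x < B := by
      obtain ⟨b, hb⟩ := (c.roots.toFinset.image (fun x : ℚ => 1 / x)).bddAbove
      obtain ⟨B, hB⟩ := exists_nat_gt b
      exact ⟨B, fun x hx => (hb hx).trans_lt hB⟩
    refine ⟨B, fun x hx hx0 m hm h => ?_⟩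
    have h1 := hB (1 / x) (Finset.mem_image_of_mem _ (Multiset.mem_toFinset.2 hx))
    rw [← h, one_div_one_div] at h1
    have : (B : ℚ) ≤ m := by exact_mod_cast hm
    linarith
  refine ⟨B + G + 2, fun H t ht g hg hgH h0 => ?_⟩
  have h1 : G * g + (B + 1) ≤ t := by
    have h2 : G + B + 1 + 1 ≤ 2 ^ (B + G + 1) := by
      have := Nat.lt_two_pow_self (n := B + G + 1)
      omega
    have h4 : 2 ^ (B + G + 1) * (H + 2) ≤ (H + 2) ^ (B + G + 2) := by
      rw [pow_succ (H + 2)]
      exact Nat.mul_le_mul_right _ (Nat.pow_le_pow_left (by omega) _)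
    have h3 : (G + B + 2) * (H + 2) ≤ t := (Nat.mul_le_mul_right _ h2).trans (h4.trans ht)
    have h5 : G * g ≤ G * H := Nat.mul_le_mul_left _ hgH
    nlinarith
  have h2 : ((t - G * g : ℕ) : ℚ) ≠ 0 := by
    have : 0 < t - G * g := by omega
    exact_mod_cast this.ne'
  refine hB (1 / ((t - G * g : ℕ) : ℚ)) ((Polynomial.mem_roots hc).2 h0) (by positivity) (t - G * g) (by omega) rfl

/-- a transcendence basis of the constants -/
theorem exists_T {p : ℕ} (Ω : Fin p → ℂ) : ∃ T : Finset (Fin p),
    (T.card : Cardinal) ≤ Algebra.trdeg ℚ (IntermediateField.adjoin ℚ (Set.range Ω)) ∧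
      ∀ j, IsAlgebraic (Algebra.adjoin ℚ (Ω '' (T : Set (Fin p)))) (Ω j) := by
  classical
  set M := AlgebraicIndependent.matroid ℚ ℂ with hM
  obtain ⟨B, hB⟩ := M.exists_isBasis (Set.range Ω) (Set.subset_univ _)
  obtain ⟨hB1, hB2, hB3⟩ := AlgebraicIndependent.matroid_isBasis_iff.1 hB
  choose f hf using fun b : B => hB2 b.2
  have hfinj : Function.Injective f := by
    intro a b hab
    have := hf a
    rw [hab, hf b] at this
    exact Subtype.ext this.symm
  have : Finite B := Finite.of_injective f hfinj
  have : Fintype B := Fintype.ofFinite B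
  refine ⟨Finset.univ.image f, ?_, fun j => ?_⟩
  · rw [Finset.card_image_of_injective _ hfinj, Finset.card_univ]
    set F0 := IntermediateField.adjoin ℚ (Set.range Ω) with hF0
    have hsub : ∀ b : B, (b : ℂ) ∈ F0 := fun b => IntermediateField.subset_adjoin ℚ _ (hB2 b.2)
    set x : B → F0 := fun b => ⟨b, hsub b⟩ with hx
    have h1 : AlgebraicIndependent ℚ x := by
      refine AlgebraicIndependent.of_comp (F0.val) ?_
      exact hB1
    have h2 := h1.cardinalMk_le_trdeg
    rwa [Cardinal.mk_fintype] at h2
  · have h1 : Ω '' (Finset.univ.image f : Set (Fin p)) = B := by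
      ext x
      simp only [Set.mem_image, Finset.coe_image, Finset.coe_univ, Set.image_univ, Set.mem_range]
      constructor
      · rintro ⟨_, ⟨b, rfl⟩, rfl⟩
        rw [hf]
        exact b.2
      · intro hx
        exact ⟨f ⟨x, hx⟩, ⟨⟨x, hx⟩, rfl⟩, hf ⟨x, hx⟩⟩
    rw [h1]
    exact hB3 (Ω j) ⟨j, rfl⟩

end Pool.Agent.Y118.UL
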