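import Pool.Agent.Y118.UL.Pli

/-!
# Linear independence of the words of the values in the ultrapower, for connected families
-/

set_option autoImplicit false
set_option maxHeartbeats 400000

open PowerSeries Filter Pool.Agent.Y113 Pool.Agent.Y120.GF Pool.Agent.Y120.GH

namespace Pool.Agent.Y118.UL

lemma eval₂_mk {ι : Type} (f : ℕ → Polynomial ℚ →+* ℚ) (y : ι → ℕ → ℂ) (R : MvPolynomial ι (Polynomial ℚ)) :
    MvPolynomial.eval₂ (qc.comp ((mk ℚ).comp (RingHom.pi f))) (fun i => mk ℂ (y i)) R =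
      mk ℂ fun n => MvPolynomial.eval₂ ((algebraMap ℚ ℂ).comp (f n)) (fun i => y i n) R := by
  induction R using MvPolynomial.induction_on with
  | C c =>
    rw [MvPolynomial.eval₂_C, RingHom.comp_apply, RingHom.comp_apply, qc_mk]
    congr 1
    funext n
    rw [MvPolynomial.eval₂_C]
    rfl
  | add p q hp hq =>
    rw [MvPolynomial.eval₂_add, hp, hq, ← map_add]
    congr 1
    funext n
    rw [Pi.add_apply, MvPolynomial.eval₂_add]
  | mul_X p i hp =>
    rw [MvPolynomial.eval₂_mul, hp, MvPolynomial.eval₂_X, ← map_mul]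
    congr 1
    funext n
    rw [Pi.mul_apply, MvPolynomial.eval₂_mul, MvPolynomial.eval₂_X]

section
variable {r : ℕ} {h : Fin r → ℚ⟦X⟧} {I : Finset (Fin r)} {G k : ℕ} {t : ℕ → ℕ} {g : ℕ → Fin k → ℕ}

/-- the specialisation -/
noncomputable def ph (G : ℕ) (t : ℕ → ℕ) (g : ℕ → Fin k → ℕ) (j : Fin k) : Polynomial ℚ →+* U ℂ :=
  qc.comp ((mk ℚ).comp (RingHom.pi fun n => Polynomial.evalRingHom (1 / ((t n - G * g n j : ℕ) : ℚ))))

/-- the values -/
noncomputable def hs (h : Fin r → ℚ⟦X⟧) (G : ℕ) (t : ℕ → ℕ) (g : ℕ → Fin k → ℕ) (j : Fin k) (i : Fin r) : U ℂ :=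
  mk ℂ fun n => vl G h (t n) (g n j) (some i)

/-- the free values and the logarithms -/
noncomputable def zf (h : Fin r → ℚ⟦X⟧) (I : Finset (Fin r)) (G : ℕ) (t : ℕ → ℕ) (g : ℕ → Fin k → ℕ)
    (b : Fin k × Option I) : U ℂ := mk ℂ fun n => vl G h (t n) (g n b.1) (b.2.map Subtype.val)

lemma ph_inj (hsm : ∀ c : Polynomial ℚ, c ≠ 0 → ∀ j, ∀ᶠ n in (hyperfilter ℕ : Filter ℕ),
    c.eval (1 / ((t n - G * g n j : ℕ) : ℚ)) ≠ 0) (j : Fin k) : Function.Injective (ph G t g j) := by
  rw [injective_iff_map_eq_zero]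
  intro c hc
  by_contra hc0
  have h1 : mk ℚ (fun n => c.eval (1 / ((t n - G * g n j : ℕ) : ℚ))) = 0 := by
    apply (qc).injective
    rw [map_zero]
    exact hc
  exact mk_ne_zero.2 (hsm c hc0 j) h1

lemma hs_rel {C : ℝ} (hC : 0 ≤ C) (hh : ∀ j m, |((coeff m (h j) : ℚ) : ℝ)| ≤ C ^ (m + 1))
    (hbig : ∀ N : ℕ, ∀ j, ∀ᶠ n in (hyperfilter ℕ : Filter ℕ), N < t n - G * g n j) (j : Fin k)
    (R : MvPolynomial (Fin r) (Polynomial ℚ)) (hR : MvPolynomial.aeval h R = 0) :
    MvPolynomial.eval₂ (ph G t g j) (hs h G t g j) R = 0 := by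
  unfold ph hs
  rw [eval₂_mk, mk_eq_zero]
  obtain ⟨N, hN⟩ := exists_nat_gt C
  filter_upwards [hbig N j] with n hn
  exact val_mem hC hh (hN.trans (by exact_mod_cast hn)) R hR

variable {W : Set (U ℂ)}

lemma ph_clF (j : Fin k) (c : Polynomial ℚ) : ph G t g j c ∈ clF W := by
  unfold ph
  rw [RingHom.comp_apply]
  exact qc_clF _

/-- the dependent values -/
lemma hs_clF (hI2 : ∀ s ∉ I, ¬ AlgebraicIndependent (Polynomial ℚ) (fun o : Option I => o.elim (h s) fun i => h i))
    {C : ℝ} (hC : 0 ≤ C) (hh : ∀ j m, |((coeff m (h j) : ℚ) : ℝ)| ≤ C ^ (m + 1))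
    (hbig : ∀ N : ℕ, ∀ j, ∀ᶠ n in (hyperfilter ℕ : Filter ℕ), N < t n - G * g n j)
    (hsm : ∀ c : Polynomial ℚ, c ≠ 0 → ∀ j, ∀ᶠ n in (hyperfilter ℕ : Filter ℕ),
      c.eval (1 / ((t n - G * g n j : ℕ) : ℚ)) ≠ 0)
    (hz : ∀ a, zf h I G t g a ∉ MM.closure (W ∪ zf h I G t g '' {a}ᶜ)) (j : Fin k) (s : Fin r) :
    hs h G t g j s ∈ clF (W ∪ zf h I G t g '' {b | b.1 = j}) := by
  classical
  by_cases hs' : s ∈ I
  · exact sub_clF (Or.inr ⟨(j, some ⟨s, hs'⟩), rfl, rfl⟩)
  · have h1 := hI2 s hs'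
    rw [algebraicIndependent_iff] at h1
    push Not at h1
    obtain ⟨p, hp, hp0⟩ := h1
    set L := clF (W ∪ zf h I G t g '' {b | b.1 = j}) with hL
    set fI : I → Fin k × Option I := fun i => (j, some i) with hfI
    have hfIinj : Function.Injective fI := by
      intro a b hab
      simpa [hfI] using hab
    have hfree := free_sub W (zf h I G t g) hz fI hfIinj
    set L' := clF (W ∪ zf h I G t g '' (Set.range fI)ᶜ) with hL'
    let φ : Polynomial ℚ →+* L := (ph G t g j).codRestrict L fun c => ph_clF j c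
    let ψ : MvPolynomial I (Polynomial ℚ) →+* L := MvPolynomial.eval₂Hom φ fun i =>
      ⟨zf h I G t g (j, some i), sub_clF (Or.inr ⟨(j, some i), rfl, rfl⟩)⟩
    have hψv : ∀ q, ((ψ q : L) : U ℂ) = MvPolynomial.eval₂ (ph G t g j) (fun i : I => zf h I G t g (j, some i)) q := by
      intro q
      have h2 : L.subtype.comp ψ = MvPolynomial.eval₂Hom (ph G t g j) fun i : I => zf h I G t g (j, some i) := by
        refine MvPolynomial.ringHom_ext (fun c => ?_) fun i => ?_
        · rw [RingHom.comp_apply, MvPolynomial.eval₂Hom_C, MvPolynomial.eval₂Hom_C]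
          rfl
        · rw [RingHom.comp_apply, MvPolynomial.eval₂Hom_X', MvPolynomial.eval₂Hom_X']
          rfl
      exact DFunLike.congr_fun h2 q
    have hψ : Function.Injective ψ := by
      rw [injective_iff_map_eq_zero]
      intro q hq
      have h2 : MvPolynomial.eval₂ (ph G t g j) (fun i : I => zf h I G t g (j, some i)) q = 0 := by
        rw [← hψv, hq]
        rfl
      let φ' : Polynomial ℚ →+* L' := (ph G t g j).codRestrict L' fun c => ph_clF j c
      have hφ' : Function.Injective φ' := fun a b hab => ph_inj hsm j (congrArg Subtype.val hab)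
      have h3 := hfree (MvPolynomial.map φ' q) (by
        rw [MvPolynomial.eval₂_map]
        exact h2)
      exact MvPolynomial.map_injective _ hφ' (h3.trans (map_zero _).symm)
    set q := MvPolynomial.optionEquivLeft (Polynomial ℚ) I p with hq
    have hq0 : q ≠ 0 := by
      rw [hq]
      exact fun h => hp0 ((map_eq_zero_iff _ (MvPolynomial.optionEquivLeft (Polynomial ℚ) I).injective).1 h)
    refine clF_alg ⟨q.map ψ, (Polynomial.map_ne_zero_iff hψ).2 hq0, ?_⟩
    rw [Polynomial.aeval_def, Polynomial.eval₂_map]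
    have h2 : (algebraMap L (U ℂ)).comp ψ = MvPolynomial.eval₂Hom (ph G t g j)
        fun i : I => (fun o : Option I => o.elim (hs h G t g j s) fun i => zf h I G t g (j, some i)) (some i) :=
      RingHom.ext fun q => hψv q
    have h3 := eval₂_option (ph G t g j) (fun o : Option I => o.elim (hs h G t g j s) fun i => zf h I G t g (j, some i)) p
    rw [h2]
    refine h3.trans ?_
    have h4 := hs_rel hC hh hbig j (MvPolynomial.rename (fun o : Option I => o.elim s Subtype.val) p) (by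
      rw [MvPolynomial.aeval_rename, ← hp]
      congr 2
      funext o
      rcases o with _ | i <;> rfl)
    rw [MvPolynomial.eval₂_rename] at h4
    rw [← h4]
    congr 1
    funext o
    rcases o with _ | i <;> rfl

/-- words in the variables -/
noncomputable abbrev wX (r : ℕ) {δ : ℕ} (b : Fin δ → Option (Fin r)) : MvPolynomial (Fin r) (Polynomial ℚ) :=
  yw (fun j => (MvPolynomial.X j : MvPolynomial (Fin r) (Polynomial ℚ))) b

/-- linear independence for one fibre -/
theorem li_one (conn : Conn h) (hI : AlgebraicIndependent (Polynomial ℚ) (fun i : I => h i))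
    (hI2 : ∀ s ∉ I, ¬ AlgebraicIndependent (Polynomial ℚ) (fun o : Option I => o.elim (h s) fun i => h i))
    {C : ℝ} (hC : 0 ≤ C) (hh : ∀ j m, |((coeff m (h j) : ℚ) : ℝ)| ≤ C ^ (m + 1))
    (hbig : ∀ N : ℕ, ∀ j, ∀ᶠ n in (hyperfilter ℕ : Filter ℕ), N < t n - G * g n j)
    (hsm : ∀ c : Polynomial ℚ, c ≠ 0 → ∀ j, ∀ᶠ n in (hyperfilter ℕ : Filter ℕ),
      c.eval (1 / ((t n - G * g n j : ℕ) : ℚ)) ≠ 0)
    (hz : ∀ a, zf h I G t g a ∉ MM.closure (W ∪ zf h I G t g '' {a}ᶜ)) (i : Fin k) {δ : ℕ}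
    {B : Finset (Fin δ → Option (Fin r))} (hB : LinearIndependent (Polynomial ℚ) (fun b : B => yw h b.1))
    {off : U ℂ} (hoff : off ∈ clF W) (c : B × Fin (δ + 1) → U ℂ)
    (hc : ∀ β, c β ∈ clF (W ∪ zf h I G t g '' {b | b.1 ≠ i}))
    (h0 : ∑ β, c β * (yw (hs h G t g i) β.1.1 * (off + zf h I G t g (i, none)) ^ (β.2 : ℕ)) = 0) : ∀ β, c β = 0 := by
  classical
  set fI : I → Fin k × Option I := fun s => (i, some s) with hfI
  have hfIinj : Function.Injective fI := by
    intro a b hab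
    simpa [hfI] using hab
  have hfree := free_sub W (zf h I G t g) hz fI hfIinj
  set L' := clF (W ∪ zf h I G t g '' (Set.range fI)ᶜ) with hL'
  set L := clF (W ∪ zf h I G t g '' {b | b.1 ≠ i}) with hL
  have hLL : L ≤ L' := by
    refine clF_mono (Set.union_subset_union_right _ (Set.image_mono ?_))
    rintro b hb ⟨s, rfl⟩
    exact hb rfl
  have hWL' : clF W ≤ L' := clF_mono Set.subset_union_left
  have hWL : clF W ≤ L := clF_mono Set.subset_union_left
  have hnone : zf h I G t g (i, none) ∈ L' := sub_clF (Or.inr ⟨(i, none), by rintro ⟨s, hs⟩; simp [hfI] at hs, rfl⟩)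
  have hyw : ∀ b : Fin δ → Option (Fin r), MvPolynomial.eval₂ (ph G t g i) (hs h G t g i) (wX r b) = yw (hs h G t g i) b := by
    intro b
    have e1 := yw_map ((MvPolynomial.eval₂Hom (ph G t g i) (hs h G t g i)).toMonoidHom)
      (fun j => (MvPolynomial.X j : MvPolynomial (Fin r) (Polynomial ℚ))) b
    refine e1.trans ?_
    congr 1
    funext j
    exact MvPolynomial.eval₂Hom_X' _ _ _
  have haw : ∀ b : Fin δ → Option (Fin r), MvPolynomial.aeval h (wX r b) = yw h b := by
    intro b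
    have e1 := yw_map ((MvPolynomial.aeval (R := Polynomial ℚ) h).toRingHom : MvPolynomial (Fin r) (Polynomial ℚ) →* ℚ⟦X⟧)
      (fun j => (MvPolynomial.X j : MvPolynomial (Fin r) (Polynomial ℚ))) b
    refine e1.trans ?_
    congr 1
    funext j
    exact MvPolynomial.aeval_X _ _
  have h1 : ∀ β : B, ∑ n : Fin (δ + 1), c (β, n) * (off + zf h I G t g (i, none)) ^ (n : ℕ) = 0 := by
    intro β
    refine val_li conn hI hI2 (ph G t g i) (ph_inj hsm i) (hs h G t g i) (hs_rel hC hh hbig i) L' (fun c => ph_clF i c)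
      hfree (fun β : B => wX r β.1) ?_ Finset.univ
      (fun β => ∑ n : Fin (δ + 1), c (β, n) * (off + zf h I G t g (i, none)) ^ (n : ℕ)) ?_ ?_ β (Finset.mem_univ _)
    · intro s c hc0
      refine linearIndependent_iff'.1 hB s c ?_
      rw [← hc0]
      refine Finset.sum_congr rfl fun l _ => ?_
      rw [haw, Algebra.smul_def]
    · intro β
      exact L'.sum_mem fun n _ => L'.mul_mem (hLL (hc _)) (L'.pow_mem (L'.add_mem (hWL' hoff) hnone) _)
    · rw [← h0, Fintype.sum_prod_type]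
      refine Finset.sum_congr rfl fun β _ => ?_
      rw [hyw, Finset.sum_mul]
      refine Finset.sum_congr rfl fun n _ => ?_
      ring
  rintro ⟨β, n⟩
  by_contra hne
  have h2 : IsAlgebraic L (off + zf h I G t g (i, none)) := by
    refine ⟨∑ n : Fin (δ + 1), Polynomial.C (⟨c (β, n), hc _⟩ : L) * Polynomial.X ^ (n : ℕ), ?_, ?_⟩
    · intro h3
      have h4 := congrArg (fun P => Polynomial.coeff P (n : ℕ)) h3
      simp only [Polynomial.finsetSum_coeff, Polynomial.coeff_C_mul, Polynomial.coeff_X_pow, Polynomial.coeff_zero] at h4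
      rw [Finset.sum_eq_single n] at h4
      · rw [if_pos rfl, mul_one] at h4
        exact hne (congrArg Subtype.val h4)
      · intro m _ hm
        rw [if_neg (fun h5 => hm (Fin.ext h5.symm)), mul_zero]
      · intro h5
        exact absurd (Finset.mem_univ _) h5
    · rw [map_sum, ← h1 β]
      refine Finset.sum_congr rfl fun m _ => ?_
      rw [map_mul, map_pow, Polynomial.aeval_C, Polynomial.aeval_X]
      rfl
  have h3 : off + zf h I G t g (i, none) ∈ L := clF_alg h2
  have h4 : zf h I G t g (i, none) ∈ L := by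
    have h5 := L.sub_mem h3 (hWL hoff)
    rwa [add_sub_cancel_left] at h5
  refine hz (i, none) (MM.closure_subset_closure ?_ (mem_clF.1 h4))
  refine Set.union_subset_union_right _ (Set.image_mono ?_)
  rintro b hb rfl
  exact hb rfl

/-- linear independence for several fibres -/
theorem li_all (conn : Conn h) (hI : AlgebraicIndependent (Polynomial ℚ) (fun i : I => h i))
    (hI2 : ∀ s ∉ I, ¬ AlgebraicIndependent (Polynomial ℚ) (fun o : Option I => o.elim (h s) fun i => h i))
    {C : ℝ} (hC : 0 ≤ C) (hh : ∀ j m, |((coeff m (h j) : ℚ) : ℝ)| ≤ C ^ (m + 1))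
    (hbig : ∀ N : ℕ, ∀ j, ∀ᶠ n in (hyperfilter ℕ : Filter ℕ), N < t n - G * g n j)
    (hsm : ∀ c : Polynomial ℚ, c ≠ 0 → ∀ j, ∀ᶠ n in (hyperfilter ℕ : Filter ℕ),
      c.eval (1 / ((t n - G * g n j : ℕ) : ℚ)) ≠ 0)
    (hz : ∀ a, zf h I G t g a ∉ MM.closure (W ∪ zf h I G t g '' {a}ᶜ)) {δ : ℕ}
    {B : Finset (Fin δ → Option (Fin r))} (hB : LinearIndependent (Polynomial ℚ) (fun b : B => yw h b.1))
    {off : U ℂ} (hoff : off ∈ clF W) (c : (Fin k → B × Fin (δ + 1)) → U ℂ) (hc : ∀ b, c b ∈ clF W)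
    (h0 : ∑ b, c b * ∏ i, (yw (hs h G t g i) (b i).1.1 * (off + zf h I G t g (i, none)) ^ ((b i).2 : ℕ)) = 0) :
    ∀ b, c b = 0 := by
  classical
  refine prod_li k (fun _ => B × Fin (δ + 1))
    (fun i β => yw (hs h G t g i) β.1.1 * (off + zf h I G t g (i, none)) ^ (β.2 : ℕ)) (clF W) (fun i => ?_) c hc h0
  refine ⟨clF (W ∪ zf h I G t g '' {b | b.1 ≠ i}), clF_mono Set.subset_union_left, fun i' hi' β => ?_, fun c hc h0 =>
    li_one conn hI hI2 hC hh hbig hsm hz i hB hoff c hc h0⟩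
  set L := clF (W ∪ zf h I G t g '' {b | b.1 ≠ i}) with hL
  have h1 : ∀ s, hs h G t g i' s ∈ L := fun s => clF_mono (Set.union_subset_union_right _ (Set.image_mono (by
    rintro b hb
    rw [Set.mem_ofPred_eq] at hb ⊢
    rw [hb]
    exact hi'.ne'))) (hs_clF hI2 hC hh hbig hsm hz i' s)
  refine L.mul_mem ?_ (L.pow_mem (L.add_mem (clF_mono Set.subset_union_left hoff)
    (sub_clF (Or.inr ⟨(i', none), hi'.ne', rfl⟩))) _)
  unfold yw
  refine L.prod_mem fun j _ => ?_
  rcases β.1.1 j with _ | s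
  · exact L.one_mem
  · exact h1 s

end

end Pool.Agent.Y118.UL
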