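import Pool.Agent.Y118.UL.Ldd

/-!
# Connected families: values are linearly independent over every field over which the free coordinates are
algebraically independent
-/

set_option autoImplicit false
set_option maxHeartbeats 400000

open PowerSeries

namespace Pool.Agent.Y118.UL

/-- values in a domain `A` over a domain `C` -/
theorem frac_li {C A Ω : Type} [CommRing C] [IsDomain C] [CharZero C] [CommRing A] [IsDomain A] [Field Ω]
    (al : C →+* A) (hal : Function.Injective al) {I : Type} (g0 : MvPolynomial I C →+* A)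
    (hg0C : ∀ q, g0 (MvPolynomial.C q) = al q) (halgA : ∀ x : A, Alg g0 x) (v : A →+* Ω) (F : Subfield Ω)
    (hF : ∀ c, v (al c) ∈ F)
    (hfree : ∀ p : MvPolynomial I F, p.eval₂ F.subtype (fun i => v (g0 (MvPolynomial.X i))) = 0 → p = 0)
    (hfree2 : ∀ p : MvPolynomial I C, v (g0 p) = 0 → p = 0)
    (hreg : ∀ e : FractionRing A, (∃ p : Polynomial C, p ≠ 0 ∧ p.eval₂ ((algebraMap A (FractionRing A)).comp al) e = 0) →
      ∃ a b : C, b ≠ 0 ∧ e = algebraMap A (FractionRing A) (al a) / algebraMap A (FractionRing A) (al b))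
    {ι : Type} (x : ι → A) (hLI : ∀ (s : Finset ι) (c : ι → C), ∑ l ∈ s, al (c l) * x l = 0 → ∀ l ∈ s, c l = 0)
    (s : Finset ι) (c : ι → Ω) (hcF : ∀ l, c l ∈ F) (hsum : ∑ l ∈ s, c l * v (x l) = 0) : ∀ l ∈ s, c l = 0 := by
  classical
  have hvinj : Function.Injective v := by
    rw [injective_iff_map_eq_zero]
    intro x hx
    by_contra hx0
    obtain ⟨q, hq0, w, hw⟩ := (halgA x).dvd g0 hx0
    apply hq0
    apply hfree2
    rw [hw, map_mul, hx, zero_mul]
  let φF : C →+* F := (v.comp al).codRestrict F hF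
  have hφF : Function.Injective φF := by
    intro a b hab
    exact hal (hvinj (congrArg Subtype.val hab))
  have hiinj : Function.Injective ((algebraMap A (FractionRing A)).comp al) := (IsFractionRing.injective A (FractionRing A)).comp hal
  let iE : FractionRing C →+* FractionRing A := IsFractionRing.lift (A := C) (K := FractionRing C)
    (g := (algebraMap A (FractionRing A)).comp al) hiinj
  have hiE : ∀ q, iE (algebraMap C (FractionRing C) q) = algebraMap A (FractionRing A) (al q) := fun q =>
    IsFractionRing.lift_algebraMap hiinj q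
  let jF : FractionRing C →+* F := IsFractionRing.lift (A := C) (K := FractionRing C) (g := φF) hφF
  have hjF : ∀ q, jF (algebraMap C (FractionRing C) q) = φF q := fun q => IsFractionRing.lift_algebraMap hφF q
  let aE : FractionRing A →+* Ω := IsFractionRing.lift (A := A) (K := FractionRing A) (g := v) hvinj
  have haE : ∀ q, aE (algebraMap A (FractionRing A) q) = v q := fun q => IsFractionRing.lift_algebraMap hvinj q
  have hab : aE.comp iE = F.subtype.comp jF := by
    refine IsLocalization.ringHom_ext (nonZeroDivisors C) (RingHom.ext fun q => ?_)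
    rw [RingHom.comp_apply, RingHom.comp_apply, RingHom.comp_apply, RingHom.comp_apply, hiE, haE, hjF]
    rfl
  have hcz : CharZero (FractionRing C) := charZero_of_injective_algebraMap (IsFractionRing.injective C (FractionRing C))
  have hreg' : ∀ e : FractionRing A, (∃ p : Polynomial (FractionRing C), p ≠ 0 ∧ p.eval₂ iE e = 0) → e ∈ iE.range := by
    rintro e ⟨p, hp0, hp⟩
    obtain ⟨a, b, hb, hab'⟩ := hreg e ⟨IsLocalization.integerNormalization (nonZeroDivisors C) p, fun h0 =>
      hp0 ((IsFractionRing.integerNormalization_eq_zero_iff (A := C) (K := FractionRing C)).1 h0), by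
        have h1 : (algebraMap A (FractionRing A)).comp al = iE.comp (algebraMap C (FractionRing C)) :=
          RingHom.ext fun q => (hiE q).symm
        rw [h1]
        exact IsLocalization.integerNormalization_eval₂_eq_zero (nonZeroDivisors C) iE p hp⟩
    refine ⟨algebraMap C (FractionRing C) a / algebraMap C (FractionRing C) b, ?_⟩
    rw [hab', map_div₀, hiE, hiE]
  let fE : MvPolynomial I (FractionRing C) →+* FractionRing A :=
    MvPolynomial.eval₂Hom iE fun i => algebraMap A (FractionRing A) (g0 (MvPolynomial.X i))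
  have hfE : fE.comp (MvPolynomial.map (algebraMap C (FractionRing C))) = (algebraMap A (FractionRing A)).comp g0 := by
    refine MvPolynomial.ringHom_ext (fun c => ?_) fun i => ?_
    · rw [RingHom.comp_apply, RingHom.comp_apply, MvPolynomial.map_C, hg0C]
      show MvPolynomial.eval₂Hom iE _ (MvPolynomial.C _) = _
      rw [MvPolynomial.eval₂Hom_C, hiE]
    · rw [RingHom.comp_apply, RingHom.comp_apply, MvPolynomial.map_X]
      exact MvPolynomial.eval₂Hom_X' _ _ _
  have halgAE : ∀ x : A, Alg fE (algebraMap A (FractionRing A) x) := by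
    intro x
    obtain ⟨p, hp0, hp⟩ := halgA x
    refine ⟨p.map (MvPolynomial.map (algebraMap C (FractionRing C))), (Polynomial.map_ne_zero_iff
      (MvPolynomial.map_injective _ (IsFractionRing.injective C (FractionRing C)))).2 hp0, ?_⟩
    rw [Polynomial.eval₂_map, hfE, ← Polynomial.hom_eval₂, hp, map_zero]
  have halgE : ∀ e : FractionRing A, ∃ p : Polynomial (MvPolynomial I (FractionRing C)), p ≠ 0 ∧ p.eval₂ fE e = 0 := by
    intro e
    obtain ⟨x, y, hy, hxy⟩ := IsFractionRing.div_surjective (A := A) e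
    rw [← hxy, div_eq_mul_inv]
    refine Alg.mul fE (halgAE x) ?_
    let _ := fE.toAlgebra
    exact IsAlgebraic.inv (R := MvPolynomial I (FractionRing C)) (K := FractionRing A) (halgAE y)
  have hLI' : ∀ s : Finset ι, ∀ c : ι → FractionRing C, ∑ l ∈ s, iE (c l) * algebraMap A (FractionRing A) (x l) = 0 →
      ∀ l ∈ s, c l = 0 := by
    intro s c hc0 l hl
    obtain ⟨⟨d, hd⟩, hd2⟩ := IsLocalization.exist_integer_multiples_of_finset (nonZeroDivisors C) (s.image c)
    have h1 : ∀ l, ∃ q : C, l ∈ s → algebraMap C (FractionRing C) q = algebraMap C (FractionRing C) d * c l := by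
      intro l
      by_cases hl : l ∈ s
      · obtain ⟨q, hq⟩ := hd2 (c l) (Finset.mem_image_of_mem _ hl)
        refine ⟨q, fun _ => hq.trans ?_⟩
        rw [Algebra.smul_def]
      · exact ⟨0, fun h => absurd h hl⟩
    choose q hq using h1
    have hd0 : algebraMap C (FractionRing C) d ≠ 0 := by
      rw [Ne, map_eq_zero_iff _ (IsFractionRing.injective C (FractionRing C))]
      exact nonZeroDivisors.ne_zero hd
    have h2 := hLI s q (by
      have h3 : algebraMap A (FractionRing A) (∑ l ∈ s, al (q l) * x l) = 0 := by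
        rw [map_sum, ← mul_zero (iE (algebraMap C (FractionRing C) d)), ← hc0, Finset.mul_sum]
        refine Finset.sum_congr rfl fun l hl => ?_
        rw [map_mul, ← hiE, hq l hl, map_mul, mul_assoc]
      exact (map_eq_zero_iff _ (IsFractionRing.injective A (FractionRing A))).1 h3) l hl
    have h7 := hq l hl
    rw [h2, map_zero, eq_comm] at h7
    exact (mul_eq_zero.1 h7).resolve_left hd0
  intro l hl
  have h1 := ld iE jF aE F.subtype hab hreg' (fun i : I => algebraMap A (FractionRing A) (g0 (MvPolynomial.X i))) (by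
      intro p hp
      refine hfree p ?_
      rw [← hp]
      congr 1
      funext i
      exact (haE _).symm) halgE
    (fun l => algebraMap A (FractionRing A) (x l)) hLI' s (fun l => ⟨c l, hcF l⟩) (by
      rw [← hsum]
      refine Finset.sum_congr rfl fun l _ => ?_
      rw [haE]
      rfl) l hl
  exact congrArg Subtype.val h1

variable {r : ℕ}

/-- every rational expression in the functions which is algebraic over `ℚ(x)` is in `ℚ(x)` -/
def Conn (h : Fin r → ℚ⟦X⟧) : Prop := ∀ A B : MvPolynomial (Fin r) (Polynomial ℚ),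
  IsAlgebraic (Polynomial ℚ) (algebraMap ℚ⟦X⟧ (FractionRing ℚ⟦X⟧) (MvPolynomial.aeval h A) /
    algebraMap ℚ⟦X⟧ (FractionRing ℚ⟦X⟧) (MvPolynomial.aeval h B)) →
  ∃ a b : Polynomial ℚ, b ≠ 0 ∧ algebraMap ℚ⟦X⟧ (FractionRing ℚ⟦X⟧) (MvPolynomial.aeval h A) /
    algebraMap ℚ⟦X⟧ (FractionRing ℚ⟦X⟧) (MvPolynomial.aeval h B) =
      algebraMap (Polynomial ℚ) (FractionRing ℚ⟦X⟧) a / algebraMap (Polynomial ℚ) (FractionRing ℚ⟦X⟧) b

lemma ps_inj : Function.Injective (algebraMap (Polynomial ℚ) ℚ⟦X⟧) := by
  intro a b hab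
  rw [PowerSeries.algebraMap_apply', PowerSeries.algebraMap_apply'] at hab
  simpa using hab

theorem val_li {Ω : Type} [Field Ω] {h : Fin r → ℚ⟦X⟧} (hc : Conn h) {I : Finset (Fin r)}
    (hI : AlgebraicIndependent (Polynomial ℚ) (fun i : I => h i))
    (hI2 : ∀ s ∉ I, ¬ AlgebraicIndependent (Polynomial ℚ) (fun o : Option I => o.elim (h s) fun i => h i))
    (φ : Polynomial ℚ →+* Ω) (hφ : Function.Injective φ) (hv : Fin r → Ω)
    (hrel : ∀ R : MvPolynomial (Fin r) (Polynomial ℚ), MvPolynomial.aeval h R = 0 → MvPolynomial.eval₂ φ hv R = 0)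
    (F : Subfield Ω) (hF : ∀ c, φ c ∈ F)
    (hfree : ∀ p : MvPolynomial I F, p.eval₂ F.subtype (fun i : I => hv i) = 0 → p = 0)
    {ι : Type} (Q : ι → MvPolynomial (Fin r) (Polynomial ℚ))
    (hQ : ∀ (s : Finset ι) (c : ι → Polynomial ℚ), ∑ l ∈ s, algebraMap _ ℚ⟦X⟧ (c l) * MvPolynomial.aeval h (Q l) = 0 →
      ∀ l ∈ s, c l = 0) (s : Finset ι) (c : ι → Ω) (hcF : ∀ l, c l ∈ F)
    (hsum : ∑ l ∈ s, c l * MvPolynomial.eval₂ φ hv (Q l) = 0) : ∀ l ∈ s, c l = 0 := by
  classical
  -- the ring of the functions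
  let A : Subalgebra (Polynomial ℚ) ℚ⟦X⟧ := (MvPolynomial.aeval h).range
  let π : MvPolynomial (Fin r) (Polynomial ℚ) →ₐ[Polynomial ℚ] A := (MvPolynomial.aeval h).rangeRestrict
  have hπ : Function.Surjective π := (MvPolynomial.aeval h).rangeRestrict_surjective
  have hπv : ∀ p, ((π p : A) : ℚ⟦X⟧) = MvPolynomial.aeval h p := fun p => rfl
  have hker : ∀ p, π p = 0 ↔ MvPolynomial.aeval h p = 0 := fun p => by
    rw [← hπv, ZeroMemClass.coe_eq_zero]
  have hAinj : Function.Injective (algebraMap (Polynomial ℚ) A) := by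
    intro a b hab
    exact ps_inj (congrArg Subtype.val hab)
  let ev0 : MvPolynomial (Fin r) (Polynomial ℚ) →+* Ω := MvPolynomial.eval₂Hom φ hv
  let v : A →+* Ω := RingHom.liftOfSurjective π.toRingHom hπ ⟨ev0, fun p hp => by
    rw [RingHom.mem_ker] at hp ⊢
    exact hrel p ((hker p).1 hp)⟩
  have hvπ : ∀ p, v (π p) = MvPolynomial.eval₂ φ hv p := by
    intro p
    exact RingHom.liftOfRightInverse_comp_apply _ _ _ _ _
  have hvC : ∀ q : Polynomial ℚ, v (algebraMap _ A q) = φ q := by
    intro q
    have h1 : algebraMap (Polynomial ℚ) A q = π (MvPolynomial.C q) := by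
      rw [← MvPolynomial.algebraMap_eq, AlgHom.commutes]
    rw [h1, hvπ, MvPolynomial.eval₂_C]
  -- the free part
  let g0 : MvPolynomial I (Polynomial ℚ) →+* A := π.toRingHom.comp (MvPolynomial.rename (Subtype.val : I → Fin r)).toRingHom
  have hg0 : ∀ p, ((g0 p : A) : ℚ⟦X⟧) = MvPolynomial.aeval (fun i : I => h i) p := by
    intro p
    show MvPolynomial.aeval h (MvPolynomial.rename (Subtype.val : I → Fin r) p) = _
    rw [MvPolynomial.aeval_rename]
    rfl
  have hg0inj : Function.Injective g0 := by
    rw [injective_iff_map_eq_zero]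
    intro p hp
    refine (algebraicIndependent_iff.1 hI) p ?_
    rw [← hg0, hp]
    rfl
  have hg0X : ∀ i : I, g0 (MvPolynomial.X i) = π (MvPolynomial.X (i : Fin r)) := by
    intro i
    show π (MvPolynomial.rename (Subtype.val : I → Fin r) (MvPolynomial.X i)) = _
    rw [MvPolynomial.rename_X]
  have hg0C : ∀ q : Polynomial ℚ, g0 (MvPolynomial.C q) = algebraMap _ A q := by
    intro q
    show π (MvPolynomial.rename (Subtype.val : I → Fin r) (MvPolynomial.C q)) = _
    rw [MvPolynomial.rename_C, ← MvPolynomial.algebraMap_eq, AlgHom.commutes]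
  have halg0 : ∀ j : Fin r, Alg g0 (π (MvPolynomial.X j)) := by
    intro j
    by_cases hj : j ∈ I
    · rw [← hg0X ⟨j, hj⟩]
      exact Alg.map g0 _
    · have h1 := hI2 j hj
      rw [algebraicIndependent_iff] at h1
      push Not at h1
      obtain ⟨p, hp, hp0⟩ := h1
      refine ⟨MvPolynomial.optionEquivLeft (Polynomial ℚ) I p, fun h => hp0
        ((map_eq_zero_iff _ (MvPolynomial.optionEquivLeft (Polynomial ℚ) I).injective).1 h), ?_⟩
      have h2 : (Polynomial.eval₂RingHom g0 (π (MvPolynomial.X j))).comp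
          ((MvPolynomial.optionEquivLeft (Polynomial ℚ) I : MvPolynomial (Option I) (Polynomial ℚ) →+*
            Polynomial (MvPolynomial I (Polynomial ℚ)))) =
          π.toRingHom.comp (MvPolynomial.rename (fun o : Option I => o.elim j Subtype.val)).toRingHom := by
        refine MvPolynomial.ringHom_ext (fun c => ?_) fun o => ?_
        · simp only [RingHom.comp_apply, RingHom.coe_coe, MvPolynomial.optionEquivLeft_C, Polynomial.coe_eval₂RingHom,
            Polynomial.eval₂_C]
          rw [hg0C]
          show _ = π (MvPolynomial.rename _ (MvPolynomial.C c))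
          rw [MvPolynomial.rename_C, ← MvPolynomial.algebraMap_eq, AlgHom.commutes]
        · rcases o with _ | i
          · simp only [RingHom.comp_apply, RingHom.coe_coe, MvPolynomial.optionEquivLeft_X_none,
              Polynomial.coe_eval₂RingHom, Polynomial.eval₂_X]
            show _ = π (MvPolynomial.rename _ (MvPolynomial.X none))
            rw [MvPolynomial.rename_X]
            rfl
          · simp only [RingHom.comp_apply, RingHom.coe_coe, MvPolynomial.optionEquivLeft_X_some,
              Polynomial.coe_eval₂RingHom, Polynomial.eval₂_C]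
            rw [hg0X]
            show _ = π (MvPolynomial.rename _ (MvPolynomial.X (some i)))
            rw [MvPolynomial.rename_X]
            rfl
      have h3 := DFunLike.congr_fun h2 p
      refine h3.trans ?_
      show π (MvPolynomial.rename _ p) = 0
      rw [hker, MvPolynomial.aeval_rename, ← hp]
      congr 2
      funext o
      rcases o with _ | i <;> rfl
  have halgA : ∀ x : A, Alg g0 x := by
    intro x
    obtain ⟨p, rfl⟩ := hπ x
    induction p using MvPolynomial.induction_on with
    | C c =>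
      rw [← MvPolynomial.algebraMap_eq, AlgHom.commutes, ← hg0C]
      exact Alg.map g0 _
    | add p q hp hq =>
      rw [map_add]
      exact hp.add g0 hq
    | mul_X p j hp =>
      rw [map_mul]
      exact hp.mul g0 (halg0 j)
  have hF' : ∀ q, v (algebraMap _ A q) ∈ F := fun q => by
    rw [hvC]
    exact hF q
  let φF : Polynomial ℚ →+* F := φ.codRestrict F hF
  have hφF : Function.Injective φF := by
    intro a b hab
    exact hφ (congrArg Subtype.val hab)
  have hvX : ∀ i : I, v (g0 (MvPolynomial.X i)) = hv i := fun i => by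
    rw [hg0X, hvπ, MvPolynomial.eval₂_X]
  have hfree2 : ∀ p : MvPolynomial I (Polynomial ℚ), v (g0 p) = 0 → p = 0 := by
    intro p hp
    have h1 : v (g0 p) = (MvPolynomial.map φF p).eval₂ F.subtype (fun i : I => hv i) := by
      rw [MvPolynomial.eval₂_map]
      have h2 : F.subtype.comp φF = φ := rfl
      rw [h2]
      show v (π (MvPolynomial.rename _ p)) = _
      rw [hvπ, MvPolynomial.eval₂_rename]
      rfl
    rw [h1] at hp
    exact (MvPolynomial.map_injective _ hφF) ((hfree _ hp).trans (map_zero _).symm)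
  -- regularity
  have hreg : ∀ e : FractionRing A, (∃ p : Polynomial (Polynomial ℚ), p ≠ 0 ∧
      p.eval₂ ((algebraMap A (FractionRing A)).comp (algebraMap (Polynomial ℚ) A)) e = 0) →
      ∃ a b : Polynomial ℚ, b ≠ 0 ∧ e = algebraMap A (FractionRing A) (algebraMap _ A a) /
        algebraMap A (FractionRing A) (algebraMap _ A b) := by
    rintro e ⟨p, hp0, hp⟩
    have huinj : Function.Injective ((algebraMap ℚ⟦X⟧ (FractionRing ℚ⟦X⟧)).comp A.val.toRingHom) :=
      (IsFractionRing.injective ℚ⟦X⟧ (FractionRing ℚ⟦X⟧)).comp Subtype.val_injective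
    let uE : FractionRing A →+* FractionRing ℚ⟦X⟧ := IsFractionRing.lift (A := A) (K := FractionRing A)
      (g := (algebraMap ℚ⟦X⟧ (FractionRing ℚ⟦X⟧)).comp A.val.toRingHom) huinj
    have huE : ∀ q : A, uE (algebraMap A (FractionRing A) q) = algebraMap ℚ⟦X⟧ (FractionRing ℚ⟦X⟧) (q : ℚ⟦X⟧) :=
      fun q => IsFractionRing.lift_algebraMap huinj q
    have huC : ∀ q : Polynomial ℚ, uE (algebraMap A (FractionRing A) (algebraMap _ A q)) =
        algebraMap (Polynomial ℚ) (FractionRing ℚ⟦X⟧) q := by
      intro q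
      rw [huE, IsScalarTower.algebraMap_apply (Polynomial ℚ) ℚ⟦X⟧ (FractionRing ℚ⟦X⟧)]
      rfl
    obtain ⟨x, y, hy, hxy⟩ := IsFractionRing.div_surjective (A := A) e
    obtain ⟨P, rfl⟩ := hπ x
    obtain ⟨Q', rfl⟩ := hπ y
    have hue : uE e = algebraMap ℚ⟦X⟧ (FractionRing ℚ⟦X⟧) (MvPolynomial.aeval h P) /
        algebraMap ℚ⟦X⟧ (FractionRing ℚ⟦X⟧) (MvPolynomial.aeval h Q') := by
      rw [← hxy, map_div₀, huE, huE]
      rfl
    obtain ⟨a, b, hb, hab'⟩ := hc P Q' (by
      rw [← hue]
      refine ⟨p, hp0, ?_⟩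
      rw [Polynomial.aeval_def]
      have h1 : algebraMap (Polynomial ℚ) (FractionRing ℚ⟦X⟧) =
          uE.comp ((algebraMap A (FractionRing A)).comp (algebraMap (Polynomial ℚ) A)) := RingHom.ext fun q => (huC q).symm
      rw [h1, ← Polynomial.hom_eval₂, hp, map_zero])
    refine ⟨a, b, hb, ?_⟩
    apply uE.injective
    rw [hue, hab', map_div₀, huC, huC]
  refine frac_li (algebraMap (Polynomial ℚ) A) hAinj g0 hg0C halgA v F hF' ?_ hfree2 hreg (fun l => π (Q l)) ?_ s c hcF ?_
  · intro p hp
    refine hfree p ?_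
    rw [← hp]
    congr 1
    funext i
    exact (hvX i).symm
  · intro s c hc0
    refine hQ s c ?_
    have h5 := congrArg (Subtype.val : A → ℚ⟦X⟧) hc0
    have h6 : ((∑ l ∈ s, algebraMap _ A (c l) * π (Q l) : A) : ℚ⟦X⟧) =
        ∑ l ∈ s, algebraMap _ ℚ⟦X⟧ (c l) * MvPolynomial.aeval h (Q l) := by
      rw [AddSubmonoidClass.coe_finsetSum]
      rfl
    rw [← h6]
    exact h5
  · rw [← hsum]
    exact Finset.sum_congr rfl fun l _ => by rw [hvπ]

end Pool.Agent.Y118.UL
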