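import Pool.Agent.Y118.UL.Reg

/-!
# The windows theorem for connected families
-/

set_option autoImplicit false
set_option maxHeartbeats 400000

open PowerSeries Filter Pool.Agent.Y113 Pool.Agent.Y120.GF Pool.Agent.Y120.GH

namespace Pool.Agent.Y118.UL

section
variable {r : ℕ} {h : Fin r → ℚ⟦X⟧} {I : Finset (Fin r)}

/-- the point: logarithms with an offset, and the values -/
noncomputable def pnt {k : ℕ} (h : Fin r → ℚ⟦X⟧) (G t : ℕ) (g : Fin k → ℕ) (off : ℂ) (a : Fin k × Option (Fin r)) : ℂ :=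
  a.2.elim (off + vl G h t (g a.1) none) fun i => vl G h t (g a.1) (some i)

/-- abstract windows theorem, connected families -/
theorem abs_vv (conn : Conn h) (hI : AlgebraicIndependent (Polynomial ℚ) (fun i : I => h i))
    (hI2 : ∀ s ∉ I, ¬ AlgebraicIndependent (Polynomial ℚ) (fun o : Option I => o.elim (h s) fun i => h i))
    {C : ℝ} (hC : 0 ≤ C) (hh : ∀ j m, |((coeff m (h j) : ℚ) : ℝ)| ≤ C ^ (m + 1)) {G : ℕ}
    (hnr : NoRel (fun t g (i : Option I) => vl G h t g (i.map Subtype.val)))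
    {υ₀ υ₁ : Type} [Fintype υ₀] [Fintype υ₁] (w₀ : υ₀ → ℂ) (T : Finset υ₀)
    (hT : ∀ j, IsAlgebraic (Algebra.adjoin ℚ (w₀ '' (T : Set υ₀))) (w₀ j)) (oc : Option υ₁) (k D d : ℕ)
    {B : Finset (Fin d → Option (Fin r))} (hLI : LinearIndependent (Polynomial ℚ) fun b : B => yw h b.1)
    {a : Polynomial ℤ} {M : (Fin d → Option (Fin r)) → B → Polynomial ℤ} (ha : a ≠ 0)
    (hM : ∀ b, ps a * yw h b = ∑ β, ps (M b β) * yw h β.1) :
    ∃ E : ℕ, ∀ H t : ℕ, (H + 2) ^ E ≤ t → ∀ w₁ : υ₁ → ℂ, ∃ S : Finset ℕ, S.card ≤ T.card + Fintype.card υ₁ ∧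
      ∀ g : Fin k → ℕ, Function.Injective g → (∀ i, 1 ≤ g i ∧ g i ≤ H ∧ g i ∉ S) →
      ∀ K : IntermediateField ℚ ℂ, FiniteDimensional ℚ K → Module.finrank ℚ K ≤ D →
      ∀ P : MvPolynomial ((υ₀ ⊕ υ₁) ⊕ Fin k × Option (Fin r)) K, P.totalDegree ≤ d →
      MvPolynomial.aeval (Sum.elim (Sum.elim w₀ w₁) (pnt h G t g (oc.elim 0 w₁))) P = 0 →
      (∀ j, sq (t - G * g j) a ≠ 0) ∧ Pool.Agent.Y120.GH.vv (k := k) (δ := d) (r := fun _ => r) (B := fun _ => B)
        (fun _ => a) (fun _ => M) (fun j => t - G * g j) (sbc (Sum.elim w₀ w₁) P) = 0 := by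
  classical
  by_contra hcon
  push Not at hcon
  choose H t hHt w₁ hbad using hcon
  refine core hnr hHt k (Set.range (fun j : υ₀ ⊕ υ₁ => mk ℂ fun n => (Sum.elim w₀ (w₁ n) j : ℂ)))
    (T.card + Fintype.card υ₁) (rk_const w₀ T hT w₁)
    (fun n g => ∃ K : IntermediateField ℚ ℂ, FiniteDimensional ℚ K ∧ Module.finrank ℚ K ≤ D ∧
      ∃ P : MvPolynomial ((υ₀ ⊕ υ₁) ⊕ Fin k × Option (Fin r)) K, P.totalDegree ≤ d ∧
      MvPolynomial.aeval (Sum.elim (Sum.elim w₀ (w₁ n)) (pnt h G (t n) g (oc.elim 0 (w₁ n)))) P = 0 ∧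
      ((∀ j, sq (t n - G * g j) a ≠ 0) → Pool.Agent.Y120.GH.vv (k := k) (δ := d) (r := fun _ => r) (B := fun _ => B)
        (fun _ => a) (fun _ => M) (fun j => t n - G * g j) (sbc (Sum.elim w₀ (w₁ n)) P) ≠ 0)) ?_ ?_
  · intro n S hS
    obtain ⟨g, h1, h2, K, h6, h7, P, h8, h9, h10⟩ := hbad n S hS
    exact ⟨g, h1, h2, K, h6, h7, P, h8, h9, h10⟩
  · intro g hg1 hg2 hB
    choose K h6 h7 P h8 h9 h10 using hB
    by_contra hno
    push Not at hno
    have hbig : ∀ N : ℕ, ∀ j, ∀ᶠ n in (hyperfilter ℕ : Filter ℕ), N < t n - G * g n j := by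
      intro N j
      filter_upwards [ev_ge (G + N + 2)] with n hn
      have h1 : (H n + 2) ^ (G + N + 2) ≤ t n := (Nat.pow_le_pow_right (by omega) hn).trans (hHt n)
      have h2 : G + N + 1 + 1 ≤ 2 ^ (G + N + 1) := by
        have := Nat.lt_two_pow_self (n := G + N + 1)
        omega
      have h4 : 2 ^ (G + N + 1) * (H n + 2) ≤ (H n + 2) ^ (G + N + 2) := by
        rw [pow_succ (H n + 2)]
        exact Nat.mul_le_mul_right _ (Nat.pow_le_pow_left (by omega) _)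
      have h3 : (G + N + 2) * (H n + 2) ≤ t n := (Nat.mul_le_mul_right _ h2).trans (h4.trans h1)
      have h5 : G * g n j ≤ G * H n := Nat.mul_le_mul_left _ (hg2 n j).2
      have h6 : G * g n j + N < t n := by nlinarith
      omega
    have hsm : ∀ c : Polynomial ℚ, c ≠ 0 → ∀ j, ∀ᶠ n in (hyperfilter ℕ : Filter ℕ),
        c.eval (1 / ((t n - G * g n j : ℕ) : ℚ)) ≠ 0 := by
      intro c hc j
      obtain ⟨E, hE⟩ := small_x G c hc
      filter_upwards [ev_ge E] with n hn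
      exact hE (H n) (t n) ((Nat.pow_le_pow_right (by omega) hn).trans (hHt n)) _ (hg2 n j).1 (hg2 n j).2
    obtain ⟨n, hn1, hn2⟩ := dep_vv conn hI hI2 hC hh hbig hsm (fun n => (Sum.elim w₀ (w₁ n) : υ₀ ⊕ υ₁ → ℂ))
      (fun n => oc.elim 0 (w₁ n)) (by
        rcases oc with _ | v
        · have : mk ℂ (fun n => (none : Option υ₁).elim 0 (w₁ n)) = 0 := map_zero (mk ℂ)
          rw [this]
          exact (clF _).zero_mem
        · exact sub_clF ⟨Sum.inr v, rfl⟩) hno K h6 h7 P h8 h9 hLI ha hM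
    exact h10 n hn1 hn2

end

end Pool.Agent.Y118.UL
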